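import Pool.Agent.MP_861c96_gt.Mg.Face
import Pool.Agent.MP_861c96_gt.Defs

-- part MP_861c96_gt.Cases
section

/-! The case analysis: no quadric for a true helix, and a length bound for a planar semicircle. -/

namespace Pool.Agent.MP_861c96_gt

open Set Filter Topology Real

lemma sphere_nonplanar {r c a b d : ℝ} (hc : c ≠ 0)
    (h : ∀ t, dot (hy r c a b d t) (hy r c a b d t) = 1) : False := by
  have h0 := h 0
  have h1 := h (0 + 2 * π)
  have h2 := h (0 - 2 * π)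
  simp only [dot, hy, cos_add_two_pi, sin_add_two_pi, cos_sub_two_pi, sin_sub_two_pi] at h0 h1 h2
  have : (c * π) ^ 2 = 0 := by linear_combination (h1 + h2 - 2 * h0) / 8
  have := pow_eq_zero_iff (two_ne_zero) |>.1 this
  exact (mul_ne_zero hc pi_pos.ne') this

lemma cone_nonplanar {r c a b d : ℝ} (hr : 0 < r) (hc : c ≠ 0) {x : V3} (hx : dot x x ≠ 1)
    (h : ∀ t, ConeEq x (hy r c a b d t)) : False := by
  obtain ⟨x1, x2, x3⟩ := x
  have hcp : c * π ≠ 0 := mul_ne_zero hc pi_pos.ne'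
  have hk : x1 ^ 2 + x2 ^ 2 = 1 := by
    have h0 := h 0
    have h1 := h (0 + 2 * π)
    have h2 := h (0 - 2 * π)
    simp only [ConeEq, dot, hy, cos_add_two_pi, sin_add_two_pi, cos_sub_two_pi, sin_sub_two_pi]
      at h0 h1 h2
    have : (c * π) ^ 2 * (1 - x1 ^ 2 - x2 ^ 2) = 0 := by linear_combination (h1 + h2 - 2 * h0) / 8
    have := (mul_eq_zero.1 this).resolve_left (pow_ne_zero 2 hcp)
    linarith
  have hx3 : x3 ≠ 0 := by
    intro h3; apply hx; simp only [dot, h3]; linarith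
  have key : ∀ t, (r * cos t - a - x1) * x1 + (r * sin t - b - x2) * x2 = 0 := by
    intro t
    have h1 := h (t + 2 * π)
    have h2 := h (t - 2 * π)
    simp only [ConeEq, dot, hy, cos_add_two_pi, sin_add_two_pi, cos_sub_two_pi, sin_sub_two_pi]
      at h1 h2
    have : (c * π) * (x3 * ((r * cos t - a - x1) * x1 + (r * sin t - b - x2) * x2)) = 0 := by
      linear_combination (h1 - h2) / 8 + (c * π) * (c * t - d - x3) * hk
    exact (mul_eq_zero.1 ((mul_eq_zero.1 this).resolve_left hcp)).resolve_left hx3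
  have k0 := key 0
  have k1 := key π
  have k2 := key (π / 2)
  have k3 := key (-(π / 2))
  simp only [cos_zero, sin_zero, cos_pi, sin_pi, cos_pi_div_two, sin_pi_div_two, cos_neg, sin_neg]
    at k0 k1 k2 k3
  have e1 : r * x1 = 0 := by linear_combination (k0 - k1) / 2
  have e2 : r * x2 = 0 := by linear_combination (k2 - k3) / 2
  have f1 := (mul_eq_zero.1 e1).resolve_left hr.ne'
  have f2 := (mul_eq_zero.1 e2).resolve_left hr.ne'
  rw [f1, f2] at hk
  norm_num at hk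

lemma hemi {r d : ℝ} (hr : 0 < r) {p q : V3} (hcov : Cov r 0 0 0 d p q (Icc 0 π))
    (v1 v2 v3 M : ℝ) (hv2 : v2 ≤ 0) (hM : 0 ≤ M) (hv : M ^ 2 < v1 ^ 2 + v2 ^ 2 + v3 ^ 2) :
    M < v1 * p.1 + v2 * p.2.1 + v3 * p.2.2 ∨ M < v1 * q.1 + v2 * q.2.1 + v3 * q.2.2 ∨
      M < r * |v1| - v3 * d := by
  rcases hcov.hom (v1, v2, v3) M hM (by simp only [dot]; linarith) with h | h | ⟨σ, hσ, h⟩
  · exact Or.inl h
  · exact Or.inr (Or.inl h)
  · refine Or.inr (Or.inr ?_)
    simp only [dot, hy] at h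
    have h1 : 0 ≤ sin σ := sin_nonneg_of_nonneg_of_le_pi hσ.1 hσ.2
    have h2 : v1 * cos σ ≤ |v1| := by
      calc v1 * cos σ ≤ |v1 * cos σ| := le_abs_self _
        _ = |v1| * |cos σ| := abs_mul _ _
        _ ≤ |v1| * 1 := mul_le_mul_of_nonneg_left (abs_cos_le_one σ) (abs_nonneg _)
        _ = |v1| := mul_one _
    have h3 : v2 * sin σ ≤ 0 := mul_nonpos_of_nonpos_of_nonneg hv2 h1
    nlinarith

lemma exists_perp (p1 p3 q1 q3 : ℝ) :
    ∃ n1 n3 : ℝ, n1 ^ 2 + n3 ^ 2 = 1 ∧ n1 * p1 + n3 * p3 = 0 ∧ n1 * q1 + n3 * q3 ≤ 0 := by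
  have : ∃ n1 n3 : ℝ, n1 ^ 2 + n3 ^ 2 = 1 ∧ n1 * p1 + n3 * p3 = 0 := by
    by_cases h0 : p1 ^ 2 + p3 ^ 2 = 0
    · have h1 : p1 = 0 := by nlinarith
      exact ⟨1, 0, by norm_num, by simp [h1]⟩
    · have hpos : 0 < p1 ^ 2 + p3 ^ 2 := lt_of_le_of_ne (by positivity) (Ne.symm h0)
      set s := √(p1 ^ 2 + p3 ^ 2)
      have hs : 0 < s := Real.sqrt_pos.2 hpos
      have hs2 : s ^ 2 = p1 ^ 2 + p3 ^ 2 := Real.sq_sqrt hpos.le
      refine ⟨p3 / s, -p1 / s, ?_, ?_⟩
      · field_simp; linarith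
      · field_simp; ring
  obtain ⟨n1, n3, h1, h2⟩ := this
  rcases le_total (n1 * q1 + n3 * q3) 0 with h | h
  · exact ⟨n1, n3, h1, h2, h⟩
  · exact ⟨-n1, -n3, by linarith, by linarith, by linarith⟩

lemma sphere_planar {r a b d : ℝ} (hr : 0 < r) {p q : V3} (hcov : Cov r 0 a b d p q (Icc 0 π))
    (h : ∀ t, dot (hy r 0 a b d t) (hy r 0 a b d t) = 1) : False := by
  have k0 := h 0
  have k1 := h π
  have k2 := h (π / 2)
  have k3 := h (-(π / 2))
  simp only [dot, hy, cos_zero, sin_zero, cos_pi, sin_pi, cos_pi_div_two, sin_pi_div_two, cos_neg,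
    sin_neg] at k0 k1 k2 k3
  have e1 : r * a = 0 := by linear_combination (k1 - k0) / 4
  have e2 : r * b = 0 := by linear_combination (k3 - k2) / 4
  have f1 := (mul_eq_zero.1 e1).resolve_left hr.ne'
  have f2 := (mul_eq_zero.1 e2).resolve_left hr.ne'
  subst f1 f2
  have hrd : r ^ 2 + d ^ 2 = 1 := by linear_combination k0
  obtain ⟨n1, n3, h1, h2, h3⟩ := exists_perp p.1 p.2.2 q.1 q.2.2
  have e1 := small_eps (A := 0) (B := -p.2.1) zero_le_one (fun h => absurd h zero_ne_one)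
  have e2 := small_eps (A := 0) (B := -q.2.1) zero_le_one (fun h => absurd h zero_ne_one)
  obtain ⟨ε, ⟨a1, a2⟩, a3⟩ := ((e1.and e2).and self_mem_nhdsWithin).exists
  have a3' : 0 < ε := a3
  rcases hemi hr hcov n1 (-ε) n3 1 (by linarith) zero_le_one (by nlinarith) with h4 | h4 | h4
  · linarith
  · linarith
  · have h5 : |n1| ^ 2 = n1 ^ 2 := sq_abs n1
    nlinarith [sq_nonneg (r - |n1|), sq_nonneg (d + n3)]

lemma lim_eps {A B C : ℝ} (h : ∀ ε > 0, A ≤ B + ε * C) : A ≤ B := by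
  by_contra hcon
  push Not at hcon
  have hc : Continuous fun ε : ℝ => B + ε * C := by fun_prop
  have := hc.tendsto 0
  simp only [zero_mul, add_zero] at this
  have h2 : ∀ᶠ ε in 𝓝[>] (0 : ℝ), B + ε * C < A :=
    (this.eventually (gt_mem_nhds hcon)).filter_mono nhdsWithin_le_nhds
  obtain ⟨ε, h3, h4⟩ := (h2.and self_mem_nhdsWithin).exists
  linarith [h ε h4]

lemma final_ineq {m d s e : ℝ} (hm : 1 < m) (hd : 1 < d) (hs : 0 < s) (he : 0 < e)
    (hs2 : s ^ 2 = m ^ 2 - 1) (he2 : e ^ 2 = d ^ 2 - 1) :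
    25 / 2 ≤ (m + d) * ((m + 2) / s + d / e) := by
  set X := (m + 2) / s with hX
  set Y := d / e with hY
  have hXpos : 0 < X := by rw [hX]; positivity
  have hYpos : 0 < Y := by rw [hY]; positivity
  have h1 : 9 / 2 ≤ m * X := by
    rw [hX, ← mul_div_assoc, le_div_iff₀ hs]
    have : (9 / 2 * s) ^ 2 ≤ (m * (m + 2)) ^ 2 := by
      rw [mul_pow, hs2]
      nlinarith [sq_nonneg (m ^ 2 - 49 / 16), mul_nonneg (by linarith : (0:ℝ) ≤ m) (sq_nonneg (m - 7 / 4)),
        sq_nonneg (m - 7 / 4)]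
    exact le_of_sq_le_sq this (by nlinarith) 
  have h2 : 2 ≤ d * Y := by
    rw [hY, ← mul_div_assoc, le_div_iff₀ he]
    nlinarith [sq_nonneg (e - 1)]
  have h3 : 9 ≤ (d * X) * (m * Y) := by nlinarith
  have h4 : 6 ≤ d * X + m * Y := by
    have hp1 : 0 < d * X := by positivity
    have hp2 : 0 < m * Y := by positivity
    nlinarith [sq_nonneg (d * X - m * Y)]
  nlinarith

lemma cone_bound {r d m z1 z2 z3 : ℝ} (hr : 0 < r) (hm : 1 < m)
    (hP : (m + d) ^ 2 = r ^ 2 * (m ^ 2 - 1)) (hdm : -d * m ≤ 1)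
    (H : ∀ v1 v2 v3 M : ℝ, v2 ≤ 0 → 0 ≤ M → M ^ 2 < v1 ^ 2 + v2 ^ 2 + v3 ^ 2 →
      M < v3 * m ∨ M < v1 * z1 + v2 * z2 + v3 * z3 ∨ M < r * |v1| - v3 * d)
    {L1 L2 : ℝ} (hL1 : 0 ≤ L1) (hL1' : L1 ^ 2 = r ^ 2 + (m + d) ^ 2) (hL2 : 0 ≤ L2)
    (hL2' : z2 ^ 2 + (z3 + d) ^ 2 ≤ L2 ^ 2) : 25 / 2 ≤ L1 + 2 * r + L2 := by
  have hm2 : 0 < m ^ 2 - 1 := by nlinarith
  set s := √(m ^ 2 - 1) with hsdef
  have hs : 0 < s := Real.sqrt_pos.2 hm2
  have hs2 : s ^ 2 = m ^ 2 - 1 := Real.sq_sqrt hm2.le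
  have hPpos : 0 < m + d := by
    by_contra hcon
    push Not at hcon
    nlinarith
  have hPrs : m + d = r * s := by
    apply (pow_left_inj₀ hPpos.le (by positivity) two_ne_zero).1
    rw [hP, mul_pow, hs2]
  have hL1e : L1 = r * m := by
    apply (pow_left_inj₀ hL1 (by positivity) two_ne_zero).1
    rw [hL1', hP]; ring
  have hA1 : m ≤ s * z1 + z3 := by
    apply lim_eps (C := -z2)
    intro ε hε
    rcases H s (-ε) 1 m (by linarith) (by linarith) (by nlinarith) with h | h | h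
    · linarith
    · linarith
    · rw [abs_of_pos hs] at h; linarith
  have hA2 : m ≤ -s * z1 + z3 := by
    apply lim_eps (C := -z2)
    intro ε hε
    rcases H (-s) (-ε) 1 m (by linarith) (by linarith) (by nlinarith) with h | h | h
    · linarith
    · linarith
    · rw [abs_neg, abs_of_pos hs] at h; linarith
  have hz3 : m ≤ z3 := by linarith
  have hd : 1 < d := by
    by_contra hcon
    push Not at hcon
    have : 1 ≤ -z3 := by
      apply lim_eps (C := -z2)
      intro ε hε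
      rcases H 0 (-ε) (-1) 1 (by linarith) zero_le_one (by nlinarith) with h | h | h
      · linarith
      · linarith
      · simp at h; linarith
    linarith
  have hd2 : 0 < d ^ 2 - 1 := by nlinarith
  set e := √(d ^ 2 - 1) with hedef
  have he : 0 < e := Real.sqrt_pos.2 hd2
  have he2 : e ^ 2 = d ^ 2 - 1 := Real.sq_sqrt hd2.le
  have hC : d ≤ -e * z2 - z3 := by
    apply lim_eps (C := -z2)
    intro ε hε
    rcases H 0 (-(e + ε)) (-1) d (by linarith) (by linarith) (by nlinarith) with h | h | h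
    · linarith
    · linarith
    · simp at h
  have hL2e : (m + d) * d ≤ L2 * e := by
    apply le_of_sq_le_sq _ (by positivity)
    have t1 : (m + d) ^ 2 ≤ (z3 + d) ^ 2 := by nlinarith
    have t2 : (z3 + d) ^ 2 ≤ (e * z2) ^ 2 := by nlinarith
    have t3 : (z2 ^ 2 + (z3 + d) ^ 2) * e ^ 2 ≤ L2 ^ 2 * e ^ 2 :=
      mul_le_mul_of_nonneg_right hL2' (sq_nonneg e)
    have t4 : (m + d) ^ 2 * e ^ 2 ≤ (z3 + d) ^ 2 * e ^ 2 :=
      mul_le_mul_of_nonneg_right t1 (sq_nonneg e)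
    have t5 : ((m + d) * d) ^ 2 = (m + d) ^ 2 + (m + d) ^ 2 * e ^ 2 := by rw [he2]; ring
    nlinarith
  have hfin := final_ineq hm hd hs he hs2 he2
  have e1 : (m + d) * ((m + 2) / s) = r * (m + 2) := by rw [hPrs]; field_simp
  have e2 : (m + d) * (d / e) ≤ L2 := by
    rw [← mul_div_assoc, div_le_iff₀ he]; exact hL2e
  rw [mul_add, e1] at hfin
  rw [hL1e]; linarith

lemma cone_planar {r a b d : ℝ} (hr : 0 < r) {x : V3} (hx : dot x x ≠ 1)
    (h : ∀ t, ConeEq x (hy r 0 a b d t)) :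
    a = 0 ∧ b = 0 ∧ x.1 = 0 ∧ x.2.1 = 0 ∧ (x.2.2 + d) ^ 2 = r ^ 2 * (x.2.2 ^ 2 - 1) := by
  obtain ⟨x1, x2, x3⟩ := x
  have k0 := h 0
  have k1 := h π
  have k2 := h (π / 2)
  have k3 := h (-(π / 2))
  have k4 := h (π / 4)
  have k5 := h (π / 4 + π)
  have hh : (√2 / 2) ^ 2 = 1 / 2 := by
    rw [div_pow, Real.sq_sqrt (by norm_num)]; norm_num
  simp only [ConeEq, dot, hy, cos_zero, sin_zero, cos_pi, sin_pi, cos_pi_div_two, sin_pi_div_two,
    cos_neg, sin_neg, cos_add_pi, sin_add_pi, cos_pi_div_four, sin_pi_div_four]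
    at k0 k1 k2 k3 k4 k5 hx
  set g := √2 / 2
  have hr2 : r ^ 2 ≠ 0 := pow_ne_zero 2 hr.ne'
  have e1 : r ^ 2 * (x1 ^ 2 - x2 ^ 2) = 0 := by linear_combination (k0 + k1 - k2 - k3) / 2
  have e2 : r ^ 2 * (2 * x1 * x2) = 0 := by
    linear_combination (k4 + k5 - k0 - k1) + e1
      - (2 * r ^ 2 * (x1 + x2) ^ 2 - 4 * r ^ 2 * (x1 * x1 + x2 * x2 + x3 * x3 - 1)) * hh
  have f1 := (mul_eq_zero.1 e1).resolve_left hr2
  have f2 := (mul_eq_zero.1 e2).resolve_left hr2
  have hx1 : x1 = 0 := by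
    have : x1 ^ 4 = 0 := by
      have : x1 ^ 4 = x1 ^ 2 * (x1 ^ 2 - x2 ^ 2) + (2 * x1 * x2) ^ 2 / 4 := by ring
      rw [this, f1, f2]; ring
    exact pow_eq_zero_iff (by norm_num) |>.1 this
  have hx2 : x2 = 0 := by
    rw [hx1] at f1
    have : x2 ^ 2 = 0 := by linarith
    exact pow_eq_zero_iff (by norm_num) |>.1 this
  subst hx1 hx2
  have hk : x3 * x3 - 1 ≠ 0 := by intro h0; apply hx; linarith
  have g1 : r * (a * (x3 * x3 - 1)) = 0 := by linear_combination (k0 - k1) / 4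
  have g2 : r * (b * (x3 * x3 - 1)) = 0 := by linear_combination (k2 - k3) / 4
  have ha := (mul_eq_zero.1 ((mul_eq_zero.1 g1).resolve_left hr.ne')).resolve_right hk
  have hb := (mul_eq_zero.1 ((mul_eq_zero.1 g2).resolve_left hr.ne')).resolve_right hk
  subst ha hb
  refine ⟨rfl, rfl, rfl, rfl, ?_⟩
  simp only
  linear_combination k0

lemma cone_bound' {r d m z1 z2 z3 : ℝ} (hr : 0 < r) (hm : m * m ≠ 1)
    (hP : (m + d) ^ 2 = r ^ 2 * (m ^ 2 - 1)) (hdm : -d * m ≤ 1)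
    (H : ∀ v1 v2 v3 M : ℝ, v2 ≤ 0 → 0 ≤ M → M ^ 2 < v1 ^ 2 + v2 ^ 2 + v3 ^ 2 →
      M < v3 * m ∨ M < v1 * z1 + v2 * z2 + v3 * z3 ∨ M < r * |v1| - v3 * d)
    {L1 L2 : ℝ} (hL1 : 0 ≤ L1) (hL1' : L1 ^ 2 = r ^ 2 + (m + d) ^ 2) (hL2 : 0 ≤ L2)
    (hL2' : z2 ^ 2 + (z3 + d) ^ 2 ≤ L2 ^ 2) : 25 / 2 ≤ L1 + 2 * r + L2 := by
  have h0 : 0 ≤ m ^ 2 - 1 := by
    by_contra hcon
    push Not at hcon
    have : r ^ 2 * (m ^ 2 - 1) < 0 := mul_neg_of_pos_of_neg (by positivity) hcon
    nlinarith [sq_nonneg (m + d)]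
  have h1 : 0 < m ^ 2 - 1 := lt_of_le_of_ne h0 (by intro h; apply hm; linarith)
  rcases le_total 0 m with hm0 | hm0
  · exact cone_bound hr (by nlinarith) hP hdm H hL1 hL1' hL2 hL2'
  · refine cone_bound (d := -d) (m := -m) (z1 := z1) (z2 := z2) (z3 := -z3) hr (by nlinarith)
      (by linear_combination hP) (by linarith) ?_ hL1 (by linear_combination hL1') hL2
      (by nlinarith)
    intro v1 v2 v3 M h2 h3 h4
    rcases H v1 v2 (-v3) M h2 h3 (by linarith) with h | h | h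
    · left; linarith
    · right; left; linarith
    · right; right; linarith

/-- squared distance -/
def dsq (x y : V3) : ℝ := (x.1 - y.1) ^ 2 + (x.2.1 - y.2.1) ^ 2 + (x.2.2 - y.2.2) ^ 2

theorem core {r c a b d : ℝ} (hr : 0 < r) {p q : V3}
    (hcov : Cov r c a b d p q (Icc 0 π))
    (hess : ∀ t1 t2, 0 ≤ t1 → t1 < t2 → t2 ≤ π → ¬ Cov r c a b d p q (Icc 0 t1 ∪ Icc t2 π))
    {L1 L2 L3 : ℝ} (h1 : 0 ≤ L1) (h2 : 0 ≤ L2) (h3 : 0 ≤ L3)
    (e1 : L1 ^ 2 = dsq p (hy r c a b d 0)) (e2 : L2 ^ 2 = dsq (hy r c a b d 0) (hy r c a b d π))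
    (e3 : L3 ^ 2 = dsq (hy r c a b d π) q) : 25 / 2 ≤ L1 + L2 + L3 := by
  by_cases hc : c = 0
  swap
  · exfalso
    rcases quadric_dichotomy hr hcov hess with h | ⟨x, -, hx, -, h⟩
    · exact sphere_nonplanar hc h
    · exact cone_nonplanar hr hc hx h
  subst hc
  rcases quadric_dichotomy hr hcov hess with h | ⟨x, hxx, hx, ⟨t, ht⟩, h⟩
  · exact (sphere_planar hr hcov h).elim
  obtain ⟨ha, hb, hx1, hx2, hP⟩ := cone_planar hr hx h
  subst ha hb
  have hL2 : L2 = 2 * r := by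
    apply (pow_left_inj₀ h2 (by positivity) two_ne_zero).1
    rw [e2]; simp only [dsq, hy, cos_zero, sin_zero, cos_pi, sin_pi]; ring
  simp only [dsq, hy, cos_zero, sin_zero, cos_pi, sin_pi] at e1 e3
  have hm : x.2.2 * x.2.2 ≠ 1 := by
    intro h0; apply hx; simp only [dot, hx1, hx2]; linarith
  have hdm : -d * x.2.2 ≤ 1 := by
    simp only [dot, hy, hx1, hx2] at ht; linarith
  rcases hxx with rfl | rfl | rfl | rfl
  · simp [hy] at hx1; exact absurd hx1 hr.ne'
  · simp [hy] at hx1; exact absurd hx1 hr.ne'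
  · have := cone_bound' (z1 := q.1) (z2 := q.2.1) (z3 := q.2.2) hr hm hP hdm
      (fun v1 v2 v3 M k1 k2 k3 => by
        have := hemi hr hcov v1 v2 v3 M k1 k2 k3
        simpa [hx1, hx2] using this)
      h1 (by rw [e1, hx1, hx2]; ring) h3 (by rw [e3]; nlinarith [sq_nonneg (r * -1 - 0 - q.1)])
    linarith
  · have := cone_bound' (z1 := p.1) (z2 := p.2.1) (z3 := p.2.2) hr hm hP hdm
      (fun v1 v2 v3 M k1 k2 k3 => by
        have := hemi hr hcov v1 v2 v3 M k1 k2 k3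
        rw [hx1, hx2] at this
        rcases this with h | h | h
        · exact Or.inr (Or.inl h)
        · left; linarith
        · exact Or.inr (Or.inr h))
      h3 (by rw [e3, hx1, hx2]; ring) h1 (by rw [e1]; nlinarith [sq_nonneg (p.1 - (r * 1 - 0))])
    linarith

end Pool.Agent.MP_861c96_gt

end

-- part MP_861c96_gt.Curve
section

/-! Curves: admissibility through support functions, cutting a sub-arc, the octahedron path. -/

namespace Pool.Agent.MP_861c96_gt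

open Set Filter Topology Real
open scoped RealInnerProductSpace

abbrev E3 := EuclideanSpace ℝ (Fin 3)

lemma cover_of_planes {γ : ℝ → E3}
    (h : ∀ H : AffineSubspace ℝ E3, Module.finrank ℝ H.direction = 2 →
      (∃ x ∈ H, x ∈ Metric.closedBall (0 : E3) 1) → ∃ s ∈ Icc (0 : ℝ) 1, γ s ∈ H)
    (U : E3) (hU : ‖U‖ = 1) : ∃ s ∈ Icc (0 : ℝ) 1, 1 ≤ ⟪U, γ s⟫ := by
  have hU0 : U ≠ 0 := by intro h0; rw [h0, norm_zero] at hU; exact zero_ne_one hU
  have : Fact (Module.finrank ℝ E3 = 2 + 1) := ⟨by simp⟩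
  obtain ⟨s, hs, hmem⟩ := h (AffineSubspace.mk' U (ℝ ∙ U)ᗮ)
    (by rw [AffineSubspace.direction_mk']; exact Submodule.finrank_orthogonal_span_singleton hU0)
    ⟨U, AffineSubspace.self_mem_mk' _ _, by simp [hU]⟩
  refine ⟨s, hs, ?_⟩
  rw [AffineSubspace.mem_mk', Submodule.mem_orthogonal_singleton_iff_inner_right] at hmem
  rw [vsub_eq_sub, inner_sub_right, real_inner_self_eq_norm_sq, hU] at hmem
  linarith

lemma planes_of_cover {γ : ℝ → E3} (hc : ContinuousOn γ (Icc 0 1))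
    (h : ∀ U : E3, ‖U‖ = 1 → ∃ s ∈ Icc (0 : ℝ) 1, 1 ≤ ⟪U, γ s⟫)
    (H : AffineSubspace ℝ E3) (hH : Module.finrank ℝ H.direction = 2)
    (hx : ∃ x ∈ H, x ∈ Metric.closedBall (0 : E3) 1) : ∃ s ∈ Icc (0 : ℝ) 1, γ s ∈ H := by
  obtain ⟨x, hxH, hx1⟩ := hx
  have h1 : Module.finrank ℝ H.directionᗮ = 1 := by
    have := Submodule.finrank_add_finrank_orthogonal H.direction
    rw [hH, finrank_euclideanSpace_fin] at this
    omega
  have hne : H.directionᗮ ≠ ⊥ := by
    intro h0; rw [h0, finrank_bot] at h1; exact zero_ne_one h1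
  obtain ⟨n, hn, hn0⟩ := Submodule.exists_mem_ne_zero_of_ne_bot hne
  set U : E3 := ‖n‖⁻¹ • n with hUdef
  have hU : ‖U‖ = 1 := norm_smul_inv_norm hn0
  have hU0 : U ≠ 0 := by intro h0; rw [h0, norm_zero] at hU; exact zero_ne_one hU
  have hUm : U ∈ H.directionᗮ := Submodule.smul_mem _ _ hn
  have hspan : H.directionᗮ = ℝ ∙ U := by
    symm
    apply Submodule.eq_of_le_of_finrank_eq
    · exact (Submodule.span_singleton_le_iff_mem _ _).2 hUm
    · rw [h1, finrank_span_singleton hU0]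
  have hdir : H.direction = (ℝ ∙ U)ᗮ := by
    rw [← hspan, Submodule.orthogonal_orthogonal]
  have hx2 : |⟪U, x⟫| ≤ 1 := by
    have := abs_real_inner_le_norm U x
    rw [hU, one_mul] at this
    exact this.trans (by simpa using hx1)
  obtain ⟨s1, hs1, k1⟩ := h U hU
  obtain ⟨s2, hs2, k2⟩ := h (-U) (by rw [norm_neg, hU])
  rw [inner_neg_left] at k2
  have hcont : ContinuousOn (fun s => ⟪U, γ s⟫) (Icc 0 1) := ContinuousOn.inner continuousOn_const hc
  have hsub := isPreconnected_Icc.intermediate_value hs2 hs1 hcont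
  obtain ⟨s, hs, hs'⟩ := hsub (a := ⟪U, x⟫) ⟨by linarith [(abs_le.1 hx2).1], by linarith [(abs_le.1 hx2).2]⟩
  refine ⟨s, hs, ?_⟩
  rw [← AffineSubspace.vsub_right_mem_direction_iff_mem hxH, hdir,
    Submodule.mem_orthogonal_singleton_iff_inner_right, vsub_eq_sub, inner_sub_right]
  simp only at hs'
  linarith

lemma evar_le_of_mono {γ : ℝ → E3} {φ : ℝ → ℝ} {a b : ℝ} (hab : a ≤ b) (hφ : Monotone φ)
    (h : ∀ s ∈ Icc a b, ∀ t ∈ Icc a b, s ≤ t → dist (γ t) (γ s) ≤ φ t - φ s) :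
    eVariationOn γ (Icc a b) ≤ ENNReal.ofReal (φ b - φ a) := by
  have h1 : eVariationOn γ (Icc a b) ≤ eVariationOn φ (Icc a b) := by
    unfold eVariationOn
    refine iSup_mono fun p => Finset.sum_le_sum fun i _ => ?_
    obtain ⟨n, u, hu, hus⟩ := p
    simp only
    rw [edist_dist, edist_dist]
    apply ENNReal.ofReal_le_ofReal
    refine (h _ (hus i) _ (hus (i + 1)) (hu (Nat.le_succ i))).trans ?_
    rw [Real.dist_eq]; exact le_abs_self _
  refine h1.trans ?_
  have := ((hφ.monotoneOn univ).eVariationOn_eq (mem_univ a) (mem_univ b)).le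
  rwa [univ_inter] at this

noncomputable def clamp (x : ℝ) : ℝ := max 0 (min 1 x)

lemma clamp_mono : Monotone clamp := fun _ _ h => max_le_max le_rfl (min_le_min le_rfl h)
lemma clamp_of_le {x : ℝ} (h : x ≤ 0) : clamp x = 0 := by
  unfold clamp; exact max_eq_left ((min_le_right _ _).trans h)
lemma clamp_of_ge {x : ℝ} (h : 1 ≤ x) : clamp x = 1 := by
  unfold clamp; rw [min_eq_left h]; exact max_eq_right zero_le_one
lemma clamp_cont : Continuous clamp := by unfold clamp; fun_prop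

lemma evar_split (γ : ℝ → E3) {a b c : ℝ} (hab : a ≤ b) (hbc : b ≤ c) :
    eVariationOn γ (Icc a c) = eVariationOn γ (Icc a b) + eVariationOn γ (Icc b c) := by
  have := eVariationOn.Icc_add_Icc γ (s := univ) hab hbc (mem_univ b)
  simpa using this.symm

/-- replacing the part between two times by a chord -/
lemma cut_curve {γ : ℝ → E3} (hc : ContinuousOn γ (Icc 0 1)) (hfin : curveLength γ ≠ ⊤)
    {s1 sm s2 : ℝ} (h0 : 0 ≤ s1) (h1 : s1 ≤ sm) (h2 : sm ≤ s2) (h3 : s2 ≤ 1)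
    (hlt : dist (γ s1) (γ s2) < dist (γ s1) (γ sm) + dist (γ sm) (γ s2)) :
    ∃ γ' : ℝ → E3, ContinuousOn γ' (Icc 0 1) ∧ curveLength γ' < curveLength γ ∧
      (∀ s ∈ Icc 0 s1, γ' s = γ s) ∧ (∀ s ∈ Icc s2 1, γ' s = γ s) := by
  have h12 : s1 < s2 := by
    refine lt_of_le_of_ne (h1.trans h2) fun heq => ?_
    have : sm = s1 := le_antisymm (heq ▸ h2) h1
    rw [this, ← heq] at hlt
    simp at hlt
  have hpos : 0 < s2 - s1 := by linarith
  set γ' : ℝ → E3 := fun s => γ (min s s1) + clamp ((s - s1) / (s2 - s1)) • (γ s2 - γ s1) +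
    (γ (max s s2) - γ s2) with hγ'
  have e1 : ∀ s ∈ Icc 0 s1, γ' s = γ s := by
    intro s hs
    simp only [hγ']
    rw [min_eq_left hs.2, max_eq_right (hs.2.trans h12.le),
      clamp_of_le (div_nonpos_of_nonpos_of_nonneg (by linarith [hs.2]) hpos.le)]
    simp
  have e2 : ∀ s ∈ Icc s2 1, γ' s = γ s := by
    intro s hs
    simp only [hγ']
    rw [min_eq_right (h12.le.trans hs.1), max_eq_left hs.1,
      clamp_of_ge ((one_le_div hpos).2 (by linarith [hs.1]))]
    simp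
  refine ⟨γ', ?_, ?_, e1, e2⟩
  · have c1 : ContinuousOn (fun s => γ (min s s1)) (Icc 0 1) :=
      hc.comp (by fun_prop) fun s hs => ⟨le_min hs.1 h0, (min_le_left _ _).trans hs.2⟩
    have c2 : ContinuousOn (fun s => γ (max s s2)) (Icc 0 1) :=
      hc.comp (by fun_prop) fun s hs => ⟨hs.1.trans (le_max_left _ _), max_le hs.2 h3⟩
    have c3 : Continuous fun s : ℝ => clamp ((s - s1) / (s2 - s1)) • (γ s2 - γ s1) :=
      (clamp_cont.comp (by fun_prop)).smul continuous_const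
    exact (c1.add c3.continuousOn).add (c2.sub continuousOn_const)
  · unfold curveLength at hfin ⊢
    rw [evar_split γ h0 (h12.le.trans h3), evar_split γ h12.le h3] at hfin ⊢
    rw [evar_split γ' h0 (h12.le.trans h3), evar_split γ' h12.le h3,
      eVariationOn.congr (f := γ') (g := γ) e1, eVariationOn.congr (f := γ') (g := γ) e2]
    have f1 : eVariationOn γ (Icc 0 s1) ≠ ⊤ := fun h => hfin (by simp [h])
    have f2 : eVariationOn γ (Icc s2 1) ≠ ⊤ := fun h => hfin (by simp [h])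
    refine ENNReal.add_lt_add_left f1 (ENNReal.add_lt_add_right f2 ?_)
    have u1 : eVariationOn γ' (Icc s1 s2) ≤ ENNReal.ofReal (dist (γ s1) (γ s2)) := by
      have := evar_le_of_mono (γ := γ')
        (φ := fun s => clamp ((s - s1) / (s2 - s1)) * dist (γ s1) (γ s2)) h12.le
        (fun s t hst => mul_le_mul_of_nonneg_right
          (clamp_mono (div_le_div_of_nonneg_right (by linarith) hpos.le)) dist_nonneg)
        (fun s hs t ht hst => by
          simp only [hγ']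
          rw [min_eq_right hs.1, min_eq_right ht.1, max_eq_right hs.2, max_eq_right ht.2,
            dist_eq_norm]
          have hm : clamp ((s - s1) / (s2 - s1)) ≤ clamp ((t - s1) / (s2 - s1)) :=
            clamp_mono (div_le_div_of_nonneg_right (by linarith) hpos.le)
          have : γ s1 + clamp ((t - s1) / (s2 - s1)) • (γ s2 - γ s1) + (γ s2 - γ s2) -
              (γ s1 + clamp ((s - s1) / (s2 - s1)) • (γ s2 - γ s1) + (γ s2 - γ s2)) =
              (clamp ((t - s1) / (s2 - s1)) - clamp ((s - s1) / (s2 - s1))) • (γ s2 - γ s1) := by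
            rw [sub_smul]; abel
          rw [this, norm_smul, Real.norm_eq_abs, abs_of_nonneg (by linarith), dist_comm,
            dist_eq_norm]
          linarith)
      simp only [sub_self, zero_div] at this
      rw [div_self hpos.ne', clamp_of_ge le_rfl, clamp_of_le le_rfl] at this
      simpa using this
    have u2 : ENNReal.ofReal (dist (γ s1) (γ sm) + dist (γ sm) (γ s2)) ≤
        eVariationOn γ (Icc s1 s2) := by
      rw [evar_split γ h1 h2, ENNReal.ofReal_add dist_nonneg dist_nonneg, ← edist_dist, ← edist_dist]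
      exact add_le_add (eVariationOn.edist_le γ ⟨le_rfl, h1⟩ ⟨h1, le_rfl⟩)
        (eVariationOn.edist_le γ ⟨le_rfl, h2⟩ ⟨h2, le_rfl⟩)
    refine u1.trans_lt (lt_of_lt_of_le ?_ u2)
    exact (ENNReal.ofReal_lt_ofReal_iff (lt_of_le_of_lt dist_nonneg hlt)).2 hlt

lemma inner3 (x y : E3) : ⟪x, y⟫ = x 0 * y 0 + x 1 * y 1 + x 2 * y 2 := by
  simp [PiLp.inner_apply, Fin.sum_univ_three]; ring

lemma norm3_le {x y z M : ℝ} (hM : 0 ≤ M) (h : x ^ 2 + y ^ 2 + z ^ 2 ≤ M ^ 2) :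
    ‖(!₂[x, y, z] : E3)‖ ≤ M := by
  rw [EuclideanSpace.norm_eq]
  apply Real.sqrt_le_iff.2 ⟨hM, ?_⟩
  simpa [Fin.sum_univ_three] using h

/-- a path through the six vertices of an octahedron that contains the unit ball -/
noncomputable def octa (s : ℝ) : E3 :=
  !₂[7 / 4, 0, 0] + clamp (5 * s) • !₂[-7 / 4, 7 / 4, 0] + clamp (5 * s - 1) • !₂[0, -7 / 4, 7 / 4]
    + clamp (5 * s - 2) • !₂[-7 / 4, 0, -7 / 4] + clamp (5 * s - 3) • !₂[7 / 4, -7 / 4, 0]
    + clamp (5 * s - 4) • !₂[0, 7 / 4, -7 / 4]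

lemma octa_cont : Continuous octa := by
  have := clamp_cont
  unfold octa; fun_prop

lemma octa_length : curveLength octa ≤ ENNReal.ofReal (62 / 5) := by
  have := evar_le_of_mono (γ := octa) (φ := fun s => (clamp (5 * s) + clamp (5 * s - 1) +
    clamp (5 * s - 2) + clamp (5 * s - 3) + clamp (5 * s - 4)) * (62 / 25)) zero_le_one
    (fun s t hst => by
      have m0 := clamp_mono (show 5 * s ≤ 5 * t by linarith)
      have m1 := clamp_mono (show 5 * s - 1 ≤ 5 * t - 1 by linarith)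
      have m2 := clamp_mono (show 5 * s - 2 ≤ 5 * t - 2 by linarith)
      have m3 := clamp_mono (show 5 * s - 3 ≤ 5 * t - 3 by linarith)
      have m4 := clamp_mono (show 5 * s - 4 ≤ 5 * t - 4 by linarith)
      simp only; linarith)
    (fun s _ t _ hst => by
      have m0 := clamp_mono (show 5 * s ≤ 5 * t by linarith)
      have m1 := clamp_mono (show 5 * s - 1 ≤ 5 * t - 1 by linarith)
      have m2 := clamp_mono (show 5 * s - 2 ≤ 5 * t - 2 by linarith)
      have m3 := clamp_mono (show 5 * s - 3 ≤ 5 * t - 3 by linarith)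
      have m4 := clamp_mono (show 5 * s - 4 ≤ 5 * t - 4 by linarith)
      have hn : ∀ (l : ℝ) (v : E3), 0 ≤ l → ‖v‖ ≤ 62 / 25 → ‖l • v‖ ≤ l * (62 / 25) := by
        intro l v hl hv
        rw [norm_smul, Real.norm_eq_abs, abs_of_nonneg hl]
        exact mul_le_mul_of_nonneg_left hv hl
      have heq : octa t - octa s =
          (clamp (5 * t) - clamp (5 * s)) • (!₂[-7 / 4, 7 / 4, 0] : E3)
          + (clamp (5 * t - 1) - clamp (5 * s - 1)) • (!₂[0, -7 / 4, 7 / 4] : E3)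
          + (clamp (5 * t - 2) - clamp (5 * s - 2)) • (!₂[-7 / 4, 0, -7 / 4] : E3)
          + (clamp (5 * t - 3) - clamp (5 * s - 3)) • (!₂[7 / 4, -7 / 4, 0] : E3)
          + (clamp (5 * t - 4) - clamp (5 * s - 4)) • (!₂[0, 7 / 4, -7 / 4] : E3) := by
        unfold octa; simp only [sub_smul]; abel
      rw [dist_eq_norm, heq]
      have n0 := hn _ (!₂[-7 / 4, 7 / 4, 0] : E3) (sub_nonneg.2 m0) (norm3_le (by norm_num) (by norm_num))
      have n1 := hn _ (!₂[0, -7 / 4, 7 / 4] : E3) (sub_nonneg.2 m1) (norm3_le (by norm_num) (by norm_num))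
      have n2 := hn _ (!₂[-7 / 4, 0, -7 / 4] : E3) (sub_nonneg.2 m2) (norm3_le (by norm_num) (by norm_num))
      have n3 := hn _ (!₂[7 / 4, -7 / 4, 0] : E3) (sub_nonneg.2 m3) (norm3_le (by norm_num) (by norm_num))
      have n4 := hn _ (!₂[0, 7 / 4, -7 / 4] : E3) (sub_nonneg.2 m4) (norm3_le (by norm_num) (by norm_num))
      refine (norm_add_le _ _).trans ?_
      refine (add_le_add_left ((norm_add_le _ _).trans (add_le_add_left ((norm_add_le _ _).trans
        (add_le_add_left (norm_add_le _ _) _)) _)) _).trans ?_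
      linarith)
  rw [clamp_of_ge (by norm_num), clamp_of_ge (by norm_num), clamp_of_ge (by norm_num),
    clamp_of_ge (by norm_num), clamp_of_ge (by norm_num), clamp_of_le (by norm_num),
    clamp_of_le (by norm_num), clamp_of_le (by norm_num), clamp_of_le (by norm_num),
    clamp_of_le (by norm_num)] at this
  unfold curveLength
  refine this.trans (le_of_eq ?_)
  norm_num

lemma octa_admissible : Admissible octa := by
  refine ⟨octa_cont.continuousOn, ne_top_of_le_ne_top ENNReal.ofReal_ne_top octa_length,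
    planes_of_cover octa_cont.continuousOn fun U hU => ?_⟩
  have hsq : U 0 ^ 2 + U 1 ^ 2 + U 2 ^ 2 = 1 := by
    have := real_inner_self_eq_norm_sq U
    rw [inner3, hU] at this; linarith
  have val : ∀ s : ℝ, ⟪U, octa s⟫ = U 0 * (7 / 4) * (1 - clamp (5 * s) - clamp (5 * s - 2) +
      clamp (5 * s - 3)) + U 1 * (7 / 4) * (clamp (5 * s) - clamp (5 * s - 1) - clamp (5 * s - 3) +
      clamp (5 * s - 4)) + U 2 * (7 / 4) * (clamp (5 * s - 1) - clamp (5 * s - 2) -
      clamp (5 * s - 4)) := by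
    intro s
    rw [inner3]; simp [octa]; ring
  by_contra hcon
  push Not at hcon
  have v0 := hcon 0 (by norm_num)
  have v1 := hcon (1 / 5) (by norm_num)
  have v2 := hcon (2 / 5) (by norm_num)
  have v3 := hcon (3 / 5) (by norm_num)
  have v4 := hcon (4 / 5) (by norm_num)
  have v5 := hcon 1 (by norm_num)
  rw [val] at v0 v1 v2 v3 v4 v5
  norm_num [clamp] at v0 v1 v2 v3 v4 v5
  nlinarith

end Pool.Agent.MP_861c96_gt

end
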