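import Mathlib

-- part MP_861c96_gt.Support
section

/-! Coordinates and the supporting-plane lemma. -/

namespace Pool.Agent.MP_861c96_gt

open Set Filter Topology Real

abbrev V3 := ℝ × ℝ × ℝ

def dot (x y : V3) : ℝ := x.1 * y.1 + x.2.1 * y.2.1 + x.2.2 * y.2.2

/-- helix point relative to the centre of the ball -/
noncomputable def hy (r c a b d τ : ℝ) : V3 := (r * cos τ - a, r * sin τ - b, c * τ - d)

/-- the points `p`, `q`, `hy τ` (τ in J) reach every tangent plane of the unit ball -/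
def Cov (r c a b d : ℝ) (p q : V3) (J : Set ℝ) : Prop :=
  ∀ u : V3, dot u u = 1 → 1 ≤ dot u p ∨ 1 ≤ dot u q ∨ ∃ τ ∈ J, 1 ≤ dot u (hy r c a b d τ)

lemma Cov.hom {r c a b d : ℝ} {p q : V3} {J : Set ℝ} (h : Cov r c a b d p q J) (v : V3) (M : ℝ)
    (hM : 0 ≤ M) (hv : M ^ 2 < dot v v) :
    M < dot v p ∨ M < dot v q ∨ ∃ τ ∈ J, M < dot v (hy r c a b d τ) := by
  have hpos : 0 < dot v v := lt_of_le_of_lt (sq_nonneg M) hv
  set N := √(dot v v) with hN
  have hNpos : 0 < N := Real.sqrt_pos.2 hpos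
  have hN2 : N ^ 2 = dot v v := Real.sq_sqrt hpos.le
  have hMN : M < N := by
    rw [hN]; exact Real.lt_sqrt_of_sq_lt hv
  have key : ∀ x : V3, 1 ≤ dot (v.1 / N, v.2.1 / N, v.2.2 / N) x → M < dot v x := by
    intro x hx
    have : dot (v.1 / N, v.2.1 / N, v.2.2 / N) x = dot v x / N := by
      simp only [dot]; field_simp
    rw [this, le_div_iff₀ hNpos] at hx
    linarith
  have hu : dot (v.1 / N, v.2.1 / N, v.2.2 / N) (v.1 / N, v.2.1 / N, v.2.2 / N) = 1 := by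
    have : dot (v.1 / N, v.2.1 / N, v.2.2 / N) (v.1 / N, v.2.1 / N, v.2.2 / N)
        = dot v v / N ^ 2 := by
      simp only [dot]; field_simp
    rw [this, hN2]; exact div_self hpos.ne'
  rcases h _ hu with h1 | h1 | ⟨τ, hτ, h1⟩
  · exact Or.inl (key _ h1)
  · exact Or.inr (Or.inl (key _ h1))
  · exact Or.inr (Or.inr ⟨τ, hτ, key _ h1⟩)

lemma limit_lemma {X : Type*} [TopologicalSpace X] [FirstCountableTopology X] {K : Set X}
    (hK : IsCompact K) (z : ℕ → X) (hz : ∀ n, z n ∈ K) :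
    ∃ w ∈ K, ∀ (g : X → ℝ) (e : ℕ → ℝ), Continuous g → Tendsto e atTop (𝓝 0) →
      (∀ᶠ n in atTop, g (z n) ≤ e n) → g w ≤ 0 := by
  obtain ⟨w, hw, φ, hφ, hlim⟩ := hK.tendsto_subseq hz
  refine ⟨w, hw, fun g e hg he hev => ?_⟩
  have h1 : Tendsto (fun n => g (z (φ n))) atTop (𝓝 (g w)) := (hg.tendsto w).comp hlim
  have h2 : Tendsto (fun n => e (φ n)) atTop (𝓝 0) := he.comp hφ.tendsto_atTop
  exact le_of_tendsto_of_tendsto h1 h2 (hφ.tendsto_atTop.eventually hev)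

lemma small_eps {A B : ℝ} (hA : A ≤ 1) (hB : A = 1 → B ≤ 0) :
    ∀ᶠ ε in 𝓝[>] (0 : ℝ), A + ε * B ≤ 1 := by
  rcases hA.lt_or_eq with h | h
  · have : ∀ᶠ ε in 𝓝 (0 : ℝ), A + ε * B < 1 := by
      have hc : Continuous fun ε : ℝ => A + ε * B := by fun_prop
      have := hc.tendsto 0
      simp only [zero_mul, add_zero] at this
      exact this.eventually (gt_mem_nhds h)
    exact (this.filter_mono nhdsWithin_le_nhds).mono fun ε hε => hε.le
  · filter_upwards [self_mem_nhdsWithin] with ε hε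
    have := hB h
    have hε' : 0 < ε := hε
    nlinarith

lemma small_eps_unif {K : Set ℝ} (hK : IsCompact K) {f g : ℝ → ℝ} (hf : Continuous f)
    (hg : Continuous g) (h1 : ∀ x ∈ K, f x ≤ 1) (h2 : ∀ x ∈ K, f x = 1 → g x < 0) :
    ∀ᶠ ε in 𝓝[>] (0 : ℝ), ∀ x ∈ K, f x + ε * g x ≤ 1 := by
  have key : ∀ᶠ ε in 𝓝 (0 : ℝ), ∀ x ∈ K, (x ∈ K → 0 ≤ ε → f x + ε * g x ≤ 1) := by
    apply hK.eventually_forall_of_forall_eventually
    intro y hy
    rcases (h1 y hy).lt_or_eq with h | h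
    · have hc : Continuous fun z : ℝ × ℝ => f z.2 + z.1 * g z.2 := by fun_prop
      have := hc.tendsto (0, y)
      simp only [zero_mul, add_zero] at this
      exact (this.eventually (gt_mem_nhds h)).mono fun z hz _ _ => hz.le
    · have hc : Continuous fun z : ℝ × ℝ => g z.2 := by fun_prop
      have := hc.tendsto (0, y)
      refine (this.eventually (gt_mem_nhds (h2 y hy h))).mono fun z hz hzK hz0 => ?_
      have := h1 _ hzK
      nlinarith
  filter_upwards [key.filter_mono nhdsWithin_le_nhds, self_mem_nhdsWithin] with ε hε hε0 x hx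
  exact hε x hx hx (le_of_lt hε0)

lemma le_of_ne_point {t : ℝ} (ht : t ∈ Ioo 0 π) {f : ℝ → ℝ} (hf : Continuous f) {M : ℝ}
    (h : ∀ σ ∈ Icc 0 π, σ ≠ t → f σ ≤ M) : ∀ σ ∈ Icc 0 π, f σ ≤ M := by
  intro σ hσ
  by_cases hσt : σ = t
  · subst hσt
    have hcl : closure (Ioo 0 σ) ⊆ {x | f x ≤ M} :=
      (isClosed_le hf continuous_const).closure_subset_iff.2 fun x hx =>
        h x ⟨hx.1.le, (hx.2.trans ht.2).le⟩ hx.2.ne
    apply hcl
    rw [closure_Ioo ht.1.ne]
    exact ⟨ht.1.le, le_rfl⟩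
  · exact h σ hσ hσt

/-- polar decomposition of a unit vector around the vertical axis -/
lemma polar (u : V3) (hu : dot u u = 1) : ∃ w1 w2 s : ℝ, w1 ^ 2 + w2 ^ 2 = 1 ∧ 0 ≤ s ∧
    s ^ 2 + u.2.2 ^ 2 = 1 ∧ u.1 = s * w1 ∧ u.2.1 = s * w2 := by
  obtain ⟨u1, u2, u3⟩ := u
  simp only [dot] at hu ⊢
  by_cases h0 : u1 ^ 2 + u2 ^ 2 = 0
  · have h1 : u1 = 0 := by nlinarith
    have h2 : u2 = 0 := by nlinarith
    refine ⟨1, 0, 0, by norm_num, le_rfl, by nlinarith, by simp [h1], by simp [h2]⟩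
  · have hpos : 0 < u1 ^ 2 + u2 ^ 2 := lt_of_le_of_ne (by positivity) (Ne.symm h0)
    set s := √(u1 ^ 2 + u2 ^ 2)
    have hs : 0 < s := Real.sqrt_pos.2 hpos
    have hs2 : s ^ 2 = u1 ^ 2 + u2 ^ 2 := Real.sq_sqrt hpos.le
    refine ⟨u1 / s, u2 / s, s, ?_, hs.le, by nlinarith, by field_simp, by field_simp⟩
    field_simp
    linarith

lemma flat_ineq {s κ d W : ℝ} (hs : 0 ≤ s) (h1 : s ^ 2 + κ ^ 2 = 1) (hd : d ^ 2 = 1)
    (h : s * W - κ * d < 1) : W * (1 - κ * d) ≤ s := by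
  have hkd : (κ * d) ^ 2 = κ ^ 2 := by rw [mul_pow, hd, mul_one]
  have hk1 : κ * d ≤ 1 := by nlinarith [sq_nonneg (κ * d - 1), sq_nonneg s]
  rcases hs.lt_or_eq with hs' | hs'
  · have : s * (W * (1 - κ * d)) ≤ s * s := by nlinarith
    exact le_of_mul_le_mul_left this hs'
  · subst hs'
    have h2 : (κ * d - 1) * (κ * d + 1) = 0 := by nlinarith
    rcases mul_eq_zero.1 h2 with h3 | h3
    · have : 1 - κ * d = 0 := by linarith
      rw [this]; simp
    · exfalso; linarith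

/-- If no sub-arc can be cut off, every interior point of the arc lies on a supporting plane that is
tangent to the ball and is not the plane of a planar arc. -/
theorem exists_support {r c a b d : ℝ} {p q : V3} (hcov : Cov r c a b d p q (Icc 0 π))
    (hess : ∀ t1 t2, 0 ≤ t1 → t1 < t2 → t2 ≤ π → ¬ Cov r c a b d p q (Icc 0 t1 ∪ Icc t2 π))
    {t : ℝ} (ht : t ∈ Ioo 0 π) :
    ∃ u : V3, dot u u = 1 ∧ dot u p ≤ 1 ∧ dot u q ≤ 1 ∧
      (∀ σ ∈ Icc 0 π, dot u (hy r c a b d σ) ≤ 1) ∧ dot u (hy r c a b d t) = 1 ∧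
      ¬ (c = 0 ∧ u.1 = 0 ∧ u.2.1 = 0) := by
  set δ := min t (π - t) with hδ
  have hδpos : 0 < δ := lt_min ht.1 (by linarith [ht.2])
  have hδ1 : δ ≤ t := min_le_left _ _
  have hδ2 : δ ≤ π - t := min_le_right _ _
  set e : ℕ → ℝ := fun n => δ * (1 / ((n : ℝ) + 1)) with he
  have hepos : ∀ n, 0 < e n := fun n => by simp only [he]; positivity
  have hele : ∀ n, e n ≤ δ := fun n => by
    simp only [he]
    have : 1 / ((n : ℝ) + 1) ≤ 1 := by
      rw [div_le_one (by positivity)]; linarith [Nat.cast_nonneg (α := ℝ) n]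
    nlinarith
  have helim : Tendsto e atTop (𝓝 0) := by
    have := tendsto_one_div_add_atTop_nhds_zero_nat (𝕜 := ℝ).const_mul δ
    simpa [he] using this
  have hex : ∀ n : ℕ, ∃ z : ℝ × ℝ × ℝ × ℝ × ℝ,
      z.1 ^ 2 + z.2.1 ^ 2 = 1 ∧ 0 ≤ z.2.2.1 ∧ z.2.2.1 ^ 2 + z.2.2.2.1 ^ 2 = 1 ∧
      t - e n ≤ z.2.2.2.2 ∧ z.2.2.2.2 ≤ t + e n ∧
      dot (z.2.2.1 * z.1, z.2.2.1 * z.2.1, z.2.2.2.1) p < 1 ∧
      dot (z.2.2.1 * z.1, z.2.2.1 * z.2.1, z.2.2.2.1) q < 1 ∧
      (∀ σ ∈ Icc 0 (t - e n) ∪ Icc (t + e n) π,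
        dot (z.2.2.1 * z.1, z.2.2.1 * z.2.1, z.2.2.2.1) (hy r c a b d σ) < 1) ∧
      1 ≤ dot (z.2.2.1 * z.1, z.2.2.1 * z.2.1, z.2.2.2.1) (hy r c a b d z.2.2.2.2) := by
    intro n
    have h := hess (t - e n) (t + e n) (by linarith [hele n]) (by linarith [hepos n])
      (by linarith [hele n])
    unfold Cov at h
    push Not at h
    obtain ⟨u, hu, h1, h2, h3⟩ := h
    obtain ⟨w1, w2, s, hw, hs, hsk, hu1, hu2⟩ := polar u hu
    have hueq : (s * w1, s * w2, u.2.2) = u := by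
      rw [← hu1, ← hu2]
    rcases hcov u hu with h4 | h4 | ⟨τ, hτ, h4⟩
    · linarith
    · linarith
    · refine ⟨(w1, w2, s, u.2.2, τ), hw, hs, hsk, ?_, ?_, ?_, ?_, ?_, ?_⟩
      · by_contra hcon
        push Not at hcon
        have := h3 τ (Or.inl ⟨hτ.1, hcon.le⟩)
        linarith
      · by_contra hcon
        push Not at hcon
        have := h3 τ (Or.inr ⟨hcon.le, hτ.2⟩)
        linarith
      · simpa [hueq] using h1
      · simpa [hueq] using h2
      · simpa [hueq] using h3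
      · simpa [hueq] using h4
  choose z hz using hex
  have hK : IsCompact (Icc ((-1, -1, -1, -1, 0) : ℝ × ℝ × ℝ × ℝ × ℝ) (1, 1, 1, 1, π)) :=
    isCompact_Icc
  have hzK : ∀ n, z n ∈ Icc ((-1, -1, -1, -1, 0) : ℝ × ℝ × ℝ × ℝ × ℝ) (1, 1, 1, 1, π) := by
    intro n
    obtain ⟨h1, h2, h3, h4, h5, -⟩ := hz n
    have := hele n
    refine ⟨⟨?_, ?_, ?_, ?_, ?_⟩, ⟨?_, ?_, ?_, ?_, ?_⟩⟩ <;> simp only <;> nlinarith
  obtain ⟨⟨w1, w2, s, κ, τ⟩, -, hlim⟩ := limit_lemma hK z hzK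
  have h0 : Tendsto (fun _ : ℕ => (0 : ℝ)) atTop (𝓝 0) := tendsto_const_nhds
  have hw : w1 ^ 2 + w2 ^ 2 = 1 := by
    have a1 := hlim (fun z => z.1 ^ 2 + z.2.1 ^ 2 - 1) _ (by fun_prop) h0
      (Eventually.of_forall fun n => by linarith [(hz n).1])
    have a2 := hlim (fun z => 1 - (z.1 ^ 2 + z.2.1 ^ 2)) _ (by fun_prop) h0
      (Eventually.of_forall fun n => by linarith [(hz n).1])
    simp only at a1 a2; linarith
  have hsk : s ^ 2 + κ ^ 2 = 1 := by
    have a1 := hlim (fun z => z.2.2.1 ^ 2 + z.2.2.2.1 ^ 2 - 1) _ (by fun_prop) h0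
      (Eventually.of_forall fun n => by linarith [(hz n).2.2.1])
    have a2 := hlim (fun z => 1 - (z.2.2.1 ^ 2 + z.2.2.2.1 ^ 2)) _ (by fun_prop) h0
      (Eventually.of_forall fun n => by linarith [(hz n).2.2.1])
    simp only at a1 a2; linarith
  have hτ : τ = t := by
    have a1 := hlim (fun z => z.2.2.2.2 - t) _ (by fun_prop) helim
      (Eventually.of_forall fun n => by linarith [(hz n).2.2.2.2.1])
    have a2 := hlim (fun z => t - z.2.2.2.2) _ (by fun_prop) helim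
      (Eventually.of_forall fun n => by linarith [(hz n).2.2.2.1])
    simp only at a1 a2; linarith
  subst hτ
  have hp : dot (s * w1, s * w2, κ) p ≤ 1 := by
    have a1 := hlim (fun z => dot (z.2.2.1 * z.1, z.2.2.1 * z.2.1, z.2.2.2.1) p - 1) _
      (by unfold dot; fun_prop) h0
      (Eventually.of_forall fun n => by linarith [(hz n).2.2.2.2.2.1])
    simp only at a1; linarith
  have hq : dot (s * w1, s * w2, κ) q ≤ 1 := by
    have a1 := hlim (fun z => dot (z.2.2.1 * z.1, z.2.2.1 * z.2.1, z.2.2.2.1) q - 1) _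
      (by unfold dot; fun_prop) h0
      (Eventually.of_forall fun n => by linarith [(hz n).2.2.2.2.2.2.1])
    simp only at a1; linarith
  have hev : ∀ σ ∈ Icc 0 π, σ ≠ τ → ∀ᶠ n in atTop, σ ∈ Icc 0 (τ - e n) ∪ Icc (τ + e n) π := by
    intro σ hσ hne
    have hpos : 0 < |σ - τ| := abs_pos.2 (sub_ne_zero.2 hne)
    filter_upwards [helim.eventually (gt_mem_nhds hpos)] with n hn
    rcases lt_or_gt_of_ne hne with h | h
    · rw [abs_of_neg (by linarith)] at hn
      exact Or.inl ⟨hσ.1, by linarith⟩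
    · rw [abs_of_pos (by linarith)] at hn
      exact Or.inr ⟨by linarith, hσ.2⟩
  have hall : ∀ σ ∈ Icc 0 π, dot (s * w1, s * w2, κ) (hy r c a b d σ) ≤ 1 := by
    apply le_of_ne_point ht (by unfold dot hy; fun_prop)
    intro σ hσ hne
    have a1 := hlim (fun z => dot (z.2.2.1 * z.1, z.2.2.1 * z.2.1, z.2.2.2.1)
      (hy r c a b d σ) - 1) _ (by unfold dot; fun_prop) h0
      (by filter_upwards [hev σ hσ hne] with n hn; linarith [(hz n).2.2.2.2.2.2.2.1 σ hn])
    simp only at a1; linarith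
  have hone : dot (s * w1, s * w2, κ) (hy r c a b d τ) = 1 := by
    have a1 := hlim (fun z => 1 - dot (z.2.2.1 * z.1, z.2.2.1 * z.2.1, z.2.2.2.1)
      (hy r c a b d z.2.2.2.2)) _ (by unfold dot hy; fun_prop) h0
      (Eventually.of_forall fun n => by linarith [(hz n).2.2.2.2.2.2.2.2])
    simp only at a1
    linarith [hall τ ⟨ht.1.le, ht.2.le⟩]
  refine ⟨(s * w1, s * w2, κ), ?_, hp, hq, hall, hone, ?_⟩
  · simp only [dot]
    have : s * w1 * (s * w1) + s * w2 * (s * w2) = s ^ 2 * (w1 ^ 2 + w2 ^ 2) := by ring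
    rw [this, hw]; linarith
  · rintro ⟨hc, h1, h2⟩
    simp only at h1 h2
    have hs0 : s = 0 := by
      have : s ^ 2 * (w1 ^ 2 + w2 ^ 2) = 0 := by
        have : s ^ 2 * (w1 ^ 2 + w2 ^ 2) = (s * w1) ^ 2 + (s * w2) ^ 2 := by ring
        rw [this, h1, h2]; ring
      rw [hw, mul_one] at this
      exact pow_eq_zero_iff (two_ne_zero) |>.1 this
    subst hs0 hc
    have hk : κ ^ 2 = 1 := by linarith
    have hkd : κ * d = -1 := by
      simp only [dot, hy] at hone; linarith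
    have hd : d ^ 2 = 1 := by
      have : (κ * d) ^ 2 = 1 := by rw [hkd]; ring
      rw [mul_pow, hk, one_mul] at this; exact this
    -- the horizontal direction `w` supports the face
    have hgen : ∀ x : V3, x.2.2 = -d →
        (∀ᶠ n in atTop, dot ((z n).2.2.1 * (z n).1, (z n).2.2.1 * (z n).2.1, (z n).2.2.2.1) x < 1) →
        w1 * x.1 + w2 * x.2.1 ≤ 0 := by
      intro x hx hev'
      have a1 := hlim (fun z => (z.1 * x.1 + z.2.1 * x.2.1) * (1 - z.2.2.2.1 * d) - z.2.2.1) _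
        (by fun_prop) h0
        (by
          filter_upwards [hev'] with n hn
          have := flat_ineq (W := (z n).1 * x.1 + (z n).2.1 * x.2.1) (hz n).2.1 (hz n).2.2.1 hd
            (by simp only [dot, hx] at hn; linarith)
          linarith)
      simp only at a1
      rw [hkd] at a1
      linarith
    have hwh : ∀ σ ∈ Icc 0 π, w1 * (hy r 0 a b d σ).1 + w2 * (hy r 0 a b d σ).2.1 ≤ 0 := by
      apply le_of_ne_point ht (by unfold hy; fun_prop)
      intro σ hσ hne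
      apply hgen _ (by simp [hy])
      filter_upwards [hev σ hσ hne] with n hn
      exact (hz n).2.2.2.2.2.2.2.1 σ hn
    have hpt : ∀ x : V3, dot (0 * w1, 0 * w2, κ) x ≤ 1 →
        (∀ n, dot ((z n).2.2.1 * (z n).1, (z n).2.2.1 * (z n).2.1, (z n).2.2.2.1) x < 1) →
        ∀ᶠ ε in 𝓝[>] (0 : ℝ), κ * x.2.2 + ε * (w1 * x.1 + w2 * x.2.1) ≤ 1 := by
      intro x hx hn
      apply small_eps (by simpa [dot] using hx)
      intro h1
      apply hgen x _ (Eventually.of_forall hn)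
      have : κ * (x.2.2 + d) = 0 := by linarith
      rcases mul_eq_zero.1 this with h | h
      · rw [h] at hk; norm_num at hk
      · linarith
    obtain ⟨ε, ⟨e1, e2⟩, e3⟩ := (((hpt p hp fun n => (hz n).2.2.2.2.2.1).and
      (hpt q hq fun n => (hz n).2.2.2.2.2.2.1)).and self_mem_nhdsWithin).exists
    have e3' : 0 < ε := e3
    rcases hcov.hom (ε * w1, ε * w2, κ) 1 zero_le_one (by
      simp only [dot]
      have : ε * w1 * (ε * w1) + ε * w2 * (ε * w2) = ε ^ 2 * (w1 ^ 2 + w2 ^ 2) := by ring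
      rw [this, hw]; nlinarith) with h | h | ⟨σ, hσ, h⟩
    · simp only [dot] at h; linarith
    · simp only [dot] at h; linarith
    · have := hwh σ hσ
      simp only [dot, hy] at h this
      nlinarith

end Pool.Agent.MP_861c96_gt

end

-- part MP_861c96_gt.Face
section

/-! The faces cut out by the supporting planes, and the resulting quadric equations. -/

namespace Pool.Agent.MP_861c96_gt

open Set Filter Topology Real

lemma max_conditions {α β γ k t : ℝ} (ht : t ∈ Ioo 0 π)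
    (hall : ∀ σ ∈ Icc 0 π, α * cos σ + β * sin σ + γ * σ + k ≤ 1)
    (h1 : α * cos t + β * sin t + γ * t + k = 1) :
    -α * sin t + β * cos t + γ = 0 ∧ 0 ≤ α * cos t + β * sin t := by
  constructor
  · have hmax : IsLocalMax (fun σ => α * cos σ + β * sin σ + γ * σ + k) t := by
      filter_upwards [Icc_mem_nhds ht.1 ht.2] with σ hσ
      rw [h1]; exact hall σ hσ
    have hd : HasDerivAt (fun σ => α * cos σ + β * sin σ + γ * σ + k)
        (α * (-sin t) + β * cos t + γ * 1) t :=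
      ((((hasDerivAt_cos t).const_mul α).add ((hasDerivAt_sin t).const_mul β)).add
        ((hasDerivAt_id t).const_mul γ)).add_const k
    have := hmax.hasDerivAt_eq_zero hd
    linarith
  · set ε := min t (π - t) with hε
    have hεpos : 0 < ε := lt_min ht.1 (by linarith [ht.2])
    have hε1 : ε ≤ t := min_le_left _ _
    have hε2 : ε ≤ π - t := min_le_right _ _
    have a1 := hall (t + ε) ⟨by linarith [ht.1], by linarith⟩
    have a2 := hall (t - ε) ⟨by linarith, by linarith [ht.2]⟩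
    rw [cos_add, sin_add] at a1
    rw [cos_sub, sin_sub] at a2
    have hc : cos ε < 1 := by
      have := cos_lt_cos_of_nonneg_of_le_pi le_rfl (by linarith [ht.1]) hεpos
      simpa using this
    have : (α * cos t + β * sin t) * (1 - cos ε) ≥ 0 := by nlinarith
    by_contra hcon
    push Not at hcon
    nlinarith

lemma support_unique {r c a b d : ℝ} (hr : 0 < r) {u : V3} (hu : dot u u = 1)
    (hall : ∀ σ ∈ Icc 0 π, dot u (hy r c a b d σ) ≤ 1) (hnf : ¬ (c = 0 ∧ u.1 = 0 ∧ u.2.1 = 0))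
    {t τ : ℝ} (ht : t ∈ Ioo 0 π) (hτ : τ ∈ Ioo 0 π) (h1 : dot u (hy r c a b d t) = 1)
    (h2 : dot u (hy r c a b d τ) = 1) : t = τ := by
  obtain ⟨u1, u2, u3⟩ := u
  have hform : ∀ σ, dot (u1, u2, u3) (hy r c a b d σ) = (u1 * r) * cos σ + (u2 * r) * sin σ +
      (u3 * c) * σ + (-(u1 * a + u2 * b + u3 * d)) := by
    intro σ; simp only [dot, hy]; ring
  simp only [hform] at hall h1 h2
  obtain ⟨s1, c1⟩ := max_conditions ht hall h1
  obtain ⟨s2, c2⟩ := max_conditions hτ hall h2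
  set α := u1 * r
  set β := u2 * r
  have e1 := sin_sq_add_cos_sq t
  have e2 := sin_sq_add_cos_sq τ
  have hS : -α * sin t + β * cos t = -α * sin τ + β * cos τ := by linarith
  have hC2 : (α * cos t + β * sin t) ^ 2 = (α * cos τ + β * sin τ) ^ 2 := by
    have f1 : (α * cos t + β * sin t) ^ 2 + (-α * sin t + β * cos t) ^ 2 = α ^ 2 + β ^ 2 := by
      linear_combination (α ^ 2 + β ^ 2) * e1
    have f2 : (α * cos τ + β * sin τ) ^ 2 + (-α * sin τ + β * cos τ) ^ 2 = α ^ 2 + β ^ 2 := by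
      linear_combination (α ^ 2 + β ^ 2) * e2
    rw [hS] at f1; linarith
  have hC : α * cos t + β * sin t = α * cos τ + β * sin τ := (pow_left_inj₀ c1 c2 two_ne_zero).1 hC2
  have hkey : (α ^ 2 + β ^ 2) * (cos t - cos τ) = 0 := by
    linear_combination α * hC + β * hS
  rcases mul_eq_zero.1 hkey with h | h
  · exfalso
    have hα : α = 0 := by nlinarith
    have hβ : β = 0 := by nlinarith
    have hu1 : u1 = 0 := (mul_eq_zero.1 hα).resolve_right hr.ne'
    have hu2 : u2 = 0 := (mul_eq_zero.1 hβ).resolve_right hr.ne'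
    have hγ : u3 * c = 0 := by rw [hα, hβ] at s1; linarith
    have hu3 : u3 ≠ 0 := by
      intro h3; simp [dot, hu1, hu2, h3] at hu
    exact hnf ⟨(mul_eq_zero.1 hγ).resolve_left hu3, hu1, hu2⟩
  · exact injOn_cos ⟨ht.1.le, ht.2.le⟩ ⟨hτ.1.le, hτ.2.le⟩ (by linarith)

lemma face_lemma {r c a b d : ℝ} {p q u : V3} (hcov : Cov r c a b d p q (Icc 0 π))
    (hu : dot u u = 1) (hp : dot u p ≤ 1) (hq : dot u q ≤ 1)
    (hall : ∀ σ ∈ Icc 0 π, dot u (hy r c a b d σ) ≤ 1) (w : V3) (hw : dot w u = 0)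
    (hw0 : 0 < dot w w) :
    (dot u p = 1 ∧ 0 ≤ dot w p) ∨ (dot u q = 1 ∧ 0 ≤ dot w q) ∨
      ∃ σ ∈ Icc 0 π, dot u (hy r c a b d σ) = 1 ∧ 0 ≤ dot w (hy r c a b d σ) := by
  by_contra hcon
  push Not at hcon
  obtain ⟨h1, h2, h3⟩ := hcon
  have e1 := small_eps hp fun h => (h1 h).le
  have e2 := small_eps hq fun h => (h2 h).le
  have e3 := small_eps_unif (isCompact_Icc (a := (0 : ℝ)) (b := π))
    (f := fun σ => dot u (hy r c a b d σ)) (g := fun σ => dot w (hy r c a b d σ))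
    (by unfold dot hy; fun_prop) (by unfold dot hy; fun_prop) hall h3
  obtain ⟨ε, ⟨⟨a1, a2⟩, a3⟩, a4⟩ := (((e1.and e2).and e3).and self_mem_nhdsWithin).exists
  have a4' : 0 < ε := a4
  have hlin : ∀ x : V3, dot (u.1 + ε * w.1, u.2.1 + ε * w.2.1, u.2.2 + ε * w.2.2) x =
      dot u x + ε * dot w x := by
    intro x; simp only [dot]; ring
  rcases hcov.hom (u.1 + ε * w.1, u.2.1 + ε * w.2.1, u.2.2 + ε * w.2.2) 1 zero_le_one (by
    have : dot (u.1 + ε * w.1, u.2.1 + ε * w.2.1, u.2.2 + ε * w.2.2)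
        (u.1 + ε * w.1, u.2.1 + ε * w.2.1, u.2.2 + ε * w.2.2) =
        dot u u + 2 * ε * dot w u + ε ^ 2 * dot w w := by simp only [dot]; ring
    rw [this, hu, hw]
    have : 0 < ε ^ 2 * dot w w := by positivity
    linarith) with h | h | ⟨σ, hσ, h⟩
  · rw [hlin] at h; linarith
  · rw [hlin] at h; linarith
  · rw [hlin] at h; linarith [a3 σ hσ]

lemma dot_self_nonneg (x : V3) : 0 ≤ dot x x := by
  unfold dot; nlinarith [sq_nonneg x.1, sq_nonneg x.2.1, sq_nonneg x.2.2]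

lemma eq_zero_of_dot_self {x : V3} (h : dot x x = 0) : x.1 = 0 ∧ x.2.1 = 0 ∧ x.2.2 = 0 := by
  unfold dot at h
  refine ⟨by nlinarith [sq_nonneg x.1, sq_nonneg x.2.1, sq_nonneg x.2.2],
    by nlinarith [sq_nonneg x.1, sq_nonneg x.2.1, sq_nonneg x.2.2],
    by nlinarith [sq_nonneg x.1, sq_nonneg x.2.1, sq_nonneg x.2.2]⟩

lemma tangent_planes_finite {x y : V3} (hxy : x ≠ y) :
    {u : V3 | dot u u = 1 ∧ dot u x = 1 ∧ dot u y = 1}.Finite := by
  obtain ⟨x1, x2, x3⟩ := x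
  obtain ⟨y1, y2, y3⟩ := y
  set n1 := x2 * y3 - x3 * y2 with hn1
  set n2 := x3 * y1 - x1 * y3 with hn2
  set n3 := x1 * y2 - x2 * y1 with hn3
  set G := (x1 ^ 2 + x2 ^ 2 + x3 ^ 2) * (y1 ^ 2 + y2 ^ 2 + y3 ^ 2) - (x1 * y1 + x2 * y2 + x3 * y3) ^ 2
    - (x1 ^ 2 + x2 ^ 2 + x3 ^ 2) - (y1 ^ 2 + y2 ^ 2 + y3 ^ 2) + 2 * (x1 * y1 + x2 * y2 + x3 * y3)
    with hG
  apply Set.Finite.of_finite_image (f := fun u : V3 => u.1 * n1 + u.2.1 * n2 + u.2.2 * n3)
  · apply (Set.toFinite ({√G, -√G} : Set ℝ)).subset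
    rintro _ ⟨⟨u1, u2, u3⟩, ⟨h1, h2, h3⟩, rfl⟩
    simp only [dot] at h1 h2 h3
    have hsq : (u1 * n1 + u2 * n2 + u3 * n3) ^ 2 = G := by
      have : (u1 * n1 + u2 * n2 + u3 * n3) ^ 2 =
          (u1 * u1 + u2 * u2 + u3 * u3) * ((x1 ^ 2 + x2 ^ 2 + x3 ^ 2) * (y1 ^ 2 + y2 ^ 2 + y3 ^ 2)
            - (x1 * y1 + x2 * y2 + x3 * y3) ^ 2)
          - (u1 * x1 + u2 * x2 + u3 * x3) ^ 2 * (y1 ^ 2 + y2 ^ 2 + y3 ^ 2)
          - (u1 * y1 + u2 * y2 + u3 * y3) ^ 2 * (x1 ^ 2 + x2 ^ 2 + x3 ^ 2)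
          + 2 * (u1 * x1 + u2 * x2 + u3 * x3) * (u1 * y1 + u2 * y2 + u3 * y3) *
            (x1 * y1 + x2 * y2 + x3 * y3) := by
        rw [hn1, hn2, hn3]; ring
      rw [this, h1, h2, h3, hG]; ring
    simp only [mem_insert_iff, mem_singleton_iff]
    rw [← hsq, sqrt_sq_eq_abs]
    rcases abs_cases (u1 * n1 + u2 * n2 + u3 * n3) with h | h
    · left; exact h.1.symm
    · right; rw [h.1]; ring
  · rintro ⟨u1, u2, u3⟩ ⟨h1, h2, h3⟩ ⟨v1, v2, v3⟩ ⟨k1, k2, k3⟩ heq
    simp only [dot] at h1 h2 h3 k1 k2 k3 heq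
    have hN : n1 ^ 2 + n2 ^ 2 + n3 ^ 2 ≠ 0 := by
      intro h0
      have z1 : n1 = 0 := by nlinarith [sq_nonneg n1, sq_nonneg n2, sq_nonneg n3]
      have z2 : n2 = 0 := by nlinarith [sq_nonneg n1, sq_nonneg n2, sq_nonneg n3]
      have z3 : n3 = 0 := by nlinarith [sq_nonneg n1, sq_nonneg n2, sq_nonneg n3]
      apply hxy
      have f1 : x1 = y1 := by
        linear_combination (-x1) * h3 + y1 * h2 - u2 * (z3.symm.trans hn3) + u3 * (z2.symm.trans hn2)
      have f2 : x2 = y2 := by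
        linear_combination (-x2) * h3 + y2 * h2 - u3 * (z1.symm.trans hn1) + u1 * (z3.symm.trans hn3)
      have f3 : x3 = y3 := by
        linear_combination (-x3) * h3 + y3 * h2 - u1 * (z2.symm.trans hn2) + u2 * (z1.symm.trans hn1)
      rw [f1, f2, f3]
    have g1 : (n1 ^ 2 + n2 ^ 2 + n3 ^ 2) * (u1 - v1) = 0 := by
      have : (n1 ^ 2 + n2 ^ 2 + n3 ^ 2) * (u1 - v1) =
          ((u1 - v1) * n1 + (u2 - v2) * n2 + (u3 - v3) * n3) * n1
          + ((u1 - v1) * x1 + (u2 - v2) * x2 + (u3 - v3) * x3) * (y2 * n3 - y3 * n2)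
          + ((u1 - v1) * y1 + (u2 - v2) * y2 + (u3 - v3) * y3) * (n2 * x3 - n3 * x2) := by
        rw [hn1, hn2, hn3]; ring
      rw [this]
      linear_combination n1 * heq + (y2 * n3 - y3 * n2) * (h2 - k2) + (n2 * x3 - n3 * x2) * (h3 - k3)
    have g2 : (n1 ^ 2 + n2 ^ 2 + n3 ^ 2) * (u2 - v2) = 0 := by
      have : (n1 ^ 2 + n2 ^ 2 + n3 ^ 2) * (u2 - v2) =
          ((u1 - v1) * n1 + (u2 - v2) * n2 + (u3 - v3) * n3) * n2
          + ((u1 - v1) * x1 + (u2 - v2) * x2 + (u3 - v3) * x3) * (y3 * n1 - y1 * n3)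
          + ((u1 - v1) * y1 + (u2 - v2) * y2 + (u3 - v3) * y3) * (n3 * x1 - n1 * x3) := by
        rw [hn1, hn2, hn3]; ring
      rw [this]
      linear_combination n2 * heq + (y3 * n1 - y1 * n3) * (h2 - k2) + (n3 * x1 - n1 * x3) * (h3 - k3)
    have g3 : (n1 ^ 2 + n2 ^ 2 + n3 ^ 2) * (u3 - v3) = 0 := by
      have : (n1 ^ 2 + n2 ^ 2 + n3 ^ 2) * (u3 - v3) =
          ((u1 - v1) * n1 + (u2 - v2) * n2 + (u3 - v3) * n3) * n3
          + ((u1 - v1) * x1 + (u2 - v2) * x2 + (u3 - v3) * x3) * (y1 * n2 - y2 * n1)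
          + ((u1 - v1) * y1 + (u2 - v2) * y2 + (u3 - v3) * y3) * (n1 * x2 - n2 * x1) := by
        rw [hn1, hn2, hn3]; ring
      rw [this]
      linear_combination n3 * heq + (y1 * n2 - y2 * n1) * (h2 - k2) + (n1 * x2 - n2 * x1) * (h3 - k3)
    have e1 := (mul_eq_zero.1 g1).resolve_left hN
    have e2 := (mul_eq_zero.1 g2).resolve_left hN
    have e3 := (mul_eq_zero.1 g3).resolve_left hN
    simp only [Prod.mk.injEq]
    exact ⟨by linarith, by linarith, by linarith⟩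

/-- the line through `x` and `y` is tangent to the unit sphere -/
def ConeEq (x y : V3) : Prop :=
  (dot y x - dot x x) ^ 2 = (dot y y - 2 * dot y x + dot x x) * (dot x x - 1)

lemma single_face {u y : V3} (hu : dot u u = 1) (hy1 : dot u y = 1)
    (h : ∀ w : V3, dot w u = 0 → 0 < dot w w → 0 ≤ dot w y) : dot y y = 1 := by
  obtain ⟨u1, u2, u3⟩ := u
  obtain ⟨y1, y2, y3⟩ := y
  by_contra hne
  have hww : dot (u1 - y1, u2 - y2, u3 - y3) (u1 - y1, u2 - y2, u3 - y3) =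
      dot (y1, y2, y3) (y1, y2, y3) - 1 := by
    simp only [dot] at hu hy1 ⊢; linear_combination hu - 2 * hy1
  have hpos : 0 < dot (u1 - y1, u2 - y2, u3 - y3) (u1 - y1, u2 - y2, u3 - y3) :=
    lt_of_le_of_ne (dot_self_nonneg _) (by rw [hww]; intro h0; apply hne; linarith)
  have := h (u1 - y1, u2 - y2, u3 - y3) (by simp only [dot] at hu hy1 ⊢; linear_combination hu - hy1)
    hpos
  rw [hww] at hpos
  simp only [dot] at hu hy1 this hpos
  nlinarith

lemma pair_face {u x y : V3} (hu : dot u u = 1) (hy1 : dot u y = 1) (hx1 : dot u x = 1)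
    (h : ∀ w : V3, dot w u = 0 → 0 < dot w w → 0 ≤ dot w y ∨ 0 ≤ dot w x) :
    ConeEq x y ∧ dot y x ≤ 1 := by
  obtain ⟨u1, u2, u3⟩ := u
  obtain ⟨y1, y2, y3⟩ := y
  obtain ⟨x1, x2, x3⟩ := x
  -- a = y - u, b = x - u
  set a1 := y1 - u1 with ha1
  set a2 := y2 - u2 with ha2
  set a3 := y3 - u3 with ha3
  set b1 := x1 - u1 with hb1
  set b2 := x2 - u2 with hb2
  set b3 := x3 - u3 with hb3
  have ey1 : y1 = a1 + u1 := by rw [ha1]; ring
  have ey2 : y2 = a2 + u2 := by rw [ha2]; ring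
  have ey3 : y3 = a3 + u3 := by rw [ha3]; ring
  have ex1 : x1 = b1 + u1 := by rw [hb1]; ring
  have ex2 : x2 = b2 + u2 := by rw [hb2]; ring
  have ex3 : x3 = b3 + u3 := by rw [hb3]; ring
  clear_value a1 a2 a3 b1 b2 b3
  subst ey1 ey2 ey3 ex1 ex2 ex3
  simp only [dot] at hu hy1 hx1
  have hau : a1 * u1 + a2 * u2 + a3 * u3 = 0 := by linear_combination hy1 - hu
  have hbu : b1 * u1 + b2 * u2 + b3 * u3 = 0 := by linear_combination hx1 - hu
  set A := a1 * a1 + a2 * a2 + a3 * a3 with hA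
  set B := b1 * b1 + b2 * b2 + b3 * b3 with hB
  set C := a1 * b1 + a2 * b2 + a3 * b3 with hC
  have hA0 : 0 ≤ A := by rw [hA]; nlinarith [sq_nonneg a1, sq_nonneg a2, sq_nonneg a3]
  have hB0 : 0 ≤ B := by rw [hB]; nlinarith [sq_nonneg b1, sq_nonneg b2, sq_nonneg b3]
  have hG0 : 0 ≤ A * B - C ^ 2 := by
    have : A * B - C ^ 2 = (a1 * b2 - a2 * b1) ^ 2 + (a1 * b3 - a3 * b1) ^ 2 +
        (a2 * b3 - a3 * b2) ^ 2 := by rw [hA, hB, hC]; ring
    rw [this]; positivity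
  -- generic use of the hypothesis
  have hw : ∀ l m : ℝ, l * A + m * C < 0 → l * C + m * B < 0 → False := by
    intro l m h1 h2
    have e0 : dot (l * a1 + m * b1, l * a2 + m * b2, l * a3 + m * b3) (u1, u2, u3) = 0 := by
      simp only [dot]; linear_combination l * hau + m * hbu
    have ea : dot (l * a1 + m * b1, l * a2 + m * b2, l * a3 + m * b3) (a1 + u1, a2 + u2, a3 + u3)
        = l * A + m * C := by
      simp only [dot]; rw [hA, hC]; linear_combination l * hau + m * hbu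
    have eb : dot (l * a1 + m * b1, l * a2 + m * b2, l * a3 + m * b3) (b1 + u1, b2 + u2, b3 + u3)
        = l * C + m * B := by
      simp only [dot]; rw [hB, hC]; linear_combination l * hau + m * hbu
    have hpos : 0 < dot (l * a1 + m * b1, l * a2 + m * b2, l * a3 + m * b3)
        (l * a1 + m * b1, l * a2 + m * b2, l * a3 + m * b3) := by
      refine lt_of_le_of_ne (dot_self_nonneg _) fun h0 => ?_
      obtain ⟨z1, z2, z3⟩ := eq_zero_of_dot_self h0.symm
      simp only at z1 z2 z3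
      have : l * A + m * C = 0 := by
        rw [hA, hC]; linear_combination a1 * z1 + a2 * z2 + a3 * z3
      linarith
    rcases h _ e0 hpos with h3 | h3
    · rw [ea] at h3; linarith
    · rw [eb] at h3; linarith
  have hG : A * B - C ^ 2 = 0 := by
    by_contra hne
    have hpos : 0 < A * B - C ^ 2 := lt_of_le_of_ne hG0 (Ne.symm hne)
    exact hw (C - B) (C - A) (by nlinarith) (by nlinarith)
  have hC0 : C ≤ 0 := by
    by_contra hcon
    push Not at hcon
    have hApos : 0 < A := by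
      refine lt_of_le_of_ne hA0 fun h0 => ?_
      rw [← h0] at hG
      nlinarith
    exact hw (-1) 0 (by linarith) (by linarith)
  have eyy : dot (a1 + u1, a2 + u2, a3 + u3) (a1 + u1, a2 + u2, a3 + u3) = A + 1 := by
    simp only [dot]; rw [hA]; linear_combination 2 * hau + hu
  have exx : dot (b1 + u1, b2 + u2, b3 + u3) (b1 + u1, b2 + u2, b3 + u3) = B + 1 := by
    simp only [dot]; rw [hB]; linear_combination 2 * hbu + hu
  have eyx : dot (a1 + u1, a2 + u2, a3 + u3) (b1 + u1, b2 + u2, b3 + u3) = C + 1 := by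
    simp only [dot]; rw [hC]; linear_combination hau + hbu + hu
  unfold ConeEq
  rw [eyy, exx, eyx]
  exact ⟨by linear_combination -hG, by linarith⟩

lemma analytic_zero {g : ℝ → ℝ} (hg : AnalyticOnNhd ℝ g univ)
    (hinf : {t | t ∈ Icc 0 π ∧ g t = 0}.Infinite) : ∀ t, g t = 0 := by
  obtain ⟨z, -, hz⟩ := hinf.exists_accPt_of_subset_isCompact (isCompact_Icc (a := (0 : ℝ)) (b := π))
    fun t ht => ht.1
  have hfr : ∃ᶠ t in 𝓝[≠] z, g t = 0 := by
    rw [accPt_iff_frequently_nhdsNE] at hz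
    exact hz.mono fun t ht => ht.2
  intro t
  exact hg.eqOn_zero_of_preconnected_of_frequently_eq_zero isPreconnected_univ (mem_univ z) hfr
    (mem_univ t)

/-- Either the whole helix lies on the sphere or it lies on a cone tangent to the sphere. -/
theorem quadric_dichotomy {r c a b d : ℝ} (hr : 0 < r) {p q : V3}
    (hcov : Cov r c a b d p q (Icc 0 π))
    (hess : ∀ t1 t2, 0 ≤ t1 → t1 < t2 → t2 ≤ π → ¬ Cov r c a b d p q (Icc 0 t1 ∪ Icc t2 π)) :
    (∀ t, dot (hy r c a b d t) (hy r c a b d t) = 1) ∨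
      ∃ x : V3, (x = hy r c a b d 0 ∨ x = hy r c a b d π ∨ x = p ∨ x = q) ∧ dot x x ≠ 1 ∧
        (∃ t, dot (hy r c a b d t) x ≤ 1) ∧ ∀ t, ConeEq x (hy r c a b d t) := by
  classical
  have hex := fun t (ht : t ∈ Ioo 0 π) => exists_support hcov hess ht
  choose! u hu using hex
  set Xs : Set V3 := {hy r c a b d 0, hy r c a b d π, p, q} with hXs
  have hXfin : Xs.Finite := Set.toFinite _
  set U : Set V3 := Xs ∪ ⋃ x ∈ Xs, ⋃ y ∈ Xs, {v : V3 | x ≠ y ∧ dot v v = 1 ∧ dot v x = 1 ∧ dot v y = 1}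
    with hU
  have hUfin : U.Finite := by
    refine hXfin.union (hXfin.biUnion fun x _ => hXfin.biUnion fun y _ => ?_)
    by_cases hxy : x = y
    · simp [hxy]
    · exact (tangent_planes_finite hxy).subset fun v hv => hv.2
  have hbad : {t | t ∈ Ioo 0 π ∧ u t ∈ U}.Finite := by
    apply Set.Finite.of_finite_image (f := u) (hUfin.subset (by rintro _ ⟨t, ht, rfl⟩; exact ht.2))
    intro t ht τ hτ heq
    obtain ⟨h1, -, -, h4, h5, h6⟩ := hu t ht.1
    obtain ⟨-, -, -, -, k5, -⟩ := hu τ hτ.1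
    rw [← heq] at k5
    exact support_unique hr h1 h4 h6 ht.1 hτ.1 h5 k5
  have hclass : ∀ t ∈ Ioo 0 π, u t ∉ U → dot (hy r c a b d t) (hy r c a b d t) = 1 ∨
      ∃ x ∈ Xs, dot x x ≠ 1 ∧ dot (hy r c a b d t) x ≤ 1 ∧ ConeEq x (hy r c a b d t) := by
    intro t ht hU'
    obtain ⟨h1, h2, h3, h4, h5, h6⟩ := hu t ht
    have hface : ∀ w : V3, dot w (u t) = 0 → 0 < dot w w → 0 ≤ dot w (hy r c a b d t) ∨
        ∃ x ∈ Xs, dot (u t) x = 1 ∧ 0 ≤ dot w x := by
      intro w hw hw0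
      rcases face_lemma hcov h1 h2 h3 h4 w hw hw0 with h | h | ⟨σ, hσ, h, h'⟩
      · exact Or.inr ⟨p, by simp [hXs], h⟩
      · exact Or.inr ⟨q, by simp [hXs], h⟩
      · rcases hσ.1.lt_or_eq with s0 | s0
        · rcases hσ.2.lt_or_eq with s1 | s1
          · have := support_unique hr h1 h4 h6 ht ⟨s0, s1⟩ h5 h
            left; rw [this]; exact h'
          · subst s1; exact Or.inr ⟨_, by simp [hXs], h, h'⟩
        · subst s0; exact Or.inr ⟨_, by simp [hXs], h, h'⟩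
    by_cases hex : ∃ x ∈ Xs, dot (u t) x = 1
    · obtain ⟨x, hx, hx1⟩ := hex
      have huniq : ∀ x' ∈ Xs, dot (u t) x' = 1 → x' = x := by
        intro x' hx' hx1'
        by_contra hne
        apply hU'
        refine Or.inr ?_
        simp only [mem_iUnion]
        exact ⟨x', hx', x, hx, hne, h1, hx1', hx1⟩
      have hxx : dot x x ≠ 1 := by
        intro hxx
        apply hU'
        refine Or.inl ?_
        have : dot ((u t).1 - x.1, (u t).2.1 - x.2.1, (u t).2.2 - x.2.2)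
            ((u t).1 - x.1, (u t).2.1 - x.2.1, (u t).2.2 - x.2.2) = 0 := by
          simp only [dot] at h1 hx1 hxx ⊢; linear_combination h1 - 2 * hx1 + hxx
        obtain ⟨z1, z2, z3⟩ := eq_zero_of_dot_self this
        simp only at z1 z2 z3
        have : u t = x := Prod.ext (by linarith) (Prod.ext (by linarith) (by linarith))
        rw [this]; exact hx
      have := pair_face h1 h5 hx1 (fun w hw hw0 => by
        rcases hface w hw hw0 with h | ⟨x', hx', h, h'⟩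
        · exact Or.inl h
        · rw [huniq x' hx' h] at h'; exact Or.inr h')
      exact Or.inr ⟨x, hx, hxx, this.2, this.1⟩
    · left
      apply single_face h1 h5
      intro w hw hw0
      rcases hface w hw hw0 with h | ⟨x', hx', h, -⟩
      · exact h
      · exact absurd ⟨x', hx', h⟩ hex
  by_contra hcon
  push Not at hcon
  obtain ⟨hs, hc⟩ := hcon
  have fin1 : {t | t ∈ Icc 0 π ∧ dot (hy r c a b d t) (hy r c a b d t) - 1 = 0}.Finite := by
    by_contra hinf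
    obtain ⟨t, ht⟩ := hs
    have := analytic_zero (g := fun t => dot (hy r c a b d t) (hy r c a b d t) - 1)
      (by intro t _; unfold dot hy; fun_prop) hinf t
    exact ht (by linarith)
  have fin2 : ∀ x ∈ Xs, {t | t ∈ Icc 0 π ∧ dot x x ≠ 1 ∧ dot (hy r c a b d t) x ≤ 1 ∧
      ConeEq x (hy r c a b d t)}.Finite := by
    intro x hx
    by_contra hinf
    have hinf : {t | t ∈ Icc 0 π ∧ dot x x ≠ 1 ∧ dot (hy r c a b d t) x ≤ 1 ∧
      ConeEq x (hy r c a b d t)}.Infinite := hinf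
    obtain ⟨t0, ht0⟩ := hinf.nonempty
    obtain ⟨t, ht⟩ := hc x (by simpa [hXs] using hx) ht0.2.1 ⟨t0, ht0.2.2.1⟩
    have := analytic_zero (g := fun t => (dot (hy r c a b d t) x - dot x x) ^ 2 -
      (dot (hy r c a b d t) (hy r c a b d t) - 2 * dot (hy r c a b d t) x + dot x x) * (dot x x - 1))
      (by intro t _; unfold dot hy; fun_prop)
      (hinf.mono fun t ht => ⟨ht.1, by have := ht.2.2.2; unfold ConeEq at this; linarith⟩) t
    exact ht (by unfold ConeEq; linarith)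
  apply Set.Ioo_infinite pi_pos
  apply ((hbad.union fin1).union (hXfin.biUnion fin2)).subset
  intro t ht
  by_cases hU' : u t ∈ U
  · exact Or.inl (Or.inl ⟨ht, hU'⟩)
  · rcases hclass t ht hU' with h | ⟨x, hx, h⟩
    · exact Or.inl (Or.inr ⟨⟨ht.1.le, ht.2.le⟩, by linarith⟩)
    · refine Or.inr ?_
      simp only [mem_iUnion]
      exact ⟨x, hx, ⟨ht.1.le, ht.2.le⟩, h⟩

end Pool.Agent.MP_861c96_gt

end
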