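import Pool.Agent.MP_861c96_gt.Mg.Curve
import Pool.Agent.MP_861c96_gt.H3.Data

/-! A polygon of length at most `9.57633` whose convex hull contains the unit ball. -/

namespace Pool.Agent.MP_861c96_gt.H3

open Set
open scoped RealInnerProductSpace

theorem poly_le (n : ℕ) (hn : 0 < n) (y : ℕ → E3)
    (hc : ∀ U : E3, ‖U‖ = 1 → ∃ i, i ≤ n ∧ 1 ≤ ⟪U, y i⟫) (B : ℝ)
    (hB : ∑ j ∈ Finset.range n, ‖y (j + 1) - y j‖ ≤ B) : Lstar ≤ ENNReal.ofReal B := by
  have hn' : (0 : ℝ) < n := by exact_mod_cast hn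
  set γ : ℝ → E3 := fun s => y 0 + ∑ j ∈ Finset.range n, clamp (n * s - j) • (y (j + 1) - y j)
    with hγ
  have hcont : Continuous γ :=
    continuous_const.add (continuous_finsetSum _ fun j _ =>
      (clamp_cont.comp (by fun_prop)).smul continuous_const)
  have hm : ∀ (j : ℕ) {s t : ℝ}, s ≤ t → clamp (n * s - j) ≤ clamp (n * t - j) :=
    fun j s t h => clamp_mono (by nlinarith)
  have hlen : curveLength γ ≤ ENNReal.ofReal B := by
    have := evar_le_of_mono (γ := γ)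
      (φ := fun s => ∑ j ∈ Finset.range n, clamp (n * s - j) * ‖y (j + 1) - y j‖) zero_le_one
      (fun s t h => Finset.sum_le_sum fun j _ =>
        mul_le_mul_of_nonneg_right (hm j h) (norm_nonneg _))
      (fun s _ t _ h => by
        rw [dist_eq_norm, hγ]
        simp only [add_sub_add_left_eq_sub, ← Finset.sum_sub_distrib, ← sub_smul, ← sub_mul]
        refine (norm_sum_le _ _).trans (le_of_eq (Finset.sum_congr rfl fun j _ => ?_))
        rw [norm_smul, Real.norm_eq_abs, abs_of_nonneg (sub_nonneg.2 (hm j h))])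
    refine this.trans (ENNReal.ofReal_le_ofReal (le_trans (le_of_eq ?_) hB))
    rw [← Finset.sum_sub_distrib]
    refine Finset.sum_congr rfl fun j hj => ?_
    have h1 : (j : ℝ) + 1 ≤ n := by exact_mod_cast Finset.mem_range.1 hj
    have h2 : (0 : ℝ) ≤ j := Nat.cast_nonneg j
    rw [clamp_of_ge (by linarith), clamp_of_le (by linarith)]
    ring
  have hv : ∀ i, i ≤ n → γ (i / n) = y i := by
    intro i hi
    simp only [hγ, mul_div_cancel₀ _ hn'.ne']
    rw [← Finset.sum_range_add_sum_Ico _ hi, Finset.sum_eq_zero (s := Finset.Ico i n), add_zero,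
      Finset.sum_congr rfl (g := fun j => y (j + 1) - y j), Finset.sum_range_sub, add_sub_cancel]
    · intro j hj
      have h1 : (j : ℝ) + 1 ≤ i := by exact_mod_cast Finset.mem_range.1 hj
      rw [clamp_of_ge (by linarith), one_smul]
    · intro j hj
      have h1 : (i : ℝ) ≤ j := by exact_mod_cast (Finset.mem_Ico.1 hj).1
      rw [clamp_of_le (by linarith), zero_smul]
  refine le_trans (iInf₂_le γ ⟨hcont.continuousOn, ne_top_of_le_ne_top ENNReal.ofReal_ne_top hlen,
    planes_of_cover hcont.continuousOn fun U hU => ?_⟩) hlen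
  obtain ⟨i, hi, h⟩ := hc U hU
  refine ⟨i / n, ⟨by positivity, (div_le_one hn').2 (by exact_mod_cast hi)⟩, ?_⟩
  rwa [hv i hi]

abbrev P3 := ℤ × ℤ × ℤ

def sc : ℤ := 100000000000
def aa : ℤ := 218960580657
def hh : ℤ := 100498820301

/-- the point with scaled and shifted coordinates `X` -/
noncomputable def pt (X : P3) : E3 := !₂[X.1 / sc, (X.2.1 - hh) / sc, X.2.2 / sc]

def ok (c a b d : ℤ) : Bool := decide (0 < c) && decide (sc * sc * (a * a + b * b + d * d) < c * c)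

theorem ok_pos {c a b d : ℤ} (h : ok c a b d = true) {u v w : ℝ} (hu : u ^ 2 + v ^ 2 + w ^ 2 = 1) :
    (0 : ℝ) < c + sc * (a * u + b * v + d * w) := by
  simp only [ok, Bool.and_eq_true, decide_eq_true_eq] at h
  have h1 : (0 : ℝ) < c := by exact_mod_cast h.1
  have h2 : (sc : ℝ) * sc * (a * a + b * b + d * d) < c * c := by exact_mod_cast h.2
  have h3 : (a * u + b * v + d * w : ℝ) ^ 2 ≤ a * a + b * b + d * d := by
    nlinarith [sq_nonneg (a * v - b * u), sq_nonneg (a * w - d * u), sq_nonneg (b * w - d * v)]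
  have h4 : ((sc : ℝ) * (a * u + b * v + d * w)) ^ 2 < c ^ 2 := by
    have := mul_le_mul_of_nonneg_left h3 (mul_self_nonneg (sc : ℝ))
    nlinarith
  linarith [(abs_lt.1 (abs_lt_of_sq_lt_sq h4 h1.le)).1]

def dt (P Q : P3) : ℤ := P.2.1 * Q.2.2 - P.2.2 * Q.2.1

def pl (e D p q : ℤ) (P Q : P3) : Bool :=
  ok (aa * D + hh * (q * P.2.2 - p * Q.2.2)) (e * D) (q * P.2.2 - p * Q.2.2)
    (p * Q.2.1 - q * P.2.1)

def seg (P Q : P3) : Bool :=
  decide (0 < dt P Q) && pl (-1) (dt P Q) (aa - P.1) (aa - Q.1) P Q &&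
    pl 1 (dt P Q) (aa + P.1) (aa + Q.1) P Q

def chk : P3 → List P3 → Bool
  | P, [] => ok (P.2.2 * hh) 0 P.2.2 (-P.2.1)
  | P, Q :: l => seg P Q && chk Q l

section

variable {u v w : ℝ} (hu : u ^ 2 + v ^ 2 + w ^ 2 = 1)

/-- the side of the plane through the two end points and `P` -/
def side (v w : ℝ) (P : P3) : ℝ := P.2.1 * (sc * w) - P.2.2 * (hh + sc * v)

/-- the scaled height of `P` in the direction `(u, v, w)` -/
def ht (u v w : ℝ) (P : P3) : ℝ := u * P.1 + v * (P.2.1 - hh) + w * P.2.2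

include hu in
theorem seg_cover {P Q : P3} (h : seg P Q = true) (hP : 0 < side v w P) (hQ : side v w Q ≤ 0)
    (hA : ht u v w (-aa, 0, 0) < sc) (hZ : ht u v w (aa, 0, 0) < sc) (h1 : ht u v w P < sc)
    (h2 : ht u v w Q < sc) : False := by
  simp only [seg, pl, Bool.and_eq_true, decide_eq_true_eq] at h
  obtain ⟨⟨-, ha⟩, hz⟩ := h
  have ha' := ok_pos ha hu
  have hz' := ok_pos hz hu
  have h0 : (0 : ℝ) < aa := by norm_num [aa]
  simp only [dt, side, ht] at *
  push_cast at *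
  generalize (P.1 : ℝ) = x at *
  generalize (P.2.1 : ℝ) = y at *
  generalize (P.2.2 : ℝ) = z at *
  generalize (Q.1 : ℝ) = x' at *
  generalize (Q.2.1 : ℝ) = y' at *
  generalize (Q.2.2 : ℝ) = z' at *
  generalize (sc : ℝ) = S at *
  generalize (aa : ℝ) = a at *
  generalize (hh : ℝ) = h at *
  have e1 := mul_pos ha' (sub_pos.2 hA)
  have e2 := mul_pos hz' (sub_pos.2 hZ)
  have e3 := mul_nonneg (mul_nonneg h0.le (neg_nonneg.2 hQ)) (sub_pos.2 h1).le
  have e4 := mul_pos (mul_pos h0 hP) (sub_pos.2 h2)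
  have e5 : 2 * a * (y * z' - z * y') * S * (u ^ 2 + v ^ 2 + w ^ 2 - 1) = 0 := by
    rw [hu, sub_self, mul_zero]
  linarith

include hu in
theorem chk_cover (hA : ht u v w (-aa, 0, 0) < sc) (hZ : ht u v w (aa, 0, 0) < sc) :
    ∀ (l : List P3) (P : P3), chk P l = true → 0 < side v w P → ∃ X ∈ P :: l, sc ≤ ht u v w X
  | [], P, h, hP => by
    have := ok_pos h hu
    simp only [side] at hP
    push_cast at this
    exact absurd this (by linarith)
  | Q :: l, P, h, hP => by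
    simp only [chk, Bool.and_eq_true] at h
    rcases lt_or_ge 0 (side v w Q) with hQ | hQ
    · obtain ⟨X, hX, h'⟩ := chk_cover hA hZ l Q h.2 hQ
      exact ⟨X, List.mem_cons_of_mem _ hX, h'⟩
    · by_contra hcon
      push Not at hcon
      exact seg_cover hu h.1 hP hQ hA hZ (hcon P (by simp)) (hcon Q (by simp))

end

def nwt (N : ℕ) : ℕ → ℕ → ℕ
  | 0, x => x
  | k + 1, x => nwt N k ((x + N / x) / 2 + 1)

def edge (a b c : ℕ) : ℕ :=
  if a * a + b * b + c * c ≤ nwt (a * a + b * b + c * c) 5 (a + b + c + 1) ^ 2 then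
    nwt (a * a + b * b + c * c) 5 (a + b + c + 1) else a + b + c

theorem edge_sq (a b c : ℕ) : a * a + b * b + c * c ≤ edge a b c ^ 2 := by
  unfold edge
  split_ifs with h
  · exact h
  · nlinarith [Nat.zero_le (a * b), Nat.zero_le (a * c), Nat.zero_le (b * c)]

def lenB : P3 → List P3 → ℕ
  | _, [] => 0
  | P, Q :: l => edge (Q.1 - P.1).natAbs (Q.2.1 - P.2.1).natAbs (Q.2.2 - P.2.2).natAbs + lenB Q l

theorem edge_le (P Q : P3) : ‖pt Q - pt P‖ ≤
    (edge (Q.1 - P.1).natAbs (Q.2.1 - P.2.1).natAbs (Q.2.2 - P.2.2).natAbs : ℝ) / sc := by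
  have h0 : (0 : ℝ) < sc := by norm_num [sc]
  have h1 : pt Q - pt P = !₂[((Q.1 - P.1 : ℤ) : ℝ) / sc, ((Q.2.1 - P.2.1 : ℤ) : ℝ) / sc,
      ((Q.2.2 - P.2.2 : ℤ) : ℝ) / sc] := by
    ext i
    fin_cases i <;> simp [pt] <;> ring
  rw [h1]
  refine norm3_le (by positivity) ?_
  have h2 := edge_sq (Q.1 - P.1).natAbs (Q.2.1 - P.2.1).natAbs (Q.2.2 - P.2.2).natAbs
  generalize edge _ _ _ = m at *
  generalize Q.1 - P.1 = a at *
  generalize Q.2.1 - P.2.1 = b at *
  generalize Q.2.2 - P.2.2 = c at *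
  have h3 : a * a + b * b + c * c ≤ (m : ℤ) ^ 2 := by
    rw [← Int.natAbs_mul_self (a := a), ← Int.natAbs_mul_self (a := b),
      ← Int.natAbs_mul_self (a := c)]
    exact_mod_cast h2
  have h4 : (a : ℝ) * a + b * b + c * c ≤ (m : ℝ) ^ 2 := by exact_mod_cast h3
  simp only [div_pow, ← add_div]
  gcongr
  linarith

theorem len_le : ∀ (l : List P3) (P : P3), ∑ j ∈ Finset.range l.length,
    ‖pt ((P :: l).getD (j + 1) 0) - pt ((P :: l).getD j 0)‖ ≤ (lenB P l : ℝ) / sc
  | [], P => by simp [lenB]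
  | Q :: l, P => by
    have h1 := len_le l Q
    have h2 := edge_le P Q
    rw [List.length_cons, Finset.sum_range_succ', lenB, Nat.cast_add, add_div]
    simp only [List.getD_cons_succ, List.getD_cons_zero, zero_add] at h1 ⊢
    linarith

theorem upper (P : P3) (l : List P3) (h1 : ok (-P.2.2 * hh) 0 (-P.2.2) P.2.1 = true)
    (h2 : chk P l = true) (B : ℕ) (h3 : lenB (-aa, 0, 0) (P :: (l ++ [(aa, 0, 0)])) ≤ B) :
    Lstar ≤ ENNReal.ofReal (B / sc) := by
  have h0 : (0 : ℝ) < sc := by norm_num [sc]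
  refine poly_le (P :: (l ++ [(aa, 0, 0)])).length (by simp)
    (fun j => pt (((-aa, 0, 0) :: P :: (l ++ [(aa, 0, 0)])).getD j 0)) (fun U hU => ?_) _
    ((len_le _ _).trans (by gcongr))
  have hsq : U 0 ^ 2 + U 1 ^ 2 + U 2 ^ 2 = 1 := by
    have := real_inner_self_eq_norm_sq U
    rw [inner3, hU] at this
    linarith
  have hX : ∃ X ∈ (-aa, 0, 0) :: P :: (l ++ [(aa, 0, 0)]), sc ≤ ht (U 0) (U 1) (U 2) X := by
    by_contra hcon
    push Not at hcon
    have hP : 0 < side (U 1) (U 2) P := by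
      have := ok_pos h1 hsq
      simp only [side]
      push_cast at this
      linarith
    obtain ⟨X, hX, h⟩ := chk_cover hsq (hcon _ (by simp)) (hcon _ (by simp)) l P h2 hP
    refine absurd h (not_le.2 (hcon X ?_))
    rcases List.mem_cons.1 hX with h' | h' <;> simp [h']
  obtain ⟨X, hX, h⟩ := hX
  obtain ⟨i, hi, rfl⟩ := List.mem_iff_getElem.1 hX
  refine ⟨i, by simpa [Nat.lt_succ_iff] using hi, ?_⟩
  rw [List.getD_eq_getElem _ _ hi, inner3]
  generalize ((-aa, 0, 0) :: P :: (l ++ [(aa, 0, 0)]))[i] = X at *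
  simp only [ht] at h
  have : U 0 * pt X 0 + U 1 * pt X 1 + U 2 * pt X 2 =
      (U 0 * X.1 + U 1 * (X.2.1 - hh) + U 2 * X.2.2) / sc := by
    simp [pt]
    ring
  rw [this, le_div_iff₀ h0]
  linarith

def dec (c : ℕ) : P3 :=
  (Int.subNatNat (c / 10 ^ 24) (3 * 10 ^ 11), Int.subNatNat (c / 10 ^ 12 % 10 ^ 12) (3 * 10 ^ 11),
    Int.subNatNat (c % 10 ^ 12) (3 * 10 ^ 11))

def mirror (X : P3) : P3 := (-X.1, X.2.1, -X.2.2)

def mid : List P3 := half.map dec ++ (half.map dec).reverse.tail.map mirror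

theorem c1 : ok (-(mid.headD 0).2.2 * hh) 0 (-(mid.headD 0).2.2) (mid.headD 0).2.1 = true := by
  decide +kernel

theorem c2 : chk (mid.headD 0) mid.tail = true := by decide +kernel

theorem c3 : lenB (-aa, 0, 0) (mid.headD 0 :: (mid.tail ++ [(aa, 0, 0)])) ≤ 957633000000 := by
  decide +kernel

theorem lstar_le : Lstar ≤ ENNReal.ofReal 9.57633 := by
  refine (upper _ _ c1 c2 _ c3).trans (le_of_eq ?_)
  norm_num [sc]

end Pool.Agent.MP_861c96_gt.H3
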