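import Mathlib

-- part MP_861c96_gt.H50.Sph
section

/-! Spherical coordinates for the volume of a cone inside the unit ball. -/

namespace Pool.Agent.MP_861c96_gt.H50

open Set Real MeasureTheory
open scoped RealInnerProductSpace ENNReal

theorem polar_symm (f : ℝ × ℝ → ℝ≥0∞) (hf : Measurable f) :
    ∫⁻ p, f p = ∫⁻ φ in Ioo (-π) π, ∫⁻ r in Ioi (0 : ℝ),
      ENNReal.ofReal r * f (r * cos φ, r * sin φ) := by
  rw [← lintegral_comp_polarCoord_symm, polarCoord_target, Measure.volume_eq_prod,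
    setLIntegral_prod_symm]
  · rfl
  · refine Measurable.aemeasurable ?_
    change Measurable fun p : ℝ × ℝ => ENNReal.ofReal p.1 * f (p.1 * cos p.2, p.1 * sin p.2)
    fun_prop

theorem radial : ∫⁻ r in Ioi (0 : ℝ), (Iio (1 : ℝ)).indicator (fun r => ENNReal.ofReal (r ^ 2)) r
    = ENNReal.ofReal (1 / 3) := by
  rw [lintegral_indicator measurableSet_Iio, Measure.restrict_restrict measurableSet_Iio,
    Iio_inter_Ioi, ← ofReal_integral_eq_lintegral_ofReal, ← integral_Ioc_eq_integral_Ioo,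
    ← intervalIntegral.integral_of_le zero_le_one, integral_pow]
  · norm_num
  · exact (continuous_pow 2).integrableOn_Icc.mono_set Ioo_subset_Icc_self
  · exact Filter.Eventually.of_forall fun r => sq_nonneg r

theorem sph (S : Set (ℝ × ℝ × ℝ)) (hS : MeasurableSet S)
    (hom : ∀ t, 0 < t → ∀ w x y, (t * w, t * x, t * y) ∈ S ↔ (w, x, y) ∈ S) :
    volume ({p : ℝ × ℝ × ℝ | p.1 ^ 2 + p.2.1 ^ 2 + p.2.2 ^ 2 < 1} ∩ S) =
      ∫⁻ φ in Ioo (-π) π, ∫⁻ θ in Ioo (-π) π, ENNReal.ofReal (cos θ / 3) *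
        S.indicator 1 (sin θ, cos θ * cos φ, cos θ * sin φ) := by
  have hB : MeasurableSet {p : ℝ × ℝ × ℝ | p.1 ^ 2 + p.2.1 ^ 2 + p.2.2 ^ 2 < 1} :=
    measurableSet_lt (by fun_prop) (by fun_prop)
  obtain ⟨F, hF⟩ : ∃ F : ℝ × ℝ × ℝ → ℝ≥0∞,
      F = ({p : ℝ × ℝ × ℝ | p.1 ^ 2 + p.2.1 ^ 2 + p.2.2 ^ 2 < 1} ∩ S).indicator 1 := ⟨_, rfl⟩
  have hFm : Measurable F := hF ▸ measurable_one.indicator (hB.inter hS)
  rw [← lintegral_indicator_one (hB.inter hS), ← hF, Measure.volume_eq_prod,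
    lintegral_prod _ hFm.aemeasurable]
  have h1 : ∀ w : ℝ, ∫⁻ q, F (w, q) = ∫⁻ φ in Ioo (-π) π, ∫⁻ r,
      ENNReal.ofReal r * F (w, r * cos φ, r * sin φ) := by
    intro w
    rw [polar_symm _ (by fun_prop)]
    refine lintegral_congr fun φ => ?_
    refine setLIntegral_eq_of_support_subset fun r hr => ?_
    by_contra h
    exact hr (by simp [ENNReal.ofReal_of_nonpos (not_lt.1 h)])
  simp_rw [h1]
  rw [lintegral_lintegral_swap (Measurable.aemeasurable (Measurable.lintegral_prod_right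
    (f := fun (z : ℝ × ℝ) (r : ℝ) => ENNReal.ofReal r * F (z.1, r * cos z.2, r * sin z.2))
    (by fun_prop)))]
  refine lintegral_congr fun φ => ?_
  have h2 := lintegral_prod_symm (μ := volume) (ν := volume)
    (fun q : ℝ × ℝ => ENNReal.ofReal q.1 * F (q.2, q.1 * cos φ, q.1 * sin φ))
    (Measurable.aemeasurable (by fun_prop))
  rw [← h2, ← Measure.volume_eq_prod, polar_symm _ (by fun_prop)]
  refine lintegral_congr fun θ => ?_
  have h3 : ∀ r ∈ Ioi (0 : ℝ), ENNReal.ofReal r * (ENNReal.ofReal (r * cos θ) *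
      F (r * sin θ, r * cos θ * cos φ, r * cos θ * sin φ)) =
      (Iio (1 : ℝ)).indicator (fun r => ENNReal.ofReal (r ^ 2)) r * (ENNReal.ofReal (cos θ) *
        S.indicator 1 (sin θ, cos θ * cos φ, cos θ * sin φ)) := by
    intro r hr
    have hr0 : 0 < r := hr
    have e : (r * sin θ) ^ 2 + (r * cos θ * cos φ) ^ 2 + (r * cos θ * sin φ) ^ 2 = r ^ 2 := by
      have a := sin_sq_add_cos_sq θ
      have b := sin_sq_add_cos_sq φ
      linear_combination r ^ 2 * a + r ^ 2 * cos θ ^ 2 * b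
    have hh := hom r hr0 (sin θ) (cos θ * cos φ) (cos θ * sin φ)
    rw [← mul_assoc r, ← mul_assoc r] at hh
    rw [hF, ENNReal.ofReal_mul hr0.le]
    by_cases h1 : r < 1
    · have h1' : r ^ 2 < 1 := by nlinarith
      by_cases h2 : (sin θ, cos θ * cos φ, cos θ * sin φ) ∈ S
      · rw [indicator_of_mem (by exact ⟨by simpa only [mem_ofPred_eq, e] using h1', hh.2 h2⟩),
          indicator_of_mem h2, indicator_of_mem (by exact h1), sq, ENNReal.ofReal_mul hr0.le]
        simp only [Pi.one_apply]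
        ring
      · rw [indicator_of_notMem (fun h => h2 (hh.1 h.2)), indicator_of_notMem h2]
        simp
    · have h1' : ¬ r ^ 2 < 1 := by nlinarith
      rw [indicator_of_notMem (fun h => h1' (by simpa only [mem_ofPred_eq, e] using h.1)),
        indicator_of_notMem (s := Iio 1) (by exact h1)]
      simp
  rw [setLIntegral_congr_fun measurableSet_Ioi h3, lintegral_mul_const _
    (Measurable.indicator (by fun_prop) measurableSet_Iio), radial, ← mul_assoc,
    ← ENNReal.ofReal_mul (by norm_num)]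
  congr 2
  ring

theorem coords (b : OrthonormalBasis (Fin 3) ℝ (EuclideanSpace ℝ (Fin 3))) :
    MeasurePreserving (fun v : EuclideanSpace ℝ (Fin 3) => (⟪b 2, v⟫, ⟪b 0, v⟫, ⟪b 1, v⟫))
      volume volume := by
  have h1 := (((MeasurePreserving.id (volume : Measure ℝ)).prod
    (volume_preserving_finTwoArrow ℝ)).comp
    (volume_preserving_piFinSuccAbove (fun _ : Fin 3 => ℝ) 2)).comp
    ((PiLp.volume_preserving_ofLp (Fin 3)).comp b.measurePreserving_repr)
  simp only [← b.repr_apply_apply]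
  exact h1

end Pool.Agent.MP_861c96_gt.H50

end

-- part MP_861c96_gt.H50.Gam
section

/-! The signed measure of a cap. -/

namespace Pool.Agent.MP_861c96_gt.H50

open Set Real MeasureTheory
open scoped RealInnerProductSpace ENNReal

abbrev E := EuclideanSpace ℝ (Fin 3)

noncomputable def kk (s : ℝ) : ℝ := 4 * √(s - 1) / max s 1

theorem kk_nonneg (s : ℝ) : 0 ≤ kk s := by
  unfold kk
  have : 0 < max s 1 := lt_max_of_lt_right one_pos
  positivity

theorem kk_cont : Continuous kk := by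
  unfold kk
  exact Continuous.div (by fun_prop) (by fun_prop)
    fun s => (lt_max_of_lt_right one_pos).ne'

def cap (x : E) : Set E := {v | ‖v‖ ≤ ⟪v, x⟫}

def pos (T : E) : Set E := {v | 0 < ⟪v, T⟫}

noncomputable def mu : Measure E := volume.restrict (Metric.ball 0 1)

theorem cap_meas (x : E) : MeasurableSet (cap x) := measurableSet_le (by fun_prop) (by fun_prop)

theorem pos_meas (x : E) : MeasurableSet (pos x) := measurableSet_lt (by fun_prop) (by fun_prop)

instance : IsFiniteMeasure mu := by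
  unfold mu
  exact isFiniteMeasure_restrict.2 measure_ball_lt_top.ne

theorem lint_cos {a b : ℝ} (ha : -(π / 2) ≤ a) (hab : a ≤ b) (hb : b ≤ π / 2) :
    ∫⁻ θ in Icc a b, ENNReal.ofReal (cos θ / 3) = ENNReal.ofReal ((sin b - sin a) / 3) := by
  rw [← ofReal_integral_eq_lintegral_ofReal, integral_Icc_eq_integral_Ioc,
    ← intervalIntegral.integral_of_le hab, intervalIntegral.integral_div, integral_cos]
  · exact (by fun_prop : Continuous fun θ => cos θ / 3).integrableOn_Icc
  · filter_upwards [ae_restrict_mem measurableSet_Icc] with θ hθ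
    exact div_nonneg (cos_nonneg_of_mem_Icc ⟨ha.trans hθ.1, hθ.2.trans hb⟩) (by norm_num)

theorem mem_of_cos_pos {θ : ℝ} (h : θ ∈ Ioo (-π) π) (hc : 0 < cos θ) :
    θ ∈ Ioo (-(π / 2)) (π / 2) := by
  constructor
  · by_contra h1
    have := cos_nonpos_of_pi_div_two_le_of_le (x := -θ) (by linarith [not_lt.1 h1])
      (by linarith [h.1, pi_pos])
    rw [cos_neg] at this
    linarith
  · by_contra h1
    have := cos_nonpos_of_pi_div_two_le_of_le (not_lt.1 h1) (by linarith [h.2, pi_pos])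
    linarith

theorem lint_theta (c : ℝ) :
    ∫⁻ θ in Ioo (-π) π, ENNReal.ofReal (cos θ / 3) * {θ | 1 ≤ c * cos θ}.indicator 1 θ =
      ENNReal.ofReal (kk (c ^ 2) * c / 6) := by
  rcases lt_or_ge c 1 with hc | hc
  · have h1 : ENNReal.ofReal (kk (c ^ 2) * c / 6) = 0 := by
      rcases le_total c 0 with h0 | h0
      · exact ENNReal.ofReal_of_nonpos (by nlinarith [kk_nonneg (c ^ 2)])
      · rw [kk, sqrt_eq_zero'.2 (by nlinarith)]
        simp
    rw [h1]
    refine (lintegral_congr fun θ => ?_).trans lintegral_zero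
    rcases le_total (cos θ) 0 with h0 | h0
    · rw [ENNReal.ofReal_of_nonpos (by linarith), zero_mul]
    · rw [indicator_of_notMem, mul_zero]
      intro h
      have h2 : 1 ≤ c * cos θ := h
      have h3 := cos_le_one θ
      rcases le_total c 0 with h4 | h4 <;> nlinarith
  · have hc0 : 0 < c := by linarith
    have hi : c⁻¹ ≤ 1 := inv_le_one_of_one_le₀ hc
    have hi0 : 0 < c⁻¹ := inv_pos.2 hc0
    have a0 := arccos_nonneg c⁻¹
    have a1 : arccos c⁻¹ ≤ π / 2 := arccos_le_pi_div_two.2 hi0.le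
    have h1 : ∀ θ ∈ Ioo (-π) π,
        ENNReal.ofReal (cos θ / 3) * {θ | 1 ≤ c * cos θ}.indicator 1 θ =
        (Icc (-arccos c⁻¹) (arccos c⁻¹)).indicator (fun θ => ENNReal.ofReal (cos θ / 3)) θ := by
      intro θ hθ
      have h2 : 1 ≤ c * cos θ ↔ θ ∈ Icc (-arccos c⁻¹) (arccos c⁻¹) := by
        rw [mem_Icc, ← abs_le, ← cos_abs, ← inv_mul_le_iff₀ hc0, mul_one]
        have h3 : |θ| ≤ π := abs_le.2 ⟨hθ.1.le, hθ.2.le⟩
        constructor
        · intro h
          rw [← arccos_cos (abs_nonneg θ) h3]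
          exact arccos_le_arccos h
        · intro h
          rw [← cos_arccos (x := c⁻¹) (by linarith) hi]
          exact cos_le_cos_of_nonneg_of_le_pi (abs_nonneg θ) (arccos_le_pi _) h
      by_cases h : 1 ≤ c * cos θ
      · rw [indicator_of_mem (by exact h), indicator_of_mem (h2.1 h)]
        simp
      · rw [indicator_of_notMem (by exact h), indicator_of_notMem (fun h' => h (h2.2 h'))]
        simp
    rw [setLIntegral_congr_fun measurableSet_Ioo h1, lintegral_indicator measurableSet_Icc,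
      Measure.restrict_restrict measurableSet_Icc, inter_eq_left.2
        (Icc_subset_Ioo (by linarith [pi_pos]) (by linarith [pi_pos])),
      lint_cos (by linarith) (by linarith) a1, sin_neg, sin_arccos, kk,
      max_eq_left (by nlinarith)]
    congr 1
    have : √(c ^ 2 - 1) = c * √(1 - c⁻¹ ^ 2) := by
      rw [← sqrt_sq hc0.le, ← sqrt_mul (sq_nonneg c), sqrt_sq hc0.le]
      congr 1
      field_simp
    rw [this]
    field_simp
    ring

theorem exists_basis (x T : E) : ∃ b : OrthonormalBasis (Fin 3) ℝ E,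
    0 ≤ ⟪b 0, x⟫ ∧ ⟪b 1, x⟫ = 0 ∧ ⟪b 2, x⟫ = 0 ∧ 0 ≤ ⟪b 1, T⟫ ∧ ⟪b 2, T⟫ = 0 := by
  have h : Module.finrank ℝ E = Fintype.card (Fin 3) := by simp
  set f : Fin 3 → E := ![x, T, 0] with hf
  set g := InnerProductSpace.gramSchmidtOrthonormalBasis h f with hg
  set w : Fin 3 → E := fun i => if 0 ≤ ⟪g i, f i⟫ then g i else -g i with hw
  have hw1 : ∀ i, w i = g i ∨ w i = -g i := fun i => by
    simp only [hw]; split_ifs <;> simp
  have hwo := g.orthonormal.orthonormal_of_forall_eq_or_eq_neg hw1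
  obtain ⟨b, hb⟩ := Orthonormal.exists_orthonormalBasis_extension_of_card_eq h (v := w)
    (s := univ) (hwo.comp _ Subtype.val_injective)
  have h1 : ∀ i, 0 ≤ ⟪b i, f i⟫ := fun i => by
    rw [hb i trivial]
    simp only [hw]
    split_ifs with h2
    · exact h2
    · rw [inner_neg_left]; linarith
  have h2 : ∀ i j, i < j → ⟪b j, f i⟫ = 0 := fun i j hij => by
    have := InnerProductSpace.gramSchmidtOrthonormalBasis_inv_triangular h f hij
    rw [hb j trivial]
    rcases hw1 j with h3 | h3 <;> rw [h3]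
    · exact this
    · rw [inner_neg_left, this, neg_zero]
  exact ⟨b, h1 0, h2 0 1 (by decide), h2 0 2 (by decide), h1 1, h2 1 2 (by decide)⟩

theorem inner_coord (b : OrthonormalBasis (Fin 3) ℝ E) (v x : E) :
    ⟪v, x⟫ = ⟪b 0, v⟫ * ⟪b 0, x⟫ + ⟪b 1, v⟫ * ⟪b 1, x⟫ + ⟪b 2, v⟫ * ⟪b 2, x⟫ := by
  rw [← b.sum_inner_mul_inner v x, Fin.sum_univ_three, real_inner_comm (b 0) v,
    real_inner_comm (b 1) v, real_inner_comm (b 2) v]

theorem mu_coord (b : OrthonormalBasis (Fin 3) ℝ E) (S : Set (ℝ × ℝ × ℝ)) (hS : MeasurableSet S)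
    (A : Set E) (hA : MeasurableSet A) (h : ∀ v, v ∈ A ↔ (⟪b 2, v⟫, ⟪b 0, v⟫, ⟪b 1, v⟫) ∈ S) :
    mu A = volume ({p : ℝ × ℝ × ℝ | p.1 ^ 2 + p.2.1 ^ 2 + p.2.2 ^ 2 < 1} ∩ S) := by
  rw [mu, Measure.restrict_apply hA, ← (coords b).measure_preimage
    ((measurableSet_lt (by fun_prop) (by fun_prop)).inter hS).nullMeasurableSet]
  congr 1
  ext v
  have h1 := inner_coord b v v
  rw [real_inner_self_eq_norm_sq] at h1
  simp only [mem_inter_iff, mem_preimage, mem_ofPred_eq, h v, mem_ball_zero_iff]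
  have h2 : ‖v‖ < 1 ↔ ‖v‖ ^ 2 < 1 := by
    rw [sq_lt_one_iff₀ (norm_nonneg v)]
  rw [h2, h1, and_comm]
  congr! 2
  ring

theorem norm_coord (b : OrthonormalBasis (Fin 3) ℝ E) (v : E) :
    ‖v‖ = √(⟪b 2, v⟫ ^ 2 + ⟪b 0, v⟫ ^ 2 + ⟪b 1, v⟫ ^ 2) := by
  have h1 := inner_coord b v v
  rw [real_inner_self_eq_norm_sq] at h1
  rw [← sqrt_sq (norm_nonneg v), h1]
  congr 1
  ring

theorem sqrt_hom {t : ℝ} (ht : 0 < t) (w x y : ℝ) :
    √((t * w) ^ 2 + (t * x) ^ 2 + (t * y) ^ 2) = t * √(w ^ 2 + x ^ 2 + y ^ 2) := by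
  rw [show (t * w) ^ 2 + (t * x) ^ 2 + (t * y) ^ 2 = t ^ 2 * (w ^ 2 + x ^ 2 + y ^ 2) by ring,
    sqrt_mul (sq_nonneg t), sqrt_sq ht.le]

theorem sqrt_sph (θ φ : ℝ) :
    √(sin θ ^ 2 + (cos θ * cos φ) ^ 2 + (cos θ * sin φ) ^ 2) = 1 := by
  have a := sin_sq_add_cos_sq θ
  have b := sin_sq_add_cos_sq φ
  rw [show sin θ ^ 2 + (cos θ * cos φ) ^ 2 + (cos θ * sin φ) ^ 2 = 1 by
    linear_combination a + cos θ ^ 2 * b, sqrt_one]

theorem mu_cap_pos (x T : E) (hT : ‖T‖ = 1) :
    mu.real (cap x ∩ pos T) = (∫ y in (-⟪x, T⟫)..‖x‖, kk (‖x‖ ^ 2 - y ^ 2)) / 6 := by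
  obtain ⟨b, x0, x1, x2, T1, T2⟩ := exists_basis x T
  have hx : ⟪b 0, x⟫ = ‖x‖ := by
    rw [norm_coord b x, x1, x2]
    simp [sqrt_sq x0]
  have hT' : ⟪b 0, T⟫ ^ 2 + ⟪b 1, T⟫ ^ 2 = 1 := by
    have h1 := inner_coord b T T
    rw [real_inner_self_eq_norm_sq, hT, T2] at h1
    linarith
  set h := ‖x‖ with hh
  have h0 : 0 ≤ h := norm_nonneg x
  set β := arcsin ⟪b 0, T⟫ with hβ
  have hs : sin β = ⟪b 0, T⟫ :=
    sin_arcsin (by nlinarith [sq_nonneg ⟪b 1, T⟫]) (by nlinarith [sq_nonneg ⟪b 1, T⟫])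
  have hc : cos β = ⟪b 1, T⟫ := by
    rw [hβ, cos_arcsin, ← sqrt_sq T1]
    congr 1
    linarith
  have β1 := neg_pi_div_two_le_arcsin ⟪b 0, T⟫
  have β2 := arcsin_le_pi_div_two ⟪b 0, T⟫
  rw [← hβ] at β1 β2
  have hp : ⟪x, T⟫ = h * sin β := by rw [inner_coord b x T, hx, x1, x2, hs]; ring
  have hS : MeasurableSet {p : ℝ × ℝ × ℝ | √(p.1 ^ 2 + p.2.1 ^ 2 + p.2.2 ^ 2) ≤ h * p.2.1 ∧
      0 < p.2.1 * sin β + p.2.2 * cos β} := by
    rw [ofPred_and]
    exact (measurableSet_le (by fun_prop) (by fun_prop)).inter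
      (measurableSet_lt (by fun_prop) (by fun_prop))
  have h1 := mu_coord b _ hS (cap x ∩ pos T) ((cap_meas x).inter (pos_meas T)) (fun v => by
    simp only [cap, pos, mem_inter_iff, mem_ofPred_eq]
    rw [inner_coord b v x, inner_coord b v T, ← norm_coord b v, hx, x1, x2, T2, hs, hc]
    simp [mul_comm])
  rw [sph _ hS (fun t ht w x y => by
    simp only [mem_ofPred_eq, sqrt_hom ht]
    rw [show h * (t * x) = t * (h * x) by ring, mul_le_mul_iff_right₀ ht,
      show t * x * sin β + t * y * cos β = t * (x * sin β + y * cos β) by ring,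
      mul_pos_iff_of_pos_left ht])] at h1
  have h2 : ∀ φ ∈ Ioo (-π) π, ∫⁻ θ in Ioo (-π) π, ENNReal.ofReal (cos θ / 3) *
      {p : ℝ × ℝ × ℝ | √(p.1 ^ 2 + p.2.1 ^ 2 + p.2.2 ^ 2) ≤ h * p.2.1 ∧
      0 < p.2.1 * sin β + p.2.2 * cos β}.indicator 1 (sin θ, cos θ * cos φ, cos θ * sin φ) =
      (Ioo (-β) (π / 2)).indicator
        (fun φ => ENNReal.ofReal (kk ((h * cos φ) ^ 2) * (h * cos φ) / 6)) φ := by
    intro φ hφ
    by_cases h3 : φ ∈ Ioo (-β) (π / 2)
    · rw [indicator_of_mem h3, ← lint_theta]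
      refine lintegral_congr fun θ => ?_
      rcases le_or_gt (cos θ) 0 with h4 | h4
      · rw [ENNReal.ofReal_of_nonpos (by linarith), zero_mul, zero_mul]
      · have h5 : 0 < sin (φ + β) :=
          sin_pos_of_pos_of_lt_pi (by linarith [h3.1]) (by linarith [h3.2])
        rw [sin_add] at h5
        have h6 : 0 < cos θ * cos φ * sin β + cos θ * sin φ * cos β := by
          have := mul_pos h4 h5
          linarith
        congr 1
        simp only [indicator, mem_ofPred_eq, sqrt_sph, h6, and_true, Pi.one_apply]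
        rw [show h * (cos θ * cos φ) = h * cos φ * cos θ by ring]
    · rw [indicator_of_notMem h3]
      refine (lintegral_congr fun θ => ?_).trans lintegral_zero
      rcases le_or_gt (cos θ) 0 with h4 | h4
      · rw [ENNReal.ofReal_of_nonpos (by linarith), zero_mul]
      · rw [indicator_of_notMem, mul_zero]
        rintro ⟨h5, h6⟩
        simp only [sqrt_sph] at h5 h6
        have h7 : 0 < cos φ := by
          by_contra h7
          have := mul_nonneg h0 (mul_nonneg h4.le (neg_nonneg.2 (not_lt.1 h7)))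
          linarith
        have h8 := mem_of_cos_pos hφ h7
        have h9 : φ + β ≤ 0 := by
          by_contra h9
          exact h3 ⟨by linarith, h8.2⟩
        have h10 := sin_nonpos_of_nonpos_of_neg_pi_le h9 (by linarith [h8.1])
        rw [sin_add] at h10
        have := mul_nonneg h4.le (neg_nonneg.2 h10)
        linarith
  have hcont : Continuous fun φ => kk ((h * cos φ) ^ 2) * (h * cos φ) / 6 := by
    have := kk_cont
    fun_prop
  have hnn : ∀ φ ∈ Ioo (-β) (π / 2), 0 ≤ kk ((h * cos φ) ^ 2) * (h * cos φ) / 6 := fun φ hφ =>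
    div_nonneg (mul_nonneg (kk_nonneg _) (mul_nonneg h0
      (cos_nonneg_of_mem_Icc ⟨by linarith [hφ.1], hφ.2.le⟩))) (by norm_num)
  rw [setLIntegral_congr_fun measurableSet_Ioo h2, lintegral_indicator measurableSet_Ioo,
    Measure.restrict_restrict measurableSet_Ioo, inter_eq_left.2
      (Ioo_subset_Ioo (by linarith [pi_pos]) (by linarith [pi_pos])),
    ← ofReal_integral_eq_lintegral_ofReal (hcont.integrableOn_Icc.mono_set Ioo_subset_Icc_self)
      ((ae_restrict_mem measurableSet_Ioo).mono hnn)] at h1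
  rw [Measure.real, h1, ENNReal.toReal_ofReal (setIntegral_nonneg measurableSet_Ioo hnn),
    ← integral_Ioc_eq_integral_Ioo, ← intervalIntegral.integral_of_le (by linarith),
    intervalIntegral.integral_div]
  congr 1
  have h3 := intervalIntegral.integral_comp_mul_deriv (a := -β) (b := π / 2)
    (f := fun φ => h * sin φ) (f' := fun φ => h * cos φ) (g := fun y => kk (h ^ 2 - y ^ 2))
    (fun φ _ => (hasDerivAt_sin φ).const_mul h) (by fun_prop) (by have := kk_cont; fun_prop)
  rw [sin_neg, sin_pi_div_two, mul_one, mul_neg, ← hp] at h3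
  rw [← h3]
  refine intervalIntegral.integral_congr fun φ _ => ?_
  simp only [Function.comp]
  congr 2
  linear_combination h ^ 2 * sin_sq_add_cos_sq φ

noncomputable def Gam (x T : E) : ℝ := mu.real (cap x ∩ pos T) - mu.real (cap x ∩ pos (-T))

theorem Gam_eq (x T : E) (hT : ‖T‖ = 1) :
    3 * Gam x T = ∫ y in (0 : ℝ)..⟪x, T⟫, kk (‖x‖ ^ 2 - y ^ 2) := by
  have hc : Continuous fun y => kk (‖x‖ ^ 2 - y ^ 2) := by have := kk_cont; fun_prop
  rw [Gam, mu_cap_pos x T hT, mu_cap_pos x (-T) (by rwa [norm_neg]), inner_neg_right, neg_neg]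
  have h1 := intervalIntegral.integral_add_adjacent_intervals (μ := volume)
    (hc.intervalIntegrable (-⟪x, T⟫) 0) (hc.intervalIntegrable 0 ‖x‖)
  have h2 := intervalIntegral.integral_add_adjacent_intervals (μ := volume)
    (hc.intervalIntegrable 0 ⟪x, T⟫) (hc.intervalIntegrable ⟪x, T⟫ ‖x‖)
  have h3 := intervalIntegral.integral_comp_neg (a := 0) (b := ⟪x, T⟫)
    (fun y => kk (‖x‖ ^ 2 - y ^ 2))
  simp only [neg_sq, neg_zero] at h3
  linarith

theorem mu_univ : 3 * mu.real univ = 4 * π := by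
  rw [Measure.real, mu, Measure.restrict_apply_univ, EuclideanSpace.volume_ball_fin_three]
  simp only [ENNReal.ofReal_one, one_pow, one_mul]
  rw [ENNReal.toReal_ofReal (by positivity)]
  ring

theorem mu_cap (x : E) : 3 * mu.real (cap x) ≤ 2 * π * (1 - 1 / max ‖x‖ 1) := by
  obtain ⟨b', x0, x1, x2, -, -⟩ := exists_basis x x
  set b := b'.reindex (Equiv.swap 0 2) with hb
  have b0 : b 0 = b' 2 := by simp [hb]
  have b1 : b 1 = b' 1 := by simp [hb, Equiv.swap_apply_def]
  have b2 : b 2 = b' 0 := by simp [hb]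
  rw [← b0] at x2
  rw [← b1] at x1
  rw [← b2] at x0
  have hx : ⟪b 2, x⟫ = ‖x‖ := by
    rw [norm_coord b x, x1, x2]
    simp [sqrt_sq x0]
  set h := ‖x‖ with hh
  have h0 : 0 ≤ h := norm_nonneg x
  have hm : 1 ≤ max h 1 := le_max_right _ _
  have hi : 1 / max h 1 ≤ 1 := by rw [div_le_one (by linarith)]; exact hm
  have hi0 : 0 ≤ 1 / max h 1 := by positivity
  have hS : MeasurableSet {p : ℝ × ℝ × ℝ | √(p.1 ^ 2 + p.2.1 ^ 2 + p.2.2 ^ 2) ≤ h * p.1} :=
    measurableSet_le (by fun_prop) (by fun_prop)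
  have h1 := mu_coord b _ hS (cap x) (cap_meas x) (fun v => by
    simp only [cap, mem_ofPred_eq]
    rw [inner_coord b v x, ← norm_coord b v, hx, x1, x2]
    simp [mul_comm])
  rw [sph _ hS (fun t ht w x y => by
    simp only [mem_ofPred_eq, sqrt_hom ht]
    rw [show h * (t * w) = t * (h * w) by ring, mul_le_mul_iff_right₀ ht])] at h1
  have h2 : ∀ φ, ∫⁻ θ in Ioo (-π) π, ENNReal.ofReal (cos θ / 3) *
      {p : ℝ × ℝ × ℝ | √(p.1 ^ 2 + p.2.1 ^ 2 + p.2.2 ^ 2) ≤ h * p.1}.indicator 1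
        (sin θ, cos θ * cos φ, cos θ * sin φ) ≤ ENNReal.ofReal ((1 - 1 / max h 1) / 3) := by
    intro φ
    have h3 := lint_cos (neg_pi_div_two_le_arcsin (1 / max h 1)) (arcsin_le_pi_div_two _) le_rfl
    rw [sin_pi_div_two, sin_arcsin (by linarith) hi] at h3
    rw [← h3, ← lintegral_indicator measurableSet_Icc, ← lintegral_indicator measurableSet_Ioo]
    refine lintegral_mono fun θ => ?_
    by_cases h4 : θ ∈ Ioo (-π) π
    swap
    · rw [indicator_of_notMem h4]; exact zero_le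
    rw [indicator_of_mem h4]
    rcases le_or_gt (cos θ) 0 with h5 | h5
    · rw [ENNReal.ofReal_of_nonpos (by linarith), zero_mul]; exact zero_le
    by_cases h6 : 1 ≤ h * sin θ
    · have h7 := mem_of_cos_pos h4 h5
      have h8 : 0 < sin θ := by
        by_contra h8
        have := mul_nonneg h0 (neg_nonneg.2 (not_lt.1 h8))
        linarith
      have h9 : 1 / max h 1 ≤ sin θ := by
        rw [div_le_iff₀ (by linarith)]
        nlinarith [le_max_left h 1]
      rw [indicator_of_mem (by simpa only [mem_ofPred_eq, sqrt_sph] using h6),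
        indicator_of_mem (by exact ⟨(arcsin_le_iff_le_sin ⟨by linarith, hi⟩
          ⟨h7.1.le, h7.2.le⟩).2 h9, h7.2.le⟩)]
      simp
    · rw [indicator_of_notMem (by simpa only [mem_ofPred_eq, sqrt_sph] using h6), mul_zero]
      exact zero_le
  have h3 := lintegral_mono (μ := volume.restrict (Ioo (-π) π)) h2
  rw [← h1, setLIntegral_const, Real.volume_Ioo, ← ENNReal.ofReal_mul (by linarith)] at h3
  have h4 := ENNReal.toReal_le_of_le_ofReal (mul_nonneg (by linarith) (by linarith [pi_pos])) h3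
  rw [Measure.real]
  linarith

end Pool.Agent.MP_861c96_gt.H50

end

-- part MP_861c96_gt.H50.Pot
section

/-! The potential argument. -/

namespace Pool.Agent.MP_861c96_gt.H50

open Set Real MeasureTheory

noncomputable def DD (lam H p : ℝ) : ℝ := lam * p - ∫ y in (0 : ℝ)..p, kk (H - y ^ 2)

noncomputable def JJ (wt : ℝ → ℝ) (B M p : ℝ) : ℝ :=
  ∫ r in (0 : ℝ)..B, wt (M - 2 * max p 0 * r - r ^ 2)

structure Wt (lam s0 : ℝ) (wt : ℝ → ℝ) : Prop where
  mono : Monotone wt
  nonneg : ∀ s, 0 ≤ wt s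
  bdd : ∀ s, wt s ≤ lam
  le : ∀ s, s0 ≤ s → wt s ≤ lam - kk s

variable {lam s0 B : ℝ} {wt : ℝ → ℝ}

theorem Wt.int (h : Wt lam s0 wt) {f : ℝ → ℝ} (hf : Continuous f) (a b : ℝ) :
    IntervalIntegrable (fun r => wt (f r)) volume a b := by
  refine (intervalIntegrable_const (c := lam)).mono_fun'
    (h.mono.measurable.comp hf.measurable).aestronglyMeasurable
    (Filter.Eventually.of_forall fun r => ?_)
  simp only [norm_eq_abs, abs_of_nonneg (h.nonneg _)]
  exact h.bdd _

theorem DD_neg (lam H p : ℝ) : DD lam H (-p) = -DD lam H p := by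
  have h3 := intervalIntegral.integral_comp_neg (a := 0) (b := p) (fun y => kk (H - y ^ 2))
  simp only [neg_sq, neg_zero] at h3
  rw [DD, DD, h3, intervalIntegral.integral_symm]
  ring

theorem DD_zero (lam H : ℝ) : DD lam H 0 = 0 := by simp [DD]

theorem Wt.JJ_le (h : Wt lam s0 wt) (hB : 0 ≤ B) {M M' p q : ℝ} (hM : M ≤ M')
    (hp : max p 0 ≤ max q 0) : JJ wt B M q ≤ JJ wt B M' p := by
  refine intervalIntegral.integral_mono_on hB (h.int (by fun_prop) _ _) (h.int (by fun_prop) _ _)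
    fun r hr => h.mono ?_
  nlinarith [mul_le_mul_of_nonneg_right hp hr.1]

theorem JJ_zero (hB : 0 ≤ B) {M : ℝ} (hz : ∀ s, s ≤ M → wt s = 0) (p : ℝ) : JJ wt B M p = 0 := by
  rw [JJ, intervalIntegral.integral_congr (g := fun _ => 0), intervalIntegral.integral_zero]
  intro r hr
  rw [uIcc_of_le hB] at hr
  refine hz _ ?_
  nlinarith [mul_nonneg (le_max_right p 0) hr.1, sq_nonneg r]

theorem Wt.JJ_diff (h : Wt lam s0 wt) (H : ℝ) {p q : ℝ} (hp : 0 ≤ p) (hpq : p ≤ q) :
    JJ wt B (H - p ^ 2) p - JJ wt B (H - q ^ 2) q ≤ ∫ y in p..q, wt (H - y ^ 2) := by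
  have e : ∀ p, 0 ≤ p → JJ wt B (H - p ^ 2) p = ∫ y in p..B + p, wt (H - y ^ 2) := by
    intro p hp
    have := intervalIntegral.integral_comp_add_right (a := 0) (b := B)
      (fun y => wt (H - y ^ 2)) p
    rw [zero_add] at this
    rw [← this, JJ, max_eq_left hp]
    congr 1
    ext r
    congr 1
    ring
  have i := fun a b => h.int (f := fun y => H - y ^ 2) (by fun_prop) a b
  rw [e p hp, e q (hp.trans hpq)]
  have h1 := intervalIntegral.integral_add_adjacent_intervals (i p q) (i q (B + q))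
  have h2 := intervalIntegral.integral_add_adjacent_intervals (i p (B + p)) (i (B + p) (B + q))
  have h3 : 0 ≤ ∫ y in B + p..B + q, wt (H - y ^ 2) :=
    intervalIntegral.integral_nonneg (by linarith) fun _ _ => h.nonneg _
  linarith

theorem Wt.vertex (h : Wt lam s0 wt) (hB : 0 ≤ B) {H p q : ℝ} (hpq : p ≤ q)
    (hp : s0 ≤ H - p ^ 2) (hq : s0 ≤ H - q ^ 2) :
    DD lam H p + JJ wt B (H - p ^ 2) p ≤ DD lam H q + JJ wt B (H - q ^ 2) q := by
  have i := fun a b => h.int (f := fun y => H - y ^ 2) (by fun_prop) a b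
  have hc : Continuous fun y => kk (H - y ^ 2) := by have := kk_cont; fun_prop
  have h1 : ∫ y in p..q, wt (H - y ^ 2) ≤ DD lam H q - DD lam H p := by
    have h2 := intervalIntegral.integral_add_adjacent_intervals (μ := volume)
      (hc.intervalIntegrable 0 p) (hc.intervalIntegrable p q)
    have h3 : ∫ y in p..q, wt (H - y ^ 2) ≤ ∫ y in p..q, (lam - kk (H - y ^ 2)) := by
      refine intervalIntegral.integral_mono_on hpq (i _ _)
        ((continuous_const.sub hc).intervalIntegrable _ _) fun y hy => h.le _ ?_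
      rcases le_total y 0 with h4 | h4 <;> nlinarith [hy.1, hy.2]
    rw [intervalIntegral.integral_sub intervalIntegrable_const (hc.intervalIntegrable _ _),
      intervalIntegral.integral_const, smul_eq_mul] at h3
    rw [DD, DD]
    linarith
  have h5 : ∀ p q : ℝ, p ≤ q → q ≤ 0 → JJ wt B (H - p ^ 2) p ≤ JJ wt B (H - q ^ 2) q :=
    fun p q h6 h7 => h.JJ_le hB (by nlinarith) (by rw [max_eq_right h7]; exact le_max_right _ _)
  have h8 : ∀ p q : ℝ, p ≤ q → 0 ≤ ∫ y in p..q, wt (H - y ^ 2) := fun p q h9 =>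
    intervalIntegral.integral_nonneg h9 fun _ _ => h.nonneg _
  rcases le_total 0 p with h2 | h2
  · linarith [h.JJ_diff (B := B) H h2 hpq]
  rcases le_total q 0 with h3 | h3
  · linarith [h5 p q hpq h3, h8 p q hpq]
  · have h4 := intervalIntegral.integral_add_adjacent_intervals (i p 0) (i 0 q)
    linarith [h.JJ_diff (B := B) H le_rfl h3, h5 p 0 h2 le_rfl, h8 p 0 h2]

theorem Wt.chain (h : Wt lam s0 wt) (hB : 0 ≤ B) (n : ℕ) (H a b : ℕ → ℝ)
    (hab : ∀ j, j ≤ n → a j ≤ b j) (hM : ∀ j, j ≤ n → H (j + 1) - b j ^ 2 = H j - a j ^ 2)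
    (hs : ∀ j, j ≤ n → s0 ≤ H j - a j ^ 2) (h0 : a 0 ≤ 0) (hn : 0 ≤ b n)
    (hv : ∀ j, j < n → a (j + 1) ≤ b j) (k : ℕ) (hk : k ≤ n)
    (hz : ∀ s, s ≤ H k - a k ^ 2 → wt s = 0) :
    JJ wt B (H 0) 0 + JJ wt B (H (n + 1)) 0 ≤
      ∑ j ∈ Finset.range (n + 1), (DD lam (H (j + 1)) (b j) - DD lam (H j) (a j)) := by
  have back : ∀ i, i ≤ n → JJ wt B (H 0) 0 + DD lam (H i) (a i) -
      JJ wt B (H i - a i ^ 2) (-a i) ≤
      ∑ j ∈ Finset.range i, (DD lam (H (j + 1)) (b j) - DD lam (H j) (a j)) := by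
    intro i
    induction i with
    | zero =>
      intro _
      have h1 := hs 0 n.zero_le
      have := h.vertex hB (H := H 0) (p := 0) (q := -a 0) (by linarith)
        (by nlinarith [sq_nonneg (a 0)]) (by rwa [neg_sq])
      rw [DD_neg, DD_zero, neg_sq] at this
      simp only [ne_eq, OfNat.ofNat_ne_zero, not_false_eq_true, zero_pow, sub_zero] at this
      rw [Finset.sum_range_zero]
      linarith
    | succ i ih =>
      intro hi
      have h1 := ih (by omega)
      have h2 := h.vertex hB (H := H (i + 1)) (p := -b i) (q := -a (i + 1))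
        (by linarith [hv i hi]) (by rw [neg_sq, hM i (by omega)]; exact hs i (by omega))
        (by rw [neg_sq]; exact hs _ hi)
      rw [DD_neg, DD_neg, neg_sq, neg_sq, hM i (by omega)] at h2
      have h3 := h.JJ_le hB (M := H i - a i ^ 2) le_rfl (p := -b i) (q := -a i)
        (max_le_max_right _ (by linarith [hab i (by omega)]))
      rw [Finset.sum_range_succ]
      linarith
  have fwd : ∀ i, k ≤ i → i ≤ n → JJ wt B (H 0) 0 + DD lam (H (i + 1)) (b i) +
      JJ wt B (H i - a i ^ 2) (b i) ≤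
      ∑ j ∈ Finset.range (i + 1), (DD lam (H (j + 1)) (b j) - DD lam (H j) (a j)) := by
    intro i hi
    induction i, hi using Nat.le_induction with
    | base =>
      intro _
      have h1 := back k hk
      rw [JJ_zero hB hz] at h1
      rw [JJ_zero hB hz, Finset.sum_range_succ]
      linarith
    | succ i hi ih =>
      intro hi'
      have h1 := ih (by omega)
      have h2 := h.vertex hB (H := H (i + 1)) (p := a (i + 1)) (q := b i) (hv i hi') (hs _ hi')
        (by rw [hM i (by omega)]; exact hs i (by omega))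
      rw [hM i (by omega)] at h2
      have h3 := h.JJ_le hB (M := H (i + 1) - a (i + 1) ^ 2) le_rfl (p := a (i + 1))
        (q := b (i + 1)) (max_le_max_right _ (hab _ hi'))
      rw [Finset.sum_range_succ]
      linarith
  have h1 := fwd n hk le_rfl
  have h2 := hs n le_rfl
  have h3 := hM n le_rfl
  have h4 := h.vertex hB (H := H (n + 1)) (p := 0) (q := b n) hn
    (by nlinarith [sq_nonneg (b n)]) (by linarith)
  rw [DD_zero, h3] at h4
  simp only [ne_eq, OfNat.ofNat_ne_zero, not_false_eq_true, zero_pow, sub_zero] at h4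
  linarith

end Pool.Agent.MP_861c96_gt.H50

end

-- part MP_861c96_gt.H50.Poly
section

/-! Polygons whose hull contains the unit ball. -/

namespace Pool.Agent.MP_861c96_gt.H50

open Set Real MeasureTheory
open scoped RealInnerProductSpace

noncomputable def len (n : ℕ) (y : ℕ → E) : ℝ := ∑ j ∈ Finset.range n, ‖y (j + 1) - y j‖

def Cover (n : ℕ) (y : ℕ → E) : Prop := ∀ v : E, ∃ i, i ≤ n ∧ ‖v‖ ≤ ⟪v, y i⟫

theorem horizon (n : ℕ) (y T : ℕ → E) (l : ℕ → ℝ) (hl : ∀ j, j < n → 0 ≤ l j)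
    (hy : ∀ j, j < n → y (j + 1) = y j + l j • T j) (hc : Cover n y) :
    2 * mu.real univ - mu.real (cap (y 0)) - mu.real (cap (y n)) ≤
      ∑ j ∈ Finset.range n, (Gam (y (j + 1)) (T j) - Gam (y j) (T j)) := by
  have hi : ∀ S : Set E, MeasurableSet S → Integrable (S.indicator (1 : E → ℝ)) mu :=
    fun S hS => (integrable_const (1 : ℝ)).indicator hS
  have m1 := fun x T => (cap_meas x).inter (pos_meas T)
  have hG : ∀ x T, Integrable (fun v => (cap x ∩ pos T).indicator (1 : E → ℝ) v -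
      (cap x ∩ pos (-T)).indicator 1 v) mu := fun x T => (hi _ (m1 _ _)).sub (hi _ (m1 _ _))
  have eG : ∀ x T, Gam x T = ∫ v, ((cap x ∩ pos T).indicator (1 : E → ℝ) v -
      (cap x ∩ pos (-T)).indicator 1 v) ∂mu := fun x T => by
    rw [integral_sub (hi _ (m1 _ _)) (hi _ (m1 _ _)), integral_indicator_one (m1 _ _),
      integral_indicator_one (m1 _ _), Gam]
  have hA : Integrable (fun v => 2 - (cap (y 0)).indicator (1 : E → ℝ) v) mu :=
    (integrable_const _).sub (hi _ (cap_meas _))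
  have hA' : Integrable (fun v => 2 - (cap (y 0)).indicator (1 : E → ℝ) v -
      (cap (y n)).indicator 1 v) mu := hA.sub (hi _ (cap_meas _))
  have e1 : 2 * mu.real univ - mu.real (cap (y 0)) - mu.real (cap (y n)) =
      ∫ v, (2 - (cap (y 0)).indicator (1 : E → ℝ) v - (cap (y n)).indicator 1 v) ∂mu := by
    rw [integral_sub hA (hi _ (cap_meas _)),
      integral_sub (integrable_const _) (hi _ (cap_meas _)), integral_indicator_one (cap_meas _),
      integral_indicator_one (cap_meas _), integral_const, smul_eq_mul, mul_comm]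
  have hG2 : ∀ j, Integrable (fun v => ((cap (y (j + 1)) ∩ pos (T j)).indicator (1 : E → ℝ) v -
      (cap (y (j + 1)) ∩ pos (-T j)).indicator 1 v) - ((cap (y j) ∩ pos (T j)).indicator 1 v -
      (cap (y j) ∩ pos (-T j)).indicator 1 v)) mu := fun j => (hG _ _).sub (hG _ _)
  simp_rw [eG, ← integral_sub (hG _ _) (hG _ _)]
  rw [← integral_finsetSum _ fun j _ => hG2 j, e1]
  refine integral_mono hA' (integrable_finsetSum _ fun j _ => hG2 j) fun v => ?_
  obtain ⟨i, hin, hv⟩ := hc v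
  set f : ℕ → ℝ := fun j => (cap (y j)).indicator (1 : E → ℝ) v with hf
  have h1 := dist_le_range_sum_dist f i
  have h2 := dist_le_Ico_sum_dist f hin
  have h3 := Finset.sum_range_add_sum_Ico (fun j => dist (f j) (f (j + 1))) hin
  have h4 : f i = 1 := indicator_of_mem (s := cap (y i)) hv _
  rw [h4, Real.dist_eq] at h1 h2
  refine le_trans (b := ∑ j ∈ Finset.range n, dist (f j) (f (j + 1))) ?_
    (Finset.sum_le_sum fun j hj => ?_)
  · change 2 - f 0 - f n ≤ _
    linarith [neg_abs_le (f 0 - 1), le_abs_self (1 - f n)]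
  · have hj' := Finset.mem_range.1 hj
    have h5 : ⟪v, y (j + 1)⟫ = ⟪v, y j⟫ + l j * ⟪v, T j⟫ := by
      rw [hy j hj', inner_add_right, inner_smul_right]
    have h6 := hl j hj'
    simp only [hf, indicator, cap, pos, mem_inter_iff, mem_ofPred_eq, inner_neg_right,
      Pi.one_apply, Real.dist_eq, h5]
    by_cases ha : ‖v‖ ≤ ⟪v, y j⟫ <;> by_cases hb : ‖v‖ ≤ ⟪v, y j⟫ + l j * ⟪v, T j⟫ <;>
      by_cases h7 : 0 < ⟪v, T j⟫ <;> by_cases h8 : 0 < -⟪v, T j⟫ <;>
      simp only [ha, hb, h7, h8, and_true, and_false, if_false, if_true] <;>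
      first | (norm_num; done) | (exfalso; nlinarith)

/-- The numerical input. -/
def Num (c : ℝ) : Prop := ∀ M : ℝ, ∃ (lam s0 B : ℝ) (wt : ℝ → ℝ), Wt lam s0 wt ∧ 0 ≤ B ∧
  0 < lam ∧ s0 ≤ M ∧ (∀ s, s ≤ M → wt s = 0) ∧
  ∀ h, 0 ≤ h → c * lam / 2 ≤ 2 * π + 2 * π / max h 1 + JJ wt B (h ^ 2) 0

theorem kkt_bound {c : ℝ} (hN : Num c) (n : ℕ) (y T : ℕ → E) (l : ℕ → ℝ)
    (hl : ∀ j, j < n + 1 → 0 ≤ l j) (hT : ∀ j, j < n + 1 → ‖T j‖ = 1)
    (hy : ∀ j, j < n + 1 → y (j + 1) = y j + l j • T j) (hc : Cover (n + 1) y)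
    (h0 : ⟪y 0, T 0⟫ ≤ 0) (hn : 0 ≤ ⟪y (n + 1), T n⟫)
    (hv : ∀ j, j < n → ⟪y (j + 1), T (j + 1)⟫ ≤ ⟪y (j + 1), T j⟫) :
    c ≤ ∑ j ∈ Finset.range (n + 1), l j := by
  have hb : ∀ j, j ≤ n → ⟪y (j + 1), T j⟫ = ⟪y j, T j⟫ + l j := fun j hj => by
    rw [hy j (by omega), inner_add_left, inner_smul_left, real_inner_self_eq_norm_sq,
      hT j (by omega)]
    simp
  have hM : ∀ j, j ≤ n → ‖y (j + 1)‖ ^ 2 - ⟪y (j + 1), T j⟫ ^ 2 = ‖y j‖ ^ 2 - ⟪y j, T j⟫ ^ 2 :=
    fun j hj => by
      rw [hb j hj, hy j (by omega), norm_add_sq_real, inner_smul_right, norm_smul, hT j (by omega),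
        mul_one, norm_eq_abs, sq_abs]
      ring
  obtain ⟨k, hk, hmin⟩ := Finset.exists_min_image (Finset.range (n + 1))
    (fun j => ‖y j‖ ^ 2 - ⟪y j, T j⟫ ^ 2) ⟨0, by simp⟩
  obtain ⟨lam, s0, B, wt, hW, hB, hlam, hs, hz, hnum⟩ := hN (‖y k‖ ^ 2 - ⟪y k, T k⟫ ^ 2)
  have h1 := hW.chain hB n (fun j => ‖y j‖ ^ 2) (fun j => ⟪y j, T j⟫) (fun j => ⟪y (j + 1), T j⟫)
    (fun j hj => by rw [hb j hj]; linarith [hl j (by omega)]) hM
    (fun j hj => hs.trans (hmin j (Finset.mem_range.2 (by omega)))) h0 hn hv k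
    (by have := Finset.mem_range.1 hk; omega) hz
  have h2 := horizon (n + 1) y T l hl hy hc
  have h3 : ∑ j ∈ Finset.range (n + 1), (DD lam (‖y (j + 1)‖ ^ 2) ⟪y (j + 1), T j⟫ -
      DD lam (‖y j‖ ^ 2) ⟪y j, T j⟫) = lam * ∑ j ∈ Finset.range (n + 1), l j -
      3 * ∑ j ∈ Finset.range (n + 1), (Gam (y (j + 1)) (T j) - Gam (y j) (T j)) := by
    rw [Finset.mul_sum, Finset.mul_sum, ← Finset.sum_sub_distrib]
    refine Finset.sum_congr rfl fun j hj => ?_
    have hj' := Finset.mem_range.1 hj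
    rw [DD, DD, ← Gam_eq _ _ (hT j hj'), ← Gam_eq _ _ (hT j hj'), hb j (by omega)]
    ring
  have h4 := hnum _ (norm_nonneg (y 0))
  have h5 := hnum _ (norm_nonneg (y (n + 1)))
  have h6 := mu_cap (y 0)
  have h7 := mu_cap (y (n + 1))
  have h8 := mu_univ
  rw [mul_sub, mul_one, mul_one_div] at h6 h7
  refine le_of_mul_le_mul_left ?_ hlam
  linarith

theorem norm_pert (d e : E) (hd : d ≠ 0) (t : ℝ) :
    ‖d + t • e‖ ≤ ‖d‖ + t * ⟪e, ‖d‖⁻¹ • d⟫ + t ^ 2 * (‖e‖ ^ 2 / (2 * ‖d‖)) := by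
  have h0 : 0 < ‖d‖ := norm_pos_iff.2 hd
  have h1 := norm_add_sq_real d (t • e)
  rw [inner_smul_right, norm_smul, mul_pow, norm_eq_abs, sq_abs, real_inner_comm] at h1
  rw [inner_smul_right]
  refine le_of_mul_le_mul_left ?_ (show 0 < 2 * ‖d‖ by positivity)
  have h2 : 2 * ‖d‖ * (‖d‖ + t * (‖d‖⁻¹ * ⟪e, d⟫) + t ^ 2 * (‖e‖ ^ 2 / (2 * ‖d‖))) =
      2 * ‖d‖ ^ 2 + 2 * (t * ⟪e, d⟫) + t ^ 2 * ‖e‖ ^ 2 := by field_simp
  rw [h2]
  nlinarith [sq_nonneg (‖d + t • e‖ - ‖d‖)]

theorem len_nonneg (n : ℕ) (y : ℕ → E) : 0 ≤ len n y :=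
  Finset.sum_nonneg fun _ _ => norm_nonneg _

theorem Cover.norm_le {n : ℕ} {y : ℕ → E} (hc : Cover n y) {k : ℕ} (hk : k ≤ n) :
    ‖y k‖ ≤ 2 * len n y := by
  have h1 : ∀ i, i ≤ n → ‖y i - y 0‖ ≤ len n y := fun i hi => by
    have h2 := dist_le_range_sum_dist y i
    rw [dist_comm, dist_eq_norm] at h2
    refine h2.trans ?_
    simp only [dist_comm (y _) (y (_ + 1)), dist_eq_norm]
    exact Finset.sum_le_sum_of_subset_of_nonneg (Finset.range_mono hi) fun _ _ _ => norm_nonneg _
  obtain ⟨i, hi, hv⟩ := hc (-y 0)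
  have h2 := real_inner_le_norm (-y 0) (y i - y 0)
  rw [inner_sub_right, inner_neg_left (y 0) (y 0), real_inner_self_eq_norm_sq, norm_neg] at h2
  have h3 : ‖y 0‖ ≤ len n y := by
    rcases (norm_nonneg (y 0)).eq_or_lt with h4 | h4
    · rw [← h4]; exact len_nonneg _ _
    · refine le_trans (le_of_mul_le_mul_left ?_ h4) (h1 i hi)
      nlinarith [norm_nonneg (-y 0)]
  have h4 := norm_le_norm_add_norm_sub' (y k) (y 0)
  linarith [h1 k hk]

theorem sum_skip (f : ℕ → ℝ) (j n : ℕ) (h : j ≤ n) :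
    ∑ i ∈ Finset.range n, (if i < j then f i else f (i + 1)) + f j =
      ∑ i ∈ Finset.range (n + 1), f i := by
  induction n, h using Nat.le_induction with
  | base =>
    rw [Finset.sum_range_succ]
    congr 1
    exact Finset.sum_congr rfl fun i hi => if_pos (Finset.mem_range.1 hi)
  | succ n hn ih =>
    rw [Finset.sum_range_succ, Finset.sum_range_succ _ (n + 1), ← ih, if_neg (by omega)]
    ring

theorem poly_bound {c : ℝ} (hN : Num c) (n : ℕ) : ∀ x : ℕ → E, Cover n x → c ≤ len n x := by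
  induction n with
  | zero =>
    intro x hx
    exfalso
    obtain ⟨i, hi, h1⟩ := hx (EuclideanSpace.single 0 1)
    obtain ⟨j, hj, h2⟩ := hx (-EuclideanSpace.single 0 1)
    rw [Nat.le_zero.1 hi] at h1
    rw [Nat.le_zero.1 hj, inner_neg_left, norm_neg] at h2
    rw [EuclideanSpace.single, PiLp.norm_single, norm_one] at h1 h2
    linarith
  | succ n ih =>
    intro x hx
    set R := 4 * len (n + 1) x with hR
    have hK : IsCompact ((Set.pi univ fun _ : ℕ => Metric.closedBall (0 : E) R) ∩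
        {y | Cover (n + 1) y}) := by
      refine (isCompact_univ_pi fun _ => isCompact_closedBall _ _).inter_right ?_
      have : {y : ℕ → E | Cover (n + 1) y} =
          ⋂ v : E, ⋃ i ∈ Finset.range (n + 2), {y | ‖v‖ ≤ ⟪v, y i⟫} := by
        ext y
        simp [Cover, Nat.lt_succ_iff]
      rw [this]
      exact isClosed_iInter fun v => isClosed_biUnion_finset fun i _ =>
        isClosed_le (by fun_prop) (by fun_prop)
    have hx' : (fun i => if i ≤ n + 1 then x i else 0) ∈
        (Set.pi univ fun _ : ℕ => Metric.closedBall (0 : E) R) ∩ {y | Cover (n + 1) y} := by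
      refine ⟨fun i _ => ?_, fun v => ?_⟩
      · have := len_nonneg (n + 1) x
        rw [mem_closedBall_zero_iff]
        beta_reduce
        split_ifs with h
        · linarith [hx.norm_le h]
        · rw [norm_zero]; linarith
      · obtain ⟨i, hi, hv⟩ := hx v
        exact ⟨i, hi, by simpa only [if_pos hi] using hv⟩
    obtain ⟨y, ⟨hyR, hy⟩, hmin⟩ := hK.exists_isMinOn ⟨_, hx'⟩ (f := len (n + 1))
      (Continuous.continuousOn (by unfold len; fun_prop))
    have hyx : len (n + 1) y ≤ len (n + 1) x := by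
      refine (hmin hx').trans (le_of_eq (Finset.sum_congr rfl fun j hj => ?_))
      have := Finset.mem_range.1 hj
      beta_reduce
      rw [if_pos (by omega), if_pos (by omega)]
    refine le_trans ?_ hyx
    by_cases hd : ∃ j, j < n + 1 ∧ y (j + 1) = y j
    · obtain ⟨j, hj, hd⟩ := hd
      have h1 := ih (fun i => if i ≤ j then y i else y (i + 1)) fun v => by
        obtain ⟨i, hi, hv⟩ := hy v
        rcases lt_trichotomy i (j + 1) with h | h | h
        · exact ⟨i, by omega, by beta_reduce; rwa [if_pos (by omega)]⟩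
        · exact ⟨j, by omega, by beta_reduce; rwa [if_pos le_rfl, ← hd, ← h]⟩
        · exact ⟨i - 1, by omega, by beta_reduce; rwa [if_neg (by omega), show i - 1 + 1 = i by omega]⟩
      have h2 := sum_skip (fun i => ‖y (i + 1) - y i‖) j n (by omega)
      simp only [hd, sub_self, norm_zero, add_zero] at h2
      refine h1.trans (le_of_eq ?_)
      rw [len, len, ← h2]
      refine Finset.sum_congr rfl fun i _ => ?_
      rcases lt_trichotomy i j with h | h | h
      · rw [if_pos (by omega), if_pos h.le, if_pos h]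
      · rw [if_neg (by omega), if_pos h.le, if_neg (by omega), h, hd]
      · rw [if_neg (by omega), if_neg (by omega), if_neg (by omega)]
    push Not at hd
    set T : ℕ → E := fun j => ‖y (j + 1) - y j‖⁻¹ • (y (j + 1) - y j) with hT
    have key : ∀ k, k ≤ n + 1 → 0 ≤ ∑ j ∈ Finset.range (n + 1),
        ((if j + 1 = k then ⟪y k, T j⟫ else 0) - if j = k then ⟪y k, T j⟫ else 0) := by
      intro k hk
      set e : ℕ → E := fun j => if j = k then y k else 0 with he
      set C := ∑ j ∈ Finset.range (n + 1), ‖e (j + 1) - e j‖ ^ 2 / (2 * ‖y (j + 1) - y j‖) with hC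
      set A := ∑ j ∈ Finset.range (n + 1),
        ((if j + 1 = k then ⟪y k, T j⟫ else 0) - if j = k then ⟪y k, T j⟫ else 0) with hA
      have h1 : ∀ t : ℝ, 0 < t → t ≤ 1 → 0 ≤ A + t * C := by
        intro t ht ht1
        have hz : (fun j => y j + t • e j) ∈
            (Set.pi univ fun _ : ℕ => Metric.closedBall (0 : E) R) ∩ {y | Cover (n + 1) y} := by
          refine ⟨fun i _ => ?_, fun v => ?_⟩
          · simp only [he]
            split_ifs with h
            · rw [mem_closedBall_zero_iff, h]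
              refine (norm_add_le _ _).trans ?_
              rw [norm_smul, norm_eq_abs, abs_of_pos ht]
              nlinarith [Cover.norm_le hy hk, norm_nonneg (y k)]
            · simpa using hyR i trivial
          · obtain ⟨i, hi, hv⟩ := hy v
            refine ⟨i, hi, ?_⟩
            simp only [he]
            split_ifs with h
            · rw [inner_add_right, inner_smul_right, ← h]
              nlinarith [norm_nonneg v]
            · simpa using hv
        have h2 : len (n + 1) y ≤ len (n + 1) fun j => y j + t • e j := hmin hz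
        have h3 : len (n + 1) (fun j => y j + t • e j) ≤ len (n + 1) y + t * A + t ^ 2 * C := by
          rw [len, len, hA, hC, Finset.mul_sum, Finset.mul_sum, ← Finset.sum_add_distrib,
            ← Finset.sum_add_distrib]
          refine Finset.sum_le_sum fun j hj => ?_
          have h4 := norm_pert (y (j + 1) - y j) (e (j + 1) - e j)
            (sub_ne_zero.2 (hd j (Finset.mem_range.1 hj))) t
          rw [show y (j + 1) + t • e (j + 1) - (y j + t • e j) =
            y (j + 1) - y j + t • (e (j + 1) - e j) by rw [smul_sub]; abel]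
          refine h4.trans (le_of_eq ?_)
          congr 3
          rw [inner_sub_left]
          simp only [he, hT]
          split_ifs <;> simp
        refine le_of_mul_le_mul_left ?_ ht
        nlinarith
      refine le_of_forall_pos_le_add fun δ hδ => ?_
      have hC0 : 0 ≤ C := Finset.sum_nonneg fun _ _ => by positivity
      have h2 := h1 (min 1 (δ / (C + 1))) (lt_min one_pos (by positivity)) (min_le_left _ _)
      have h3 : min 1 (δ / (C + 1)) * C ≤ δ / (C + 1) * (C + 1) :=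
        mul_le_mul (min_le_right _ _) (by linarith) hC0 (by positivity)
      rw [div_mul_cancel₀ _ (by positivity)] at h3
      linarith
    have key' : ∀ k, k ≤ n + 1 → (if k < n + 1 then ⟪y k, T k⟫ else 0) ≤
        if 0 < k then ⟪y k, T (k - 1)⟫ else 0 := by
      intro k hk
      have h1 := key k hk
      rw [Finset.sum_sub_distrib, Finset.sum_ite_eq'] at h1
      simp only [Finset.mem_range] at h1
      rcases k with _ | k
      · simpa using h1
      · simp only [Nat.add_right_cancel_iff, Finset.sum_ite_eq', Finset.mem_range] at h1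
        rw [if_pos (show k < n + 1 by omega)] at h1
        rw [if_pos k.succ_pos, Nat.add_sub_cancel]
        linarith
    refine kkt_bound hN n y T (fun j => ‖y (j + 1) - y j‖) (fun _ _ => norm_nonneg _)
      (fun j hj => norm_smul_inv_norm (sub_ne_zero.2 (hd j hj))) (fun j hj => ?_) hy ?_ ?_
      fun j hj => ?_
    · simp only [hT]
      rw [smul_inv_smul₀ (norm_ne_zero_iff.2 (sub_ne_zero.2 (hd j hj)))]
      abel
    · simpa using key' 0 (by omega)
    · simpa using key' (n + 1) le_rfl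
    · simpa [hj] using key' (j + 1) (by omega)

theorem curve_bound {c : ℝ} (hN : Num c) {γ : ℝ → E} (hc : ContinuousOn γ (Icc 0 1))
    (h : ∀ U : E, ‖U‖ = 1 → ∃ s ∈ Icc (0 : ℝ) 1, 1 ≤ ⟪U, γ s⟫) :
    ENNReal.ofReal c ≤ eVariationOn γ (Icc 0 1) := by
  rcases eq_or_ne (eVariationOn γ (Icc 0 1)) ⊤ with ht | ht
  · rw [ht]; exact le_top
  rw [ENNReal.ofReal_le_iff_le_toReal ht]
  set L := (eVariationOn γ (Icc 0 1)).toReal with hL
  have key : ∀ ε : ℝ, 0 < ε → ε < 1 → c * (1 - ε) ≤ L := by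
    intro ε h0 h1
    obtain ⟨δ, hδ, hu⟩ := Metric.uniformContinuousOn_iff.1
      (isCompact_Icc.uniformContinuousOn_of_continuous hc) ε h0
    obtain ⟨N, hN'⟩ := exists_nat_one_div_lt hδ
    have hNp : (0 : ℝ) < N + 1 := by positivity
    have hm : ∀ i : ℕ, i ≤ N + 1 → (i : ℝ) / (N + 1) ∈ Icc (0 : ℝ) 1 := fun i hi =>
      ⟨by positivity, by rw [div_le_one hNp]; exact_mod_cast hi⟩
    have h2 := poly_bound hN (N + 1) (fun i => (1 - ε)⁻¹ • γ (i / (N + 1))) fun v => by
      rcases eq_or_ne v 0 with rfl | hv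
      · exact ⟨0, by omega, by simp⟩
      obtain ⟨s, hs, h3⟩ := h _ (norm_smul_inv_norm (𝕜 := ℝ) hv)
      have h4 : ⌊s * (N + 1)⌋₊ ≤ N + 1 := Nat.floor_le_of_le (by push_cast; nlinarith [hs.2])
      have h5 := Nat.floor_le (show 0 ≤ s * (N + 1) from mul_nonneg hs.1 hNp.le)
      have h6 := Nat.lt_floor_add_one (s * (N + 1))
      have h7 := hu s hs _ (hm _ h4) (lt_of_le_of_lt (by
        rw [Real.dist_eq, abs_le, ← mul_div_cancel_right₀ s hNp.ne', ← sub_div, ← neg_div,
          mul_div_cancel_right₀ s hNp.ne', div_le_div_iff_of_pos_right hNp,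
          div_le_div_iff_of_pos_right hNp]
        constructor <;> linarith) hN')
      refine ⟨_, h4, ?_⟩
      have h8 := real_inner_le_norm v (γ s - γ (⌊s * (N + 1)⌋₊ / (N + 1)))
      have h9 : 0 < ‖v‖ := norm_pos_iff.2 hv
      rw [inner_sub_right, ← dist_eq_norm] at h8
      simp only [RCLike.ofReal_real_eq_id, id_eq, real_inner_smul_left] at h3
      rw [le_inv_mul_iff₀ h9] at h3
      rw [inner_smul_right, le_inv_mul_iff₀ (by linarith)]
      nlinarith
    have h3 := eVariationOn.sum_le_of_monotoneOn_Iic (f := γ) (s := Icc 0 1) (n := N + 1)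
      (u := fun i : ℕ => (i : ℝ) / (N + 1)) (fun i _ j _ hij => by simp only; gcongr) hm
    have h4 := ENNReal.toReal_mono ht h3
    rw [ENNReal.toReal_sum (fun _ _ => edist_ne_top _ _)] at h4
    simp only [len, ← smul_sub, norm_smul, ← Finset.mul_sum] at h2
    rw [norm_eq_abs, abs_of_pos (inv_pos.2 (by linarith)), le_inv_mul_iff₀ (by linarith)] at h2
    simp only [edist_dist, dist_eq_norm, ENNReal.toReal_ofReal (norm_nonneg _)] at h4
    linarith
  have hL0 : 0 ≤ L := ENNReal.toReal_nonneg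
  rcases le_or_gt c 0 with h0 | h0
  · linarith
  refine le_of_forall_pos_le_add fun δ hδ => ?_
  have h1 := key (δ / (c + δ)) (by positivity) (by rw [div_lt_one (by positivity)]; linarith)
  have h2 : c * (δ / (c + δ)) ≤ δ := by
    rw [← mul_div_assoc, div_le_iff₀ (by positivity)]
    nlinarith
  linarith

end Pool.Agent.MP_861c96_gt.H50

end

-- part MP_861c96_gt.H50.Num
section

/-! The numerical input with constant 9.53. -/

namespace Pool.Agent.MP_861c96_gt.H50

open Set Real MeasureTheory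

theorem kk_sq {u : ℝ} (hu : 0 ≤ u) : kk (1 + u ^ 2) = 4 * u / (1 + u ^ 2) := by
  rw [kk, add_sub_cancel_left, sqrt_sq hu, max_eq_left (by nlinarith)]

theorem kk_le_two (s : ℝ) : kk s ≤ 2 := by
  rcases le_total s 1 with h | h
  · rw [kk, sqrt_eq_zero'.2 (by linarith)]
    simp
  · have h1 := kk_sq (sqrt_nonneg (s - 1))
    rw [sq_sqrt (by linarith), add_sub_cancel] at h1
    rw [h1, div_le_iff₀ (by linarith)]
    nlinarith [sq_sqrt (show 0 ≤ s - 1 by linarith), sq_nonneg (√(s - 1) - 1)]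

theorem kk_anti {s t : ℝ} (hs : 2 ≤ s) (hst : s ≤ t) : kk t ≤ kk s := by
  have h1 := sq_sqrt (show 0 ≤ s - 1 by linarith)
  have h2 := sq_sqrt (show 0 ≤ t - 1 by linarith)
  have h3 : √(s - 1) ≤ √(t - 1) := sqrt_le_sqrt (by linarith)
  have h4 : 1 ≤ √(s - 1) := one_le_sqrt.2 (by linarith)
  rw [kk, kk, max_eq_left (by linarith), max_eq_left (by linarith),
    div_le_div_iff₀ (by linarith) (by linarith)]
  set a := √(s - 1)
  set b := √(t - 1)
  rw [show s = 1 + a ^ 2 by linarith, show t = 1 + b ^ 2 by linarith]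
  nlinarith [mul_nonneg (sub_nonneg.2 h3) (show 0 ≤ a * b - 1 by nlinarith)]

noncomputable def wc (lam σ s : ℝ) : ℝ := if σ ≤ s then lam - kk s else 0

theorem wc_wt {lam s0 σ : ℝ} (h2 : 2 ≤ σ) (h0 : s0 ≤ σ) (h : ∀ s, s0 ≤ s → kk s ≤ lam) :
    Wt lam s0 (wc lam σ) := by
  have h1 : ∀ s, 0 ≤ wc lam σ s := fun s => by
    unfold wc
    split_ifs with h1
    · linarith [h s (h0.trans h1)]
    · exact le_rfl
  refine ⟨fun s t hst => ?_, h1, fun s => ?_, fun s hs => ?_⟩
  · by_cases h3 : σ ≤ s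
    · rw [wc, wc, if_pos h3, if_pos (h3.trans hst)]
      linarith [kk_anti (h2.trans h3) hst]
    · rw [wc, if_neg h3]
      exact h1 t
  · unfold wc
    split_ifs
    · linarith [kk_nonneg s]
    · exact (kk_nonneg _).trans (h _ le_rfl)
  · unfold wc
    split_ifs
    · exact le_rfl
    · linarith [h s hs]

noncomputable def LL (wt : ℝ → ℝ) (H a : ℝ) : ℝ :=
  ∫ r in (0 : ℝ)..10, max (wt (H - r ^ 2) - a) 0

variable {lam s0 : ℝ} {wt : ℝ → ℝ}

theorem Wt.layer (h : Wt lam s0 wt) {H a c ρ : ℝ} (hc : 0 ≤ c) (h0 : 0 ≤ ρ) (hB : ρ ≤ 10)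
    (hw : ∀ s, H - ρ ^ 2 ≤ s → c = 0 ∨ a + c ≤ wt s) :
    c * ρ + LL wt H (a + c) ≤ LL wt H a := by
  have i : ∀ a x y, IntervalIntegrable (fun r => max (wt (H - r ^ 2) - a) 0) volume x y :=
    fun a x y => by
      have := (h.int (f := fun r => H - r ^ 2) (by fun_prop) x y).sub
        (intervalIntegrable_const (c := a))
      exact ⟨this.1.pos_part, this.2.pos_part⟩
  have h1 := intervalIntegral.integral_add_adjacent_intervals (i a 0 ρ) (i a ρ 10)
  have h2 := intervalIntegral.integral_add_adjacent_intervals (i (a + c) 0 ρ) (i (a + c) ρ 10)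
  have h3 := intervalIntegral.integral_mono_on hB (i (a + c) _ _) (i a _ _)
    fun r _ => max_le_max_right _ (by linarith)
  have h4 := intervalIntegral.integral_mono_on h0
    ((intervalIntegrable_const (c := c)).add (i (a + c) _ _)) (i a _ _) fun r hr => by
      rcases hw (H - r ^ 2) (by nlinarith [hr.1, hr.2]) with h5 | h5
      · simp [h5]
      · rw [max_eq_left (by linarith), max_eq_left (by linarith)]
        linarith
  rw [intervalIntegral.integral_add intervalIntegrable_const (i _ _ _),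
    intervalIntegral.integral_const, smul_eq_mul] at h4
  rw [LL, LL]
  linarith

def frc {α : Type} (x : ℕ) (f : ℕ → α) : α := Nat.casesOn x (f 0) fun k => f k.succ

theorem frc_eq {α : Type} (x : ℕ) (f : ℕ → α) : frc x f = f x := by cases x <;> rfl

noncomputable def loop (H st n : ℕ) : ℕ → ℕ → ℕ → ℕ → ℕ :=
  Nat.rec (motive := fun _ => ℕ → ℕ → ℕ → ℕ → ℕ) (fun _ _ _ acc => acc)
    (fun _ ih u g v acc =>
      frc (Nat.add 10000000000 (Nat.mul u u)) fun s => frc (Nat.sub H s) fun x =>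
      cond (Nat.beq x 0) acc (
      frc (Nat.sub g (Nat.succ (Nat.div (Nat.mul 400000000000 u) s))) fun c =>
      frc (Nat.div (Nat.add v (Nat.div x v)) 2) fun v' =>
      frc (Nat.div x (Nat.succ v')) fun r =>
      frc (Nat.add acc (cond (Nat.ble (Nat.mul r r) x && Nat.ble r 1000000) (Nat.mul c r) 0))
        fun acc' => frc (Nat.sub g c) fun g' => frc (Nat.add u st) fun u' => ih u' g' v' acc')) n

theorem loop_succ (H st n u g v acc : ℕ) : loop H st (n + 1) u g v acc = acc ∨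
    ∃ v' r, r * r ≤ H - (10000000000 + u * u) ∧ r ≤ 1000000 ∧
      0 < H - (10000000000 + u * u) ∧ loop H st (n + 1) u g v acc =
      loop H st n (u + st) (g - (g - (400000000000 * u / (10000000000 + u * u) + 1))) v'
        (acc + (g - (400000000000 * u / (10000000000 + u * u) + 1)) * r) := by
  have e : ∀ (x v' r c : ℕ), x = H - (10000000000 + u * u) → v' = (v + x / v) / 2 →
      r = x / (v' + 1) → c = g - (400000000000 * u / (10000000000 + u * u) + 1) →
      loop H st (n + 1) u g v acc = cond (Nat.beq x 0) acc (loop H st n (u + st) (g - c) v'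
        (acc + cond (Nat.ble (r * r) x && Nat.ble r 1000000) (c * r) 0)) := by
    rintro _ _ _ _ rfl rfl rfl rfl
    simp only [loop, frc_eq]
    rfl
  have e' := e _ _ _ _ rfl rfl rfl rfl
  set x := H - (10000000000 + u * u)
  set v' := (v + x / v) / 2
  set r := x / (v' + 1)
  cases h1 : Nat.beq x 0
  · have h2 := Nat.pos_of_ne_zero (Nat.ne_of_beq_eq_false h1)
    cases h3 : (Nat.ble (r * r) x && Nat.ble r 1000000)
    · exact Or.inr ⟨v', 0, by simp, by simp, h2, by rw [e', h1, h3]; rfl⟩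
    · have h4 := h3
      rw [Bool.and_eq_true, Nat.ble_eq, Nat.ble_eq] at h4
      exact Or.inr ⟨v', r, h4.1, h4.2, h2, by rw [e', h1, h3]; rfl⟩
  · exact Or.inl (by rw [e', h1]; rfl)

theorem Wt.loop_le (h : Wt lam s0 wt) (H st u0 : ℕ)
    (hw : ∀ u : ℝ, u0 / 100000 ≤ u → ∀ s, 1 + u ^ 2 ≤ s → lam - kk (1 + u ^ 2) ≤ wt s) (n : ℕ) :
    ∀ u g v acc : ℕ, u0 ≤ u → (loop H st n u g v acc : ℝ) ≤
      acc + 10 ^ 11 * LL wt (H / 10 ^ 10) (lam - g / 10 ^ 6) := by
  have h0 : ∀ H a, 0 ≤ LL wt H a := fun H a =>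
    intervalIntegral.integral_nonneg (by norm_num) fun _ _ => le_max_right _ _
  induction n with
  | zero =>
    intro u g v acc _
    exact le_add_of_nonneg_right (mul_nonneg (by positivity) (h0 _ _))
  | succ n ih =>
    intro u g v acc hu
    rcases loop_succ H st n u g v acc with h1 | ⟨v', r, h1, h2, h3, h4⟩
    · rw [h1]
      exact le_add_of_nonneg_right (mul_nonneg (by positivity) (h0 _ _))
    set K := 400000000000 * u / (10000000000 + u * u) + 1 with hK
    have h5 := ih (u + st) (g - (g - K)) v' (acc + (g - K) * r) (by omega)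
    have h6 := h.layer (H := H / 10 ^ 10) (a := lam - g / 10 ^ 6) (c := (g - K : ℕ) / 10 ^ 6)
      (ρ := r / 10 ^ 5) (by positivity) (by positivity)
      (by rw [div_le_iff₀ (by positivity)]; exact_mod_cast h2) fun s hs => by
        rcases le_total g K with h6 | h6
        · left; simp [Nat.sub_eq_zero_of_le h6]
        right
        have h7 : ((r * r + (10000000000 + u * u) : ℕ) : ℝ) ≤ H := by exact_mod_cast (by omega)
        push_cast at h7
        refine le_trans ?_ (hw (u / 100000) (by gcongr) s (by nlinarith))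
        have h8 : ((400000000000 * u : ℕ) : ℝ) < (K * (10000000000 + u * u) : ℕ) := by
          exact_mod_cast (Nat.div_lt_iff_lt_mul (by positivity)).1 (Nat.lt_succ_self _)
        push_cast at h8
        have h9 : kk (1 + ((u : ℝ) / 100000) ^ 2) ≤ K / 10 ^ 6 := by
          rw [kk_sq (by positivity), div_le_div_iff₀ (by positivity) (by positivity)]
          nlinarith
        rw [Nat.cast_sub h6]
        linarith
    rw [Nat.cast_sub (Nat.sub_le _ _), show lam - ((g : ℝ) - (g - K : ℕ)) / 10 ^ 6 =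
      lam - g / 10 ^ 6 + (g - K : ℕ) / 10 ^ 6 by ring] at h5
    rw [h4]
    push_cast at h5
    linarith

noncomputable def go (g u0 st tgt n : ℕ) : ℕ → Bool :=
  Nat.rec (motive := fun _ => ℕ → Bool) (fun _ => false) (fun _ ih h =>
    frc (Nat.mul h h) fun H => frc (Nat.sub tgt (loop H st 3000 u0 g h 628318500000)) fun d =>
    cond (Nat.beq d 0) true (frc (Nat.div 62831850000000000 d) ih)) n

theorem Wt.go_le (g u0 st tgt : ℕ) (h : Wt (g / 10 ^ 6) s0 wt)
    (hw : ∀ u : ℝ, u0 / 100000 ≤ u → ∀ s, 1 + u ^ 2 ≤ s → g / 10 ^ 6 - kk (1 + u ^ 2) ≤ wt s)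
    (n : ℕ) : ∀ k : ℕ, go g u0 st tgt n k = true → ∀ x : ℝ, k / 10 ^ 5 ≤ x → 0 < x →
      tgt / 10 ^ 11 ≤ 2 * π + 2 * π / x + JJ wt 10 (x ^ 2) 0 := by
  induction n with
  | zero => intro k hk; exact absurd hk Bool.false_ne_true
  | succ n ih =>
    intro k hk x hx h0
    have h1 := h.loop_le (k * k) st u0 hw 3000 u0 g k 628318500000 le_rfl
    set J := loop (k * k) st 3000 u0 g k 628318500000 with hJ
    have e : go g u0 st tgt (n + 1) k = cond (Nat.beq (tgt - J) 0) true
        (go g u0 st tgt n (62831850000000000 / (tgt - J))) := by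
      simp only [go, frc_eq]
      rfl
    have h2 : LL wt ((k * k : ℕ) / 10 ^ 10) (g / 10 ^ 6 - g / 10 ^ 6) ≤ JJ wt 10 (x ^ 2) 0 := by
      refine le_trans (le_of_eq ?_) (h.JJ_le (M := (k * k : ℕ) / 10 ^ 10) (q := 0) (by norm_num)
        ?_ le_rfl)
      · simp [LL, JJ, h.nonneg]
      · have := mul_self_le_mul_self (by positivity) hx
        push_cast
        nlinarith
    have hp := pi_gt_d6
    have h3 : 0 < 2 * π / x := by positivity
    push_cast at h1 h2
    rw [e] at hk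
    cases h4 : Nat.beq (tgt - J) 0
    · rw [h4] at hk
      rcases le_total (((62831850000000000 / (tgt - J) : ℕ) : ℝ) / 10 ^ 5) x with h5 | h5
      · exact ih _ hk x h5 h0
      have h6 := Nat.pos_of_ne_zero (Nat.ne_of_beq_eq_false h4)
      have h7 : (((62831850000000000 / (tgt - J)) * (tgt - J) : ℕ) : ℝ) ≤ 62831850000000000 := by
        exact_mod_cast Nat.div_mul_le_self _ _
      rw [Nat.cast_mul, Nat.cast_sub (by omega)] at h7
      have h8 : (J : ℝ) ≤ tgt := by exact_mod_cast (by omega)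
      have h9 : (tgt - J : ℝ) / 10 ^ 11 ≤ 2 * π / x := by
        rw [le_div_iff₀ h0]
        nlinarith [pi_gt_d20]
      linarith [pi_gt_d20]
    · have h5 : (tgt : ℝ) ≤ J := by
        have := Nat.eq_of_beq_eq_true h4
        exact_mod_cast (by omega)
      linarith [pi_gt_d20]

theorem num_case (g u0 st tgt : ℕ) {M s0 : ℝ} (h1 : 100000 ≤ u0) (hs : s0 ≤ M)
    (hM : M < 1 + ((u0 : ℝ) / 100000) ^ 2) (hl : ∀ s, s0 ≤ s → kk s ≤ g / 10 ^ 6)
    (hg : go g u0 st tgt 200 0 = true) (h0 : 0 < g) (h2 : g ≤ 2000000)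
    (ht : 4765 * 100 * g ≤ tgt) : ∃ (lam s0 B : ℝ) (wt : ℝ → ℝ), Wt lam s0 wt ∧ 0 ≤ B ∧
    0 < lam ∧ s0 ≤ M ∧ (∀ s, s ≤ M → wt s = 0) ∧
    ∀ h, 0 ≤ h → 9.53 * lam / 2 ≤ 2 * π + 2 * π / max h 1 + JJ wt B (h ^ 2) 0 := by
  have h3 : (1 : ℝ) ≤ u0 / 100000 := by
    rw [le_div_iff₀ (by norm_num)]; exact_mod_cast h1
  have hW := wc_wt (σ := 1 + ((u0 : ℝ) / 100000) ^ 2) (by nlinarith) (by linarith) hl
  refine ⟨_, s0, 10, _, hW, by norm_num, by positivity, hs, fun s h => if_neg (by linarith),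
    fun h hh => ?_⟩
  rcases le_total h 1 with h4 | h4
  · have h5 : 0 ≤ JJ (wc (g / 10 ^ 6) (1 + ((u0 : ℝ) / 100000) ^ 2)) 10 (h ^ 2) 0 :=
      intervalIntegral.integral_nonneg (by norm_num) fun _ _ => hW.nonneg _
    have h6 : (g : ℝ) ≤ 2000000 := by exact_mod_cast h2
    rw [max_eq_right h4]
    linarith [pi_gt_three]
  · have h5 := hW.go_le g u0 st tgt (fun u hu s h6 => by
      have h7 : 1 + ((u0 : ℝ) / 100000) ^ 2 ≤ 1 + u ^ 2 := by nlinarith
      rw [wc, if_pos (h7.trans h6)]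
      linarith [kk_anti (s := 1 + u ^ 2) (by nlinarith) h6]) 200 0 hg h (by simpa) (by linarith)
    have h6 : ((4765 * 100 * g : ℕ) : ℝ) ≤ tgt := by exact_mod_cast ht
    push_cast at h6
    rw [max_eq_left h4]
    linarith

theorem go1 : go 2000000 108000 260 953000000000 200 0 = true := by decide +kernel
theorem go2 : go 1994092 130000 800 950184838000 200 0 = true := by decide +kernel
theorem go3 : go 1933086 185000 1000 921115479000 200 0 = true := by decide +kernel
theorem go4 : go 1673262 270000 1000 797309343000 200 0 = true := by decide +kernel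

theorem kk_le {u c : ℝ} (hu : 1 ≤ u) (hc : 4 * u / (1 + u ^ 2) ≤ c) (s : ℝ) (hs : 1 + u ^ 2 ≤ s) :
    kk s ≤ c := by
  rw [← kk_sq (by linarith)] at hc
  exact (kk_anti (by nlinarith) hs).trans hc

theorem num : Num 9.53 := by
  intro M
  rcases lt_or_ge M (1 + 1.08 ^ 2) with h1 | h1
  · exact num_case _ _ _ _ (by norm_num) le_rfl (by norm_num at h1 ⊢; exact h1)
      (fun s _ => (kk_le_two s).trans (by norm_num)) go1 (by norm_num) le_rfl (by norm_num)
  rcases lt_or_ge M (1 + 1.3 ^ 2) with h2 | h2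
  · exact num_case _ _ _ _ (by norm_num) h1 (by norm_num at h2 ⊢; exact h2)
      (kk_le (by norm_num) (by norm_num)) go2 (by norm_num) (by norm_num) (by norm_num)
  rcases lt_or_ge M (1 + 1.85 ^ 2) with h3 | h3
  · exact num_case _ _ _ _ (by norm_num) h2 (by norm_num at h3 ⊢; exact h3)
      (kk_le (by norm_num) (by norm_num)) go3 (by norm_num) (by norm_num) (by norm_num)
  rcases lt_or_ge M (1 + 2.7 ^ 2) with h4 | h4
  · exact num_case _ _ _ _ (by norm_num) h3 (by norm_num at h4 ⊢; exact h4)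
      (kk_le (by norm_num) (by norm_num)) go4 (by norm_num) (by norm_num) (by norm_num)
  have h5 := kk_le (u := 2.7) (c := 1.31) (by norm_num) (by norm_num)
  refine ⟨1.31, _, 0, fun _ => 0, ⟨monotone_const, fun _ => le_rfl, fun _ => by norm_num,
    fun s hs => sub_nonneg.2 (h5 s hs)⟩, le_rfl, by norm_num, h4, fun _ _ => rfl, fun h _ => ?_⟩
  have : 0 ≤ 2 * π / max h 1 := by positivity
  rw [JJ, intervalIntegral.integral_same]
  linarith [pi_gt_d2]

end Pool.Agent.MP_861c96_gt.H50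

end
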