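import Pool.Agent.MP_861c96_gt.Mg.Curve

/-! No shortest admissible curve is a half-turn helix with two segments. -/

namespace Pool.Agent.MP_861c96_gt

open Set Filter Topology Real
open scoped RealInnerProductSpace

lemma exists_frame (R : E3 ≃ᵃⁱ[ℝ] E3) (r c t₀ : ℝ) : ∃ (Φ : E3 → V3) (a b d : ℝ),
    Continuous Φ ∧ (∀ x y, ⟪x, y⟫ = dot (Φ x) (Φ y)) ∧ (∀ u : V3, ∃ U, Φ U = u) ∧
    (∀ x y, dist x y ^ 2 = dsq (Φ x) (Φ y)) ∧
    ∀ τ, Φ (R (helix r c (t₀ + τ))) = hy r c a b d τ := by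
  set L := R.linearIsometryEquiv with hL
  set C := cos t₀ with hC
  set S := sin t₀ with hS
  have hCS : S ^ 2 + C ^ 2 = 1 := sin_sq_add_cos_sq t₀
  set Φ : E3 → V3 := fun x => (C * (L.symm x) 0 + S * (L.symm x) 1,
    -S * (L.symm x) 0 + C * (L.symm x) 1, (L.symm x) 2) with hΦ
  have hin : ∀ x y, ⟪x, y⟫ = dot (Φ x) (Φ y) := by
    intro x y
    rw [← L.symm.inner_map_map, inner3]
    simp only [hΦ, dot]
    linear_combination (-((L.symm x) 0 * (L.symm y) 0) - (L.symm x) 1 * (L.symm y) 1) * hCS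
  set w : E3 := L.symm (R 0) with hw
  refine ⟨Φ, -(C * w 0 + S * w 1), -(-S * w 0 + C * w 1), -(c * t₀ + w 2), ?_, hin, ?_, ?_, ?_⟩
  · have := L.symm.continuous
    simp only [hΦ]; fun_prop
  · rintro ⟨u1, u2, u3⟩
    refine ⟨L !₂[C * u1 - S * u2, S * u1 + C * u2, u3], ?_⟩
    simp only [hΦ, LinearIsometryEquiv.symm_apply_apply]
    simp only [Prod.mk.injEq]
    refine ⟨?_, ?_, ?_⟩
    · simp; linear_combination u1 * hCS
    · simp; linear_combination u2 * hCS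
    · simp
  · intro x y
    rw [dist_eq_norm, ← real_inner_self_eq_norm_sq, hin]
    simp only [hΦ, dot, dsq, map_sub, PiLp.sub_apply]
    ring
  · intro τ
    have h1 : R (helix r c (t₀ + τ)) = L (helix r c (t₀ + τ)) + R 0 := by
      have := R.map_vadd 0 (helix r c (t₀ + τ))
      simpa using this
    have h2 : L.symm (R (helix r c (t₀ + τ))) = helix r c (t₀ + τ) + w := by
      rw [h1, map_add, LinearIsometryEquiv.symm_apply_apply]
    simp only [hΦ, h2]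
    simp only [hy, PiLp.add_apply, helix, Prod.mk.injEq]
    refine ⟨?_, ?_, ?_⟩
    · simp [cos_add, sin_add, ← hC, ← hS]; linear_combination r * cos τ * hCS
    · simp [cos_add, sin_add, ← hC, ← hS]; linear_combination r * sin τ * hCS
    · simp; ring

lemma segment_inner {U P A x : E3} (hx : x ∈ segment ℝ P A) (h : 1 ≤ ⟪U, x⟫) :
    1 ≤ ⟪U, P⟫ ∨ 1 ≤ ⟪U, A⟫ := by
  obtain ⟨l, m, hl, hm, hlm, rfl⟩ := hx
  rw [inner_add_right, inner_smul_right, inner_smul_right] at h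
  by_contra hcon
  push Not at hcon
  have h1 := mul_le_mul_of_nonneg_left hcon.1.le hl
  have h2 := mul_le_mul_of_nonneg_left hcon.2.le hm
  rcases hl.lt_or_eq with hl' | hl'
  · have := mul_lt_mul_of_pos_left hcon.1 hl'
    linarith
  · have hm1 : m = 1 := by linarith
    subst hl' hm1
    linarith [hcon.2]

lemma strict_triangle {Φ : E3 → V3} (hin : ∀ x y, ⟪x, y⟫ = dot (Φ x) (Φ y))
    (hsurj : ∀ u : V3, ∃ U, Φ U = u) {r c a b d : ℝ} (hr : 0 < r) {x y z : E3} {t1 tm t2 : ℝ}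
    (h0 : 0 ≤ t1) (h1 : t1 < tm) (h2 : tm < t2) (h3 : t2 ≤ π)
    (hx : Φ x = hy r c a b d t1) (hy' : Φ y = hy r c a b d tm) (hz : Φ z = hy r c a b d t2) :
    dist x z < dist x y + dist y z := by
  refine lt_of_le_of_ne (dist_triangle x y z) fun heq => ?_
  have hw : Wbtw ℝ x y z := dist_add_dist_eq_iff.1 heq.symm
  obtain ⟨l, ⟨hl0, hl1⟩, hl⟩ := hw
  obtain ⟨U, hU⟩ := hsurj (cos tm, sin tm, 0)
  have key : ⟪U, y⟫ = (1 - l) * ⟪U, x⟫ + l * ⟪U, z⟫ := by
    rw [← hl, AffineMap.lineMap_apply_module, inner_add_right, inner_smul_right, inner_smul_right]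
  rw [hin, hin, hin, hU, hx, hy', hz] at key
  simp only [dot, hy] at key
  have c1 : cos (tm - t1) < 1 := by
    have := cos_lt_cos_of_nonneg_of_le_pi le_rfl (show tm - t1 ≤ π by linarith) (by linarith)
    simpa using this
  have c2 : cos (t2 - tm) < 1 := by
    have := cos_lt_cos_of_nonneg_of_le_pi le_rfl (show t2 - tm ≤ π by linarith) (by linarith)
    simpa using this
  rw [cos_sub] at c1 c2
  have e := sin_sq_add_cos_sq tm
  have key2 : r * ((1 - l) * (1 - (cos tm * cos t1 + sin tm * sin t1)) +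
      l * (1 - (cos t2 * cos tm + sin t2 * sin tm))) = 0 := by
    linear_combination key - r * e
  have key3 := (mul_eq_zero.1 key2).resolve_left hr.ne'
  rcases hl0.lt_or_eq with hl' | hl'
  · have a1 := mul_pos hl' (sub_pos.2 c2)
    have a2 := mul_nonneg (sub_nonneg.2 hl1) (sub_pos.2 c1).le
    linarith
  · subst hl'; linarith

theorem no_helix_minimiser (γ : ℝ → E3) (hadm : Admissible γ) (hmin : curveLength γ = Lstar)
    (hh : IsHelixWithSegments γ) : False := by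
  obtain ⟨hcont, hfin, hpl⟩ := hadm
  obtain ⟨R, r, c, t₀, sa, sb, hr, ha0, hab, hb1, hseg1, hA, harc, hB, hseg2⟩ := hh
  obtain ⟨Φ, a, b, d, hΦc, hin, hsurj, hdist, hhel⟩ := exists_frame R r c t₀
  have hΦA : Φ (γ sa) = hy r c a b d 0 := by rw [hA, ← hhel, add_zero]
  have hΦB : Φ (γ sb) = hy r c a b d π := by rw [hB, ← hhel]
  have harc' : ∀ s ∈ Icc sa sb, ∃ τ ∈ Icc 0 π, Φ (γ s) = hy r c a b d τ := by
    intro s hs
    have : γ s ∈ γ '' Icc sa sb := ⟨s, hs, rfl⟩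
    rw [harc] at this
    obtain ⟨t, ht, hts⟩ := this
    refine ⟨t - t₀, ⟨by linarith [ht.1], by linarith [ht.2]⟩, ?_⟩
    rw [← hhel, ← hts]; simp
  have hunit : ∀ U : E3, ‖U‖ = 1 ↔ dot (Φ U) (Φ U) = 1 := by
    intro U
    rw [← hin, real_inner_self_eq_norm_sq]
    constructor
    · intro h; rw [h]; norm_num
    · intro h; exact (pow_eq_one_iff_of_nonneg (norm_nonneg U) two_ne_zero).1 h
  have hlow : ∀ γ' : ℝ → E3, Admissible γ' → curveLength γ ≤ curveLength γ' := by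
    intro γ' h'
    rw [hmin]; exact iInf₂_le γ' h'
  have hcov : Cov r c a b d (Φ (γ 0)) (Φ (γ 1)) (Icc 0 π) := by
    intro u hu
    obtain ⟨U, rfl⟩ := hsurj u
    obtain ⟨s, hs, h⟩ := cover_of_planes hpl U ((hunit U).2 hu)
    rcases le_total s sa with h1 | h1
    · have : γ s ∈ segment ℝ (γ 0) (γ sa) := by rw [← hseg1]; exact ⟨s, ⟨hs.1, h1⟩, rfl⟩
      rcases segment_inner this h with h2 | h2
      · left; rwa [← hin]
      · right; right; exact ⟨0, ⟨le_rfl, pi_pos.le⟩, by rwa [← hΦA, ← hin]⟩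
    · rcases le_total s sb with h2 | h2
      · obtain ⟨τ, hτ, h3⟩ := harc' s ⟨h1, h2⟩
        right; right; exact ⟨τ, hτ, by rwa [← h3, ← hin]⟩
      · have : γ s ∈ segment ℝ (γ sb) (γ 1) := by rw [← hseg2]; exact ⟨s, ⟨h2, hs.2⟩, rfl⟩
        rcases segment_inner this h with h2 | h2
        · right; right; exact ⟨π, ⟨pi_pos.le, le_rfl⟩, by rwa [← hΦB, ← hin]⟩
        · right; left; rwa [← hin]
  have hivt : ∀ s s' τ τ' σ : ℝ, sa ≤ s → s ≤ s' → s' ≤ sb → 0 ≤ τ → τ ≤ σ → σ ≤ τ' → τ' ≤ π →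
      Φ (γ s) = hy r c a b d τ → Φ (γ s') = hy r c a b d τ' →
      ∃ s'' ∈ Icc s s', Φ (γ s'') = hy r c a b d σ := by
    intro s s' τ τ' σ k1 k2 k3 k4 k5 k6 k7 e1 e2
    have hc' : ContinuousOn (fun s => (Φ (γ s)).1) (Icc s s') :=
      (continuous_fst.comp hΦc).comp_continuousOn
        (hcont.mono (Icc_subset_Icc (by linarith) (by linarith)))
    have hsub := intermediate_value_Icc' k2 hc'
    have m1 : cos τ' ≤ cos σ := cos_le_cos_of_nonneg_of_le_pi (by linarith) k7 k6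
    have m2 : cos σ ≤ cos τ := cos_le_cos_of_nonneg_of_le_pi k4 (by linarith) k5
    obtain ⟨s'', hs'', e3⟩ := hsub (a := r * cos σ - a) (by
      simp only [e1, e2, hy]
      exact ⟨by nlinarith, by nlinarith⟩)
    obtain ⟨τ'', hτ'', e4⟩ := harc' s'' ⟨by linarith [hs''.1], by linarith [hs''.2]⟩
    refine ⟨s'', hs'', ?_⟩
    simp only [e4, hy] at e3
    have : cos τ'' = cos σ := mul_left_cancel₀ hr.ne' (by linarith)
    rw [e4, injOn_cos hτ'' ⟨by linarith, by linarith⟩ this]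
  have hess : ∀ t1 t2, 0 ≤ t1 → t1 < t2 → t2 ≤ π →
      ¬ Cov r c a b d (Φ (γ 0)) (Φ (γ 1)) (Icc 0 t1 ∪ Icc t2 π) := by
    intro t1 t2 k1 k2 k3 hcut
    obtain ⟨s1, hs1, e1⟩ := hivt sa sb 0 π t1 le_rfl hab le_rfl le_rfl k1 (by linarith) le_rfl hΦA hΦB
    obtain ⟨sm, hsm, em⟩ := hivt s1 sb t1 π ((t1 + t2) / 2) hs1.1 hs1.2 le_rfl k1 (by linarith)
      (by linarith) le_rfl e1 hΦB
    obtain ⟨s2, hs2, e2⟩ := hivt sm sb ((t1 + t2) / 2) π t2 (hs1.1.trans hsm.1) hsm.2 le_rfl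
      (by linarith) (by linarith) k3 le_rfl em hΦB
    have hlt := strict_triangle hin hsurj hr k1 (by linarith) (by linarith) k3 e1 em e2
    obtain ⟨γ', hc', hlen, q1, q2⟩ := cut_curve hcont hfin (ha0.trans hs1.1) hsm.1 hs2.1
      (hs2.2.trans hb1) hlt
    have hadm' : Admissible γ' := by
      refine ⟨hc', (hlen.trans_le le_top).ne, planes_of_cover hc' fun U hU => ?_⟩
      rcases hcut (Φ U) ((hunit U).1 hU) with h | h | ⟨τ, hτ | hτ, h⟩
      · exact ⟨0, ⟨le_rfl, zero_le_one⟩, by rwa [q1 0 ⟨le_rfl, ha0.trans hs1.1⟩, hin]⟩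
      · exact ⟨1, ⟨zero_le_one, le_rfl⟩, by rwa [q2 1 ⟨hs2.2.trans hb1, le_rfl⟩, hin]⟩
      · obtain ⟨s, hs, e⟩ := hivt sa s1 0 t1 τ le_rfl hs1.1 hs1.2 le_rfl hτ.1 hτ.2 (by linarith)
          hΦA e1
        refine ⟨s, ⟨ha0.trans hs.1, by linarith [hs.2, hs1.2]⟩, ?_⟩
        rwa [q1 s ⟨ha0.trans hs.1, hs.2⟩, hin, e]
      · obtain ⟨s, hs, e⟩ := hivt s2 sb t2 π τ (by linarith [hs1.1, hsm.1, hs2.1]) hs2.2 le_rfl
          (by linarith) hτ.1 hτ.2 le_rfl e2 hΦB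
        refine ⟨s, ⟨by linarith [hs1.1, hsm.1, hs2.1, hs.1], hs.2.trans hb1⟩, ?_⟩
        rwa [q2 s ⟨hs.1, hs.2.trans hb1⟩, hin, e]
    exact absurd (hlow γ' hadm') (not_le.2 hlen)
  have hcore := core hr hcov hess (L1 := dist (γ 0) (γ sa)) (L2 := dist (γ sa) (γ sb))
    (L3 := dist (γ sb) (γ 1)) dist_nonneg dist_nonneg dist_nonneg
    (by rw [hdist, hΦA]) (by rw [hdist, hΦA, hΦB]) (by rw [hdist, hΦB])
  have hge : ENNReal.ofReal (dist (γ 0) (γ sa) + dist (γ sa) (γ sb) + dist (γ sb) (γ 1)) ≤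
      curveLength γ := by
    unfold curveLength
    rw [evar_split γ (ha0.trans hab) hb1, evar_split γ ha0 hab,
      ENNReal.ofReal_add (add_nonneg dist_nonneg dist_nonneg) dist_nonneg,
      ENNReal.ofReal_add dist_nonneg dist_nonneg, ← edist_dist, ← edist_dist, ← edist_dist]
    exact add_le_add (add_le_add (eVariationOn.edist_le γ ⟨le_rfl, ha0⟩ ⟨ha0, le_rfl⟩)
      (eVariationOn.edist_le γ ⟨le_rfl, hab⟩ ⟨hab, le_rfl⟩))
      (eVariationOn.edist_le γ ⟨le_rfl, hb1⟩ ⟨hb1, le_rfl⟩)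
  have hle := (hge.trans (hlow octa octa_admissible)).trans octa_length
  rw [ENNReal.ofReal_le_ofReal_iff (by norm_num)] at hle
  linarith

end Pool.Agent.MP_861c96_gt
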